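import Pool.Agent.T2H98.RT.Stm
import Pool.Agent.H510R2.Div

/-! # Package DIV -/

set_option autoImplicit false

open MeasureTheory Filter Topology Finset

namespace Pool.Agent.T2H98.RT

namespace DIV

lemma b_le (k N m : ℕ) (hm : 1 ≤ m) : b k N m ≤ m.divisors.card ^ k := by
  unfold b
  have h : ((Fintype.piFinset fun _ : Fin k => Finset.Icc 1 N).filter fun v => ∏ i, v i = m) ⊆
      Fintype.piFinset fun _ : Fin k => m.divisors := by
    intro v hv
    rw [Finset.mem_filter] at hv
    rw [Fintype.mem_piFinset]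
    intro i
    rw [Nat.mem_divisors]
    refine ⟨?_, by omega⟩
    rw [← hv.2]
    exact Finset.dvd_prod_of_mem v (Finset.mem_univ i)
  refine (Finset.card_le_card h).trans ?_
  rw [Fintype.card_piFinset]
  simp

lemma fma_le (k m : ℕ) (hm : 1 ≤ m) : (Nat.finMulAntidiag k m).card ≤ m.divisors.card ^ k := by
  have h : Nat.finMulAntidiag k m ⊆ Fintype.piFinset fun _ : Fin k => m.divisors := by
    intro v hv
    rw [Nat.mem_finMulAntidiag] at hv
    rw [Fintype.mem_piFinset]
    intro i
    rw [Nat.mem_divisors]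
    refine ⟨?_, by omega⟩
    rw [← hv.1]
    exact Finset.dvd_prod_of_mem v (Finset.mem_univ i)
  refine (Finset.card_le_card h).trans ?_
  rw [Fintype.card_piFinset]
  simp

end DIV

theorem pDIV : S_DIV := by
  intro k ε hε
  obtain ⟨C, hC, hd⟩ := Pool.Agent.H510R2.divisor_bound (ε / (k + 1)) (by positivity)
  have hC1 : 1 ≤ C := by
    have := hd 1 le_rfl
    simpa using this
  have key : ∀ m : ℕ, 1 ≤ m → ((m.divisors.card ^ k : ℕ) : ℝ) ≤ C ^ k * (m : ℝ) ^ ε := by
    intro m hm
    have hm' : (1 : ℝ) ≤ m := by exact_mod_cast hm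
    have h1 : (m.divisors.card : ℝ) ^ k ≤ (C * (m : ℝ) ^ (ε / (k + 1))) ^ k :=
      pow_le_pow_left₀ (Nat.cast_nonneg _) (hd m hm) k
    push_cast
    refine h1.trans ?_
    rw [mul_pow, ← Real.rpow_natCast ((m : ℝ) ^ (ε / (k + 1))) k, ← Real.rpow_mul (by positivity)]
    refine mul_le_mul_of_nonneg_left ?_ (by positivity)
    refine Real.rpow_le_rpow_of_exponent_le hm' ?_
    rw [div_mul_eq_mul_div, div_le_iff₀ (by positivity)]
    nlinarith
  refine ⟨C ^ k, by positivity, fun N m hm => ?_, fun m hm => ?_⟩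
  · exact (Nat.cast_le.mpr (DIV.b_le k N m hm)).trans (key m hm)
  · exact (Nat.cast_le.mpr (DIV.fma_le k m hm)).trans (key m hm)

end Pool.Agent.T2H98.RT
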