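import Pool.Agent.T2H98.RT.Stm

set_option autoImplicit false

open MeasureTheory Filter Topology Finset

namespace Pool.Agent.T2H98.RT

namespace OR

theorem one (e : ℤ) : ∫ x : ℝ, Complex.exp (2 * Real.pi * ((e : ℝ) * x : ℝ) * Complex.I) ∂uni =
    if e = 0 then 1 else 0 := by
  unfold uni
  rw [integral_Icc_eq_integral_Ioc, ← intervalIntegral.integral_of_le zero_le_one]
  split_ifs with h
  · subst h
    simp
  · have hc : (2 * Real.pi * (e : ℂ) * Complex.I) ≠ 0 := by
      have h1 : (e : ℂ) ≠ 0 := by exact_mod_cast h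
      have h2 : (Real.pi : ℂ) ≠ 0 := by exact_mod_cast Real.pi_ne_zero
      simp [h1, h2, Complex.I_ne_zero]
    have h1 : ∀ x : ℝ, Complex.exp (2 * Real.pi * ((e : ℝ) * x : ℝ) * Complex.I) =
        Complex.exp ((2 * Real.pi * (e : ℂ) * Complex.I) * x) := by
      intro x
      congr 1
      push_cast
      ring
    simp_rw [h1]
    rw [integral_exp_mul_complex hc]
    have h2 : (2 * Real.pi * (e : ℂ) * Complex.I) * ((1 : ℝ) : ℂ) = (e : ℂ) * (2 * Real.pi * Complex.I) := by
      push_cast
      ring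
    rw [h2, Complex.exp_int_mul_two_pi_mul_I]
    simp

theorem ph_ext (θ : ℕ → ℝ) (n : ℕ) (I : Finset ℕ) (hI : n.primeFactors ⊆ I) :
    ph θ n = ∑ p ∈ I, (n.factorization p : ℝ) * θ p := by
  unfold ph
  refine Finset.sum_subset hI ?_
  intro p _ hp
  have : n.factorization p = 0 := by
    rw [← Nat.support_factorization] at hp
    exact Finsupp.notMem_support_iff.1 hp
  rw [this]
  simp

theorem integrand (m n : ℕ) (θ : ℕ → ℝ) :
    tw θ m * (starRingEnd ℂ) (tw θ n) = ∏ p : (m.primeFactors ∪ n.primeFactors : Finset ℕ),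
      Complex.exp (2 * Real.pi * ((((m.factorization p : ℤ) - (n.factorization p : ℤ) : ℤ) : ℝ) * θ p : ℝ) *
        Complex.I) := by
  unfold tw
  rw [← Complex.exp_conj, ← Complex.exp_add,
    Finset.prod_coe_sort (m.primeFactors ∪ n.primeFactors) (fun p => Complex.exp (2 * Real.pi *
      ((((m.factorization p : ℤ) - (n.factorization p : ℤ) : ℤ) : ℝ) * θ p : ℝ) * Complex.I)),
    ← Complex.exp_sum]
  congr 1
  rw [ph_ext θ m _ Finset.subset_union_left, ph_ext θ n _ Finset.subset_union_right]
  simp only [map_mul, Complex.conj_ofReal, Complex.conj_I, map_ofNat]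
  push_cast
  rw [← Finset.sum_mul, ← Finset.mul_sum]
  have : ∑ i ∈ m.primeFactors ∪ n.primeFactors,
      (((m.factorization i : ℂ) - (n.factorization i : ℂ)) * (θ i : ℂ)) =
      (∑ i ∈ m.primeFactors ∪ n.primeFactors, (m.factorization i : ℂ) * (θ i : ℂ)) -
      ∑ i ∈ m.primeFactors ∪ n.primeFactors, (n.factorization i : ℂ) * (θ i : ℂ) := by
    rw [← Finset.sum_sub_distrib]
    refine Finset.sum_congr rfl fun i _ => ?_
    ring
  rw [this]
  ring

end OR

open OR in
theorem pOR : S_OR := by
  intro m n hm hn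
  set I : Finset ℕ := m.primeFactors ∪ n.primeFactors with hI
  set F : (I → ℝ) → ℂ := fun y : I → ℝ => ∏ p : I, Complex.exp (2 * Real.pi *
        ((((m.factorization p : ℤ) - (n.factorization p : ℤ) : ℤ) : ℝ) * y p : ℝ) * Complex.I) with hF
  have h1 : ∀ θ : ℕ → ℝ, tw θ m * (starRingEnd ℂ) (tw θ n) = F (I.restrict θ) :=
    fun θ => integrand m n θ
  have hFc : Continuous F := by
    rw [hF]
    fun_prop
  have h2 : ∫ θ, tw θ m * (starRingEnd ℂ) (tw θ n) ∂P = ∫ y, F y ∂Measure.pi (fun _ : I => uni) := by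
    rw [integral_congr_ae (Eventually.of_forall h1)]
    exact integral_restrict_infinitePi (μ := fun _ : ℕ => uni) (s := I) (f := F) hFc.aestronglyMeasurable
  rw [h2, hF]
  rw [integral_fintype_prod_eq_prod (𝕜 := ℂ) (fun (p : I) (x : ℝ) => Complex.exp (2 * Real.pi *
        ((((m.factorization p : ℤ) - (n.factorization p : ℤ) : ℤ) : ℝ) * x : ℝ) * Complex.I))]
  simp_rw [one]
  split_ifs with h
  · subst h
    simp
  · have hex : ∃ p, m.factorization p ≠ n.factorization p := by
      by_contra hcon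
      push Not at hcon
      exact h (Nat.eq_of_factorization_eq hm hn hcon)
    obtain ⟨p, hp⟩ := hex
    have hpI : p ∈ I := by
      rw [hI, Finset.mem_union, ← Nat.support_factorization, ← Nat.support_factorization,
        Finsupp.mem_support_iff, Finsupp.mem_support_iff]
      by_contra hcon
      push Not at hcon
      exact hp (by rw [hcon.1, hcon.2])
    refine Finset.prod_eq_zero (Finset.mem_univ ⟨p, hpI⟩) ?_
    rw [if_neg]
    intro h0
    simp only at h0
    apply hp
    omega

end Pool.Agent.T2H98.RT
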