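import Pool.Agent.T2H98.RT.Stm

set_option autoImplicit false

open MeasureTheory Filter Topology Finset

namespace Pool.Agent.T2H98.RT

theorem pAE : S_AE := by
  intro Ω _ μ _ X v F hmeas hint hle hsum
  -- the sum of squares at level j
  set Y : ℕ → Ω → ENNReal := fun j ω => ∑ i ∈ F j, ENNReal.ofReal (X j i ω ^ 2) with hY
  have hYm : ∀ j, Measurable (Y j) := by
    intro j
    apply Finset.measurable_sum
    intro i _
    exact ((hmeas j i).pow_const 2).ennreal_ofReal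
  have hYint : ∀ j, ∫⁻ ω, Y j ω ∂μ ≤ ENNReal.ofReal (∑ i ∈ F j, v j i) := by
    intro j
    rw [hY]
    simp only
    rw [lintegral_finsetSum _ (fun i _ => ((hmeas j i).pow_const 2).ennreal_ofReal)]
    have hvnn : ∀ i ∈ F j, 0 ≤ v j i := fun i hi =>
      le_trans (integral_nonneg fun ω => sq_nonneg _) (hle j i hi)
    rw [ENNReal.ofReal_sum_of_nonneg hvnn]
    apply Finset.sum_le_sum
    intro i hi
    rw [← ofReal_integral_eq_lintegral_ofReal (hint j i) (ae_of_all _ fun ω => sq_nonneg _)]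
    exact ENNReal.ofReal_le_ofReal (hle j i hi)
  have hvs : ∀ j, 0 ≤ ∑ i ∈ F j, v j i := fun j => Finset.sum_nonneg fun i hi =>
      le_trans (integral_nonneg fun ω => sq_nonneg _) (hle j i hi)
  have htot : ∫⁻ ω, ∑' j, Y j ω ∂μ ≠ ⊤ := by
    rw [lintegral_tsum fun j => (hYm j).aemeasurable]
    refine ne_top_of_le_ne_top ?_ (ENNReal.tsum_le_tsum hYint)
    rw [← ENNReal.ofReal_tsum_of_nonneg hvs hsum]
    exact ENNReal.ofReal_ne_top
  have hae : ∀ᵐ ω ∂μ, ∑' j, Y j ω < ⊤ :=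
    ae_lt_top (Measurable.tsum hYm) htot
  filter_upwards [hae] with ω hω ε hε
  have h0 : Tendsto (fun j => Y j ω) atTop (𝓝 0) :=
    ENNReal.tendsto_atTop_zero_of_tsum_ne_top hω.ne
  have h1 : ∀ᶠ j in atTop, Y j ω < ENNReal.ofReal (ε ^ 2) :=
    h0.eventually (gt_mem_nhds (by simpa using pow_pos hε 2))
  filter_upwards [h1] with j hj i hi
  have h2 : ENNReal.ofReal (X j i ω ^ 2) < ENNReal.ofReal (ε ^ 2) :=
    lt_of_le_of_lt (Finset.single_le_sum (f := fun i => ENNReal.ofReal (X j i ω ^ 2))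
      (fun _ _ => bot_le) hi) hj
  have h3 : X j i ω ^ 2 < ε ^ 2 := (ENNReal.ofReal_lt_ofReal_iff (by positivity)).1 h2
  exact (abs_lt_of_sq_lt_sq h3 hε.le).le

end Pool.Agent.T2H98.RT
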