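import Pool.Agent.T2H98.RT.Stm
import Pool.Agent.H306R2.EvenConst

/-! # Project RT, package AKP -/

set_option autoImplicit false

namespace Pool.Agent.T2H98.RT

theorem pAKP : S_AKP := by
  intro k hk
  have h0 : (0 : ℝ) < k := by exact_mod_cast (by omega : 0 < k)
  unfold aK
  rw [← Pool.Agent.H306R2.aF_nat k hk]
  exact Pool.Agent.H306R2.aF_pos h0

end Pool.Agent.T2H98.RT
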