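import Pool.Agent.T2H98.RT.Stm

/-! # Package AL -/

set_option autoImplicit false

open MeasureTheory Filter Topology Finset

namespace Pool.Agent.T2H98.RT

namespace AL

lemma b_one {k N : ℕ} (hN : 1 ≤ N) : 1 ≤ b k N 1 := by
  unfold b
  refine Finset.card_pos.mpr ⟨fun _ => 1, ?_⟩
  rw [Finset.mem_filter, Fintype.mem_piFinset]
  exact ⟨fun i => Finset.mem_Icc.mpr ⟨le_rfl, hN⟩, by simp⟩

lemma one_le_A {k N : ℕ} (hN : 1 ≤ N) : 1 ≤ A k N := by
  unfold A
  have h1 : (1 : ℕ) ∈ Finset.Icc 1 (N ^ k) := Finset.mem_Icc.mpr ⟨le_rfl, Nat.one_le_pow k N hN⟩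
  have h2 := Finset.single_le_sum (f := fun m : ℕ => (b k N m : ℝ) ^ 2 / m)
    (fun m _ => by positivity) h1
  have h3 : (1 : ℝ) ≤ b k N 1 := by exact_mod_cast b_one hN
  refine le_trans ?_ h2
  simp only [Nat.cast_one, div_one]
  nlinarith

lemma b_mono (k : ℕ) {N N' : ℕ} (h : N ≤ N') (m : ℕ) : b k N m ≤ b k N' m := by
  unfold b
  refine Finset.card_le_card (Finset.filter_subset_filter _ ?_)
  refine Fintype.piFinset_subset _ _ fun i => ?_
  exact Finset.Icc_subset_Icc le_rfl h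

lemma A_mono (k : ℕ) : Monotone (A k) := by
  intro N N' h
  unfold A
  calc ∑ m ∈ Icc 1 (N ^ k), (b k N m : ℝ) ^ 2 / m
      ≤ ∑ m ∈ Icc 1 (N ^ k), (b k N' m : ℝ) ^ 2 / m := by
        refine Finset.sum_le_sum fun m _ => ?_
        have : (b k N m : ℝ) ≤ b k N' m := by exact_mod_cast b_mono k h m
        gcongr
    _ ≤ ∑ m ∈ Icc 1 (N' ^ k), (b k N' m : ℝ) ^ 2 / m :=
        Finset.sum_le_sum_of_subset_of_nonneg
          (Finset.Icc_subset_Icc le_rfl (Nat.pow_le_pow_left h k)) fun m _ _ => by positivity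

lemma harm_pow_le (k N : ℕ) : (∑ n ∈ Icc 1 N, 1 / (n : ℝ)) ^ k ≤ A k N := by
  have e1 : (∑ n ∈ Icc 1 N, 1 / (n : ℝ)) ^ k =
      ∑ v ∈ Fintype.piFinset (fun _ : Fin k => Icc 1 N), ∏ i, 1 / ((v i : ℕ) : ℝ) := by
    rw [← Finset.prod_univ_sum (fun _ : Fin k => Icc 1 N) (fun _ n => 1 / (n : ℝ))]
    simp
  have hmaps : ∀ v ∈ Fintype.piFinset (fun _ : Fin k => Icc 1 N), ∏ i, v i ∈ Icc 1 (N ^ k) := by
    intro v hv
    rw [Fintype.mem_piFinset] at hv
    rw [Finset.mem_Icc]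
    constructor
    · exact Finset.one_le_prod' fun i _ => (Finset.mem_Icc.mp (hv i)).1
    · calc ∏ i, v i ≤ ∏ _i : Fin k, N :=
            Finset.prod_le_prod' fun i _ => (Finset.mem_Icc.mp (hv i)).2
        _ = N ^ k := by simp
  rw [e1, ← Finset.sum_fiberwise_of_maps_to hmaps]
  unfold A
  refine Finset.sum_le_sum fun m hm => ?_
  have e2 : ∑ v ∈ (Fintype.piFinset fun _ : Fin k => Icc 1 N).filter (fun v => ∏ i, v i = m),
      ∏ i, 1 / ((v i : ℕ) : ℝ) = (b k N m : ℝ) / m := by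
    have : ∀ v ∈ (Fintype.piFinset fun _ : Fin k => Icc 1 N).filter (fun v => ∏ i, v i = m),
        ∏ i, 1 / ((v i : ℕ) : ℝ) = 1 / (m : ℝ) := by
      intro v hv
      rw [Finset.mem_filter] at hv
      rw [Finset.prod_div_distrib, Finset.prod_const_one, ← hv.2]
      push_cast
      rfl
    rw [Finset.sum_congr rfl this, Finset.sum_const, nsmul_eq_mul]
    unfold b
    ring
  rw [e2]
  rcases Nat.eq_zero_or_pos (b k N m) with h0 | h0
  · rw [h0]; simp
  · have h1 : (1 : ℝ) ≤ b k N m := by exact_mod_cast h0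
    have h2 : (b k N m : ℝ) ≤ (b k N m : ℝ) ^ 2 := by nlinarith
    gcongr

end AL

theorem pAL : S_AL := by
  refine ⟨fun k N hN => AL.one_le_A hN, fun k hk => ?_, fun k => AL.A_mono k⟩
  have h1 : Tendsto (fun N : ℕ => ∑ n ∈ Icc 1 N, 1 / (n : ℝ)) atTop atTop := by
    have h2 := Real.tendsto_sum_range_one_div_nat_succ_atTop
    refine h2.congr fun N => ?_
    have h3 := Finset.sum_Ico_add' (fun n : ℕ => 1 / (n : ℝ)) 0 N 1
    have h4 : Ico (0 + 1) (N + 1) = Icc 1 N := by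
      ext x; rw [Finset.mem_Ico, Finset.mem_Icc]; omega
    rw [h4] at h3
    rw [← h3, ← Finset.range_eq_Ico]
    refine Finset.sum_congr rfl fun n _ => ?_
    push_cast
    rfl
  refine tendsto_atTop_mono' atTop ?_ h1
  filter_upwards [eventually_ge_atTop 1] with N hN
  have h3 : (1 : ℝ) ≤ ∑ n ∈ Icc 1 N, 1 / (n : ℝ) := by
    have h4 := Finset.single_le_sum (f := fun n : ℕ => 1 / (n : ℝ)) (s := Icc 1 N)
      (fun n _ => by positivity) (Finset.mem_Icc.mpr ⟨le_rfl, hN⟩)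
    simpa using h4
  exact (le_self_pow₀ h3 (by omega)).trans (AL.harm_pow_le k N)

end Pool.Agent.T2H98.RT
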