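import Pool.Agent.T2H98.RT.Stm

set_option autoImplicit false

open MeasureTheory Filter Topology Finset

namespace Pool.Agent.T2H98.RT

namespace CUT

/-- one factor -/
noncomputable def hh (e δ u : ℝ) : ℝ :=
  max 0 (min 1 ((1 + e + Real.log (max u (Real.exp (-3)))) / δ)) / max u (Real.exp (-3))

lemma hh_cont (e δ : ℝ) : Continuous (hh e δ) := by
  unfold hh
  have hpos : ∀ u : ℝ, max u (Real.exp (-3)) ≠ 0 := fun u =>
    (lt_of_lt_of_le (Real.exp_pos _) (le_max_right _ _)).ne'
  have h1 : Continuous fun u : ℝ => max u (Real.exp (-3)) := by fun_prop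
  have h2 : Continuous fun u : ℝ => Real.log (max u (Real.exp (-3))) := h1.log hpos
  refine Continuous.div ?_ h1 hpos
  fun_prop

lemma hh_eq {e δ : ℝ} (he0 : 0 ≤ e) (he1 : e < 1) (hδ : 0 < δ) (x : ℝ) :
    hh e δ (Real.exp (-x)) * Real.exp (-x) = max 0 (min 1 ((1 + e - x) / δ)) := by
  unfold hh
  rcases le_or_gt x 3 with h | h
  · have h1 : max (Real.exp (-x)) (Real.exp (-3)) = Real.exp (-x) :=
      max_eq_left (Real.exp_le_exp.2 (by linarith))
    rw [h1, Real.log_exp, div_mul_cancel₀ _ (Real.exp_pos _).ne']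
    ring_nf
  · have h1 : max (Real.exp (-x)) (Real.exp (-3)) = Real.exp (-3) :=
      max_eq_right (Real.exp_le_exp.2 (by linarith))
    rw [h1, Real.log_exp]
    have h2 : min 1 ((1 + e + -3) / δ) ≤ 0 :=
      (min_le_right _ _).trans (div_nonpos_of_nonpos_of_nonneg (by linarith) hδ.le)
    have h3 : min 1 ((1 + e - x) / δ) ≤ 0 :=
      (min_le_right _ _).trans (div_nonpos_of_nonpos_of_nonneg (by linarith) hδ.le)
    rw [max_eq_left h2, max_eq_left h3]
    simp

lemma main {ι : Type} [Fintype ι] {e δ : ℝ} (he0 : 0 ≤ e) (he1 : e < 1) (hδ : 0 < δ) (x : ι → ℝ) :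
    (∏ i, hh e δ (Real.exp (-x i))) * Real.exp (-∑ i, x i) =
      ∏ i, max 0 (min 1 ((1 + e - x i) / δ)) := by
  rw [← Finset.sum_neg_distrib, Real.exp_sum, ← Finset.prod_mul_distrib]
  exact Finset.prod_congr rfl fun i _ => hh_eq he0 he1 hδ (x i)

end CUT

open CUT in
theorem pCUT : S_CUT := by
  intro ι _ δ h0 h1
  refine ⟨fun u => ∏ i, hh 0 δ (u i), fun u => ∏ i, hh δ δ (u i), ?_, ?_, ?_, ?_⟩
  · exact continuous_finsetProd _ fun i _ => (hh_cont 0 δ).comp (continuous_apply i)
  · exact continuous_finsetProd _ fun i _ => (hh_cont δ δ).comp (continuous_apply i)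
  · intro x
    have := main (ι := ι) le_rfl zero_lt_one h0 x
    simpa using this
  · intro x
    exact main h0.le h1 h0 x

end Pool.Agent.T2H98.RT
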