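import Pool.Agent.T2H98.RT.Stm

/-!
# Package DKP
-/

set_option autoImplicit false

open MeasureTheory Filter Topology Finset

namespace Pool.Agent.T2H98.RT

namespace DKP

theorem card_fma (k p m : ℕ) (hp : p.Prime) :
    (Nat.finMulAntidiag k (p ^ m)).card = (m + k - 1).choose m := by
  have h := Finset.card_finsuppAntidiag_nat_eq_choose (s := (Finset.univ : Finset (Fin k))) m
  rw [Finset.card_univ, Fintype.card_fin, add_comm k m] at h
  rw [← h]
  symm
  apply Finset.card_bij (fun f _ => fun i => p ^ (f i))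
  · intro f hf
    rw [Finset.mem_finsuppAntidiag] at hf
    rw [Nat.mem_finMulAntidiag]
    refine ⟨?_, pow_ne_zero _ hp.ne_zero⟩
    rw [Finset.prod_pow_eq_pow_sum, hf.1]
  · intro f _ g _ hfg
    ext i
    have := congrFun hfg i
    exact Nat.pow_right_injective hp.two_le this
  · intro v hv
    have hprod := Nat.prod_eq_of_mem_finMulAntidiag hv
    have he : ∀ i, ∃ e, v i = p ^ e := by
      intro i
      obtain ⟨e, _, he⟩ := (Nat.dvd_prime_pow hp).1 (Nat.dvd_of_mem_finMulAntidiag hv i)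
      exact ⟨e, he⟩
    choose e he using he
    refine ⟨Finsupp.equivFunOnFinite.symm e, ?_, ?_⟩
    · rw [Finset.mem_finsuppAntidiag]
      refine ⟨?_, Finset.subset_univ _⟩
      have h1 : ∏ i, v i = p ^ ∑ i, e i := by
        rw [← Finset.prod_pow_eq_pow_sum]
        exact Finset.prod_congr rfl fun i _ => he i
      rw [hprod] at h1
      have h2 := Nat.pow_right_injective hp.two_le h1
      simpa using h2.symm
    · funext i
      simp [he i]

theorem sg_nonneg (k : ℕ) (s : Fin k → ℝ) (m : ℕ) : 0 ≤ sg k s m := by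
  unfold sg
  exact Finset.sum_nonneg fun v _ => Finset.prod_nonneg fun i _ => Real.rpow_nonneg (by positivity) _

theorem sg_prime (k : ℕ) (s : Fin k → ℝ) (p : ℕ) (hp : p.Prime) :
    sg k s p = ∑ i, (p : ℝ) ^ (-s i) := by
  unfold sg
  symm
  apply Finset.sum_bij (fun (i : Fin k) _ => fun j => if j = i then p else 1)
  · intro i _
    rw [Nat.mem_finMulAntidiag]
    refine ⟨?_, hp.ne_zero⟩
    rw [Finset.prod_ite_eq' Finset.univ i (fun _ => p), if_pos (Finset.mem_univ i)]
  · intro i _ i' _ h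
    have h1 := congrFun h i
    simp only [if_true] at h1
    by_contra hne
    rw [if_neg hne] at h1
    exact hp.one_lt.ne' h1
  · intro v hv
    have hprod := Nat.prod_eq_of_mem_finMulAntidiag hv
    have hex : ∃ i, v i ≠ 1 := by
      by_contra hcon
      push Not at hcon
      rw [Finset.prod_eq_one fun i _ => hcon i] at hprod
      exact hp.one_lt.ne hprod
    obtain ⟨i, hi⟩ := hex
    have hvi : v i = p :=
      ((Nat.dvd_prime hp).1 (Nat.dvd_of_mem_finMulAntidiag hv i)).resolve_left hi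
    have hrest : ∏ j ∈ Finset.univ.erase i, v j = 1 := by
      rw [← Finset.mul_prod_erase Finset.univ v (Finset.mem_univ i), hvi] at hprod
      exact Nat.eq_of_mul_eq_mul_left hp.pos (by rw [hprod, mul_one])
    refine ⟨i, Finset.mem_univ i, ?_⟩
    funext j
    by_cases hj : j = i
    · subst hj
      rw [if_pos rfl, hvi]
    · rw [if_neg hj]
      exact ((Finset.prod_eq_one_iff.1 hrest) j (Finset.mem_erase.2 ⟨hj, Finset.mem_univ j⟩)).symm
  · intro i _
    rw [Finset.prod_eq_single i]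
    · simp
    · intro j _ hj
      simp [hj]
    · intro h
      exact absurd (Finset.mem_univ i) h

theorem summ (k : ℕ) (hk : 1 ≤ k) :
    Summable (fun m : ℕ => ((m + k - 1).choose m : ℝ) ^ 2 * (1 / 2 : ℝ) ^ m) := by
  obtain ⟨r, rfl⟩ : ∃ r, k = r + 1 := ⟨k - 1, by omega⟩
  have h1 : Summable (fun n : ℕ => (n : ℝ) ^ (2 * r) * (1 / 2 : ℝ) ^ n) :=
    summable_pow_mul_geometric_of_norm_lt_one (2 * r) (by norm_num)
  have h2 := ((summable_nat_add_iff r).2 h1).mul_left (2 ^ r)
  refine Summable.of_nonneg_of_le (fun m => by positivity) (fun m => ?_) h2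
  have e1 : m + (r + 1) - 1 = m + r := by omega
  rw [e1]
  have h3 : ((m + r).choose m : ℝ) ≤ ((m + r : ℕ) : ℝ) ^ r := by
    rw [Nat.choose_symm_add]
    exact_mod_cast Nat.choose_le_pow (m + r) r
  have h4 : ((m + r).choose m : ℝ) ^ 2 ≤ (((m + r : ℕ) : ℝ) ^ r) ^ 2 :=
    pow_le_pow_left₀ (by positivity) h3 2
  have h5 : (2 : ℝ) ^ r * (((m + r : ℕ) : ℝ) ^ (2 * r) * (1 / 2 : ℝ) ^ (m + r)) =
      (((m + r : ℕ) : ℝ) ^ r) ^ 2 * (1 / 2 : ℝ) ^ m := by
    rw [pow_add, ← pow_mul, mul_comm r 2]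
    have h6 : (2 : ℝ) ^ r * (1 / 2 : ℝ) ^ r = 1 := by
      rw [← mul_pow]
      norm_num
    calc (2 : ℝ) ^ r * (((m + r : ℕ) : ℝ) ^ (2 * r) * ((1 / 2 : ℝ) ^ m * (1 / 2 : ℝ) ^ r))
        = (2 : ℝ) ^ r * (1 / 2 : ℝ) ^ r * (((m + r : ℕ) : ℝ) ^ (2 * r) * (1 / 2 : ℝ) ^ m) := by ring
      _ = ((m + r : ℕ) : ℝ) ^ (2 * r) * (1 / 2 : ℝ) ^ m := by rw [h6, one_mul]
  rw [h5]
  exact mul_le_mul_of_nonneg_right h4 (by positivity)

end DKP

open DKP in
theorem pDKP : S_DKP := by
  intro k hk
  refine ⟨?_, ?_, ?_, ?_, summ k hk⟩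
  · intro p m hp
    rw [← card_fma k p m hp]
    unfold sg
    rw [Finset.card_eq_sum_ones]
    push_cast
    apply Finset.sum_congr rfl
    intro v _
    simp
  · intro s p m hp hs
    refine ⟨sg_nonneg k s _, ?_⟩
    rw [← card_fma k p m hp]
    unfold sg
    calc ∑ v ∈ Nat.finMulAntidiag k (p ^ m), ∏ i, (v i : ℝ) ^ (-s i)
        ≤ ∑ v ∈ Nat.finMulAntidiag k (p ^ m), (1 : ℝ) := by
          apply Finset.sum_le_sum
          intro v hv
          apply Finset.prod_le_one
          · intro i _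
            exact Real.rpow_nonneg (by positivity) _
          · intro i _
            apply Real.rpow_le_one_of_one_le_of_nonpos
            · exact_mod_cast Nat.one_le_iff_ne_zero.2 (Nat.ne_zero_of_mem_finMulAntidiag hv i)
            · linarith [hs i]
      _ = ((Nat.finMulAntidiag k (p ^ m)).card : ℝ) := by
          rw [Finset.sum_const, nsmul_eq_mul, mul_one]
  · intro s p hp
    exact sg_prime k s p hp
  · intro s p m hp
    unfold sg
    apply continuous_finsetSum
    intro v hv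
    apply continuous_finsetProd
    intro i _
    have hv0 : (v i : ℝ) ≠ 0 := by
      exact_mod_cast Nat.ne_zero_of_mem_finMulAntidiag hv i
    exact (Real.continuous_const_rpow hv0).comp (by fun_prop)

end Pool.Agent.T2H98.RT
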