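import Pool.Agent.T2H98.RT.Stm

set_option autoImplicit false

open MeasureTheory Filter Topology Finset

namespace Pool.Agent.T2H98.RT

theorem pEL : S_EL := by
  intro k ε hε
  have ht : Tendsto (fun y : ℝ => (1 + 2 / y) ^ (2 * k)) atTop (𝓝 ((1 + 0) ^ (2 * k))) :=
    (tendsto_const_nhds.add (tendsto_const_nhds.div_atTop tendsto_id)).pow (2 * k)
  rw [add_zero, one_pow] at ht
  have hev := ht.eventually (eventually_lt_nhds (show (1 : ℝ) < 1 + ε by linarith))
  rw [eventually_atTop] at hev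
  obtain ⟨Y, hY⟩ := hev
  set Z := max Y 1 with hZ
  have hZ1 : 1 ≤ Z := le_max_right _ _
  refine ⟨(Z + 2) ^ (2 * k), by positivity, ?_⟩
  intro x y hx hy hxy
  have hxy' : x ≤ y + 2 := by
    have := (abs_le.1 hxy).2
    linarith
  by_cases h : Z ≤ y
  · have hy0 : 0 < y := by linarith
    have h1 := hY y ((le_max_left _ _).trans h)
    have h2 : x ^ (2 * k) ≤ (y + 2) ^ (2 * k) := pow_le_pow_left₀ hx hxy' _
    have h3 : (y + 2) ^ (2 * k) = (1 + 2 / y) ^ (2 * k) * y ^ (2 * k) := by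
      rw [← mul_pow]
      congr 1
      field_simp
    have h4 : (1 + 2 / y) ^ (2 * k) * y ^ (2 * k) ≤ (1 + ε) * y ^ (2 * k) :=
      mul_le_mul_of_nonneg_right h1.le (by positivity)
    have h5 : 0 ≤ (Z + 2) ^ (2 * k) := by positivity
    linarith
  · push Not at h
    have h2 : x ^ (2 * k) ≤ (Z + 2) ^ (2 * k) := pow_le_pow_left₀ hx (by linarith) _
    have h3 : 0 ≤ (1 + ε) * y ^ (2 * k) := by positivity
    linarith

end Pool.Agent.T2H98.RT
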