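import Pool.Agent.T2H98.RT.Stm

set_option autoImplicit false

open MeasureTheory Filter Topology Finset

namespace Pool.Agent.T2H98.RT

namespace EUL

theorem exists_lower {k : ℕ} (s z : Fin k → ℝ) (hs : ∀ i, 0 < s i) (hz : ∀ i, 0 < z i) :
    ∃ δ : ℝ, 0 < δ ∧ (∀ i, δ ≤ s i) ∧ ∀ i, δ ≤ z i := by
  have h : ∀ t : Fin k → ℝ, (∀ i, 0 < t i) → ∃ δ : ℝ, 0 < δ ∧ ∀ i, δ ≤ t i := by
    intro t ht
    rcases isEmpty_or_nonempty (Fin k) with h | h
    · exact ⟨1, one_pos, fun i => (IsEmpty.false i).elim⟩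
    · obtain ⟨i, hi⟩ := Finite.exists_min t
      exact ⟨t i, ht i, hi⟩
  obtain ⟨a, ha, ha2⟩ := h s hs
  obtain ⟨b, hb, hb2⟩ := h z hz
  exact ⟨min a b, lt_min ha hb, fun i => (min_le_left _ _).trans (ha2 i), fun i => (min_le_right _ _).trans (hb2 i)⟩

end EUL

open EUL in
theorem pEUL (hSGM : S_SGM) : S_EUL := by
  intro k s z hk hs hz
  obtain ⟨hmul, h1, hbd⟩ := hSGM k hk
  obtain ⟨δ, hδ, hδs, hδz⟩ := exists_lower s z hs hz
  obtain ⟨C, hC, hC2⟩ := hbd (δ / 2) (by positivity)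
  set f : ℕ → ℝ := fun m => sg k s m * sg k z m / m with hf
  have hnn : ∀ m, 0 ≤ f m := fun m => div_nonneg (mul_nonneg ((h1 s).2 m) ((h1 z).2 m)) (Nat.cast_nonneg _)
  have hf0 : f 0 = 0 := by simp [hf]
  have hf1 : f 1 = 1 := by
    simp only [hf]
    rw [(h1 s).1, (h1 z).1]
    norm_num
  have hfmul : ∀ {m n : ℕ}, m.Coprime n → f (m * n) = f m * f n := by
    intro m n hmn
    simp only [hf]
    rw [hmul s m n hmn, hmul z m n hmn, Nat.cast_mul, div_mul_div_comm]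
    ring
  have hsum : Summable f := by
    have hg : Summable fun m : ℕ => C ^ 2 * (1 / (m : ℝ) ^ (1 + δ)) :=
      (Real.summable_one_div_nat_rpow.2 (by linarith)).mul_left _
    refine Summable.of_nonneg_of_le hnn ?_ hg
    intro m
    rcases Nat.eq_zero_or_pos m with h | h
    · subst h
      rw [hf0]
      positivity
    · have hm0 : (0 : ℝ) < m := by exact_mod_cast h
      have e1 := hC2 s δ m hδ.le hδs h
      have e2 := hC2 z δ m hδ.le hδz h
      have e3 : sg k s m * sg k z m ≤ (C * (m : ℝ) ^ (δ / 2 - δ)) * (C * (m : ℝ) ^ (δ / 2 - δ)) :=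
        mul_le_mul e1 e2 ((h1 z).2 m) (by positivity)
      have e4 : (m : ℝ) ^ (δ / 2 - δ) * (m : ℝ) ^ (δ / 2 - δ) = 1 / (m : ℝ) ^ δ := by
        rw [← Real.rpow_add hm0, one_div, ← Real.rpow_neg hm0.le]
        congr 1
        ring
      have e5 : (m : ℝ) ^ (1 + δ) = m * (m : ℝ) ^ δ := by
        rw [Real.rpow_add hm0, Real.rpow_one]
      calc f m ≤ ((C * (m : ℝ) ^ (δ / 2 - δ)) * (C * (m : ℝ) ^ (δ / 2 - δ))) / m :=
            div_le_div_of_nonneg_right e3 hm0.le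
        _ = C ^ 2 * ((m : ℝ) ^ (δ / 2 - δ) * (m : ℝ) ^ (δ / 2 - δ)) / m := by ring
        _ = C ^ 2 * (1 / (m : ℝ) ^ (1 + δ)) := by
            rw [e4, e5]
            field_simp
  refine ⟨hsum, ?_⟩
  have hnorm : Summable fun m => ‖f m‖ := hsum.norm
  have hE := EulerProduct.eulerProduct_hasProd hf1 hfmul hnorm hf0
  have hcg : (fun p : Nat.Primes => ∑' e : ℕ, f ((p : ℕ) ^ e)) = fun p : Nat.Primes => Lp k s z p := by
    funext p
    unfold Lp
    refine tsum_congr fun e => ?_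
    simp only [hf]
    rw [Nat.cast_pow, one_div, inv_pow, div_eq_mul_inv]
  rw [hcg] at hE
  exact hE

end Pool.Agent.T2H98.RT
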