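import Pool.Agent.T2H98.RT.Stm

/-! Project RT, package FIN: the final statement. -/

set_option autoImplicit false

open MeasureTheory Filter Topology Finset

namespace Pool.Agent.T2H98.RT

namespace FIN

/-- the relative statement for one `k` and one `η` -/
def Rel (θ : ℕ → ℝ) (k : ℕ) (η : ℝ) : Prop := ∀ ε : ℝ, 0 < ε → ∃ (N₀ : ℕ) (T₀ : ℝ), 1 ≤ T₀ ∧
  ∀ (T : ℝ) (N : ℕ), T₀ ≤ T → N₀ ≤ N → (N : ℝ) ≤ T ^ (2 - η) → |J θ k N T - A k N| ≤ ε * A k N

lemma rel_ae (hGRD : S_GRD) (hINTT : S_INTT) (hINTN : S_INTN) :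
    ∀ᵐ θ ∂P, ∀ k n : ℕ, 1 ≤ k → Rel θ k (1 / ((n : ℝ) + 1)) := by
  rw [ae_all_iff]
  intro k
  rw [ae_all_iff]
  intro n
  by_cases hk : 1 ≤ k
  · have h0 : (0 : ℝ) < 1 / ((n : ℝ) + 1) := by positivity
    have h1 : 1 / ((n : ℝ) + 1) ≤ 1 := by
      rw [div_le_one (by positivity)]
      have : (0 : ℝ) ≤ n := Nat.cast_nonneg n
      linarith
    obtain ⟨a, ha, hae⟩ := hGRD k _ hk h0 h1
    filter_upwards [hae] with θ hθ
    intro _
    exact hINTN θ k _ hk h0 h1 (hINTT θ k a _ hk ha h0 h1 hθ)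
  · exact Eventually.of_forall fun θ h => absurd h hk

end FIN

theorem pFIN (hGRD : S_GRD) (hINTT : S_INTT) (hINTN : S_INTN) (hLIM : S_LIM) (_hPOS : S_POS) (hAKP : S_AKP)
    (hAL : S_AL) (hJM : S_JM) : S_FIN := by
  filter_upwards [FIN.rel_ae hGRD hINTT hINTN] with θ hθ
  intro k η hk hη ε hε
  obtain ⟨n, hn⟩ := exists_nat_one_div_lt hη
  have hn1 : 1 / ((n : ℝ) + 1) ≤ 1 := by
    rw [div_le_one (by positivity)]
    have : (0 : ℝ) ≤ n := Nat.cast_nonneg n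
    linarith
  have hg : 0 ≤ gam k := mul_nonneg (hAKP k hk).le ENNReal.toReal_nonneg
  obtain ⟨N₁, T₁, hT₁, hrel⟩ := hθ k n hk (ε / (6 * (gam k + 1))) (by positivity)
  have hlim := hLIM k hk
  have hev : ∀ᶠ N : ℕ in atTop, |A k N / Real.log N ^ (k ^ 2) - gam k| < min (ε / 2) 1 := by
    have := (Metric.tendsto_nhds.mp hlim) (min (ε / 2) 1) (by positivity)
    filter_upwards [this] with N hN
    rwa [Real.dist_eq] at hN
  obtain ⟨N₂, hN₂⟩ := eventually_atTop.mp hev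
  refine ⟨max (max N₁ N₂) 3, T₁, ?_⟩
  intro T N hT hN hNT
  have hN1 : N₁ ≤ N := (le_max_left _ _).trans ((le_max_left _ _).trans hN)
  have hN2 : N₂ ≤ N := (le_max_right _ _).trans ((le_max_left _ _).trans hN)
  have hN3 : 3 ≤ N := (le_max_right _ _).trans hN
  have hT1 : 1 ≤ T := hT₁.trans hT
  have hT0 : 0 < T := by linarith
  have hexp : (T : ℝ) ^ (2 - η) ≤ T ^ (2 - 1 / ((n : ℝ) + 1)) :=
    Real.rpow_le_rpow_of_exponent_le hT1 (by linarith)
  have hexp2 : (T : ℝ) ^ (2 - 1 / ((n : ℝ) + 1)) ≤ (2 * T) ^ (2 - 1 / ((n : ℝ) + 1)) :=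
    Real.rpow_le_rpow hT0.le (by linarith) (by linarith)
  have r1 := hrel T N hT hN1 (hNT.trans hexp)
  have r2 := hrel (2 * T) N (by linarith) hN1 (hNT.trans (hexp.trans hexp2))
  -- the integral
  have hcont : Continuous (fun t => ‖S θ N t‖ ^ (2 * k)) := ((hJM k N 1 one_pos).2.1 θ).norm.pow _
  have hsplit : (∫ t in T..(2 * T), ‖S θ N t‖ ^ (2 * k)) =
      (∫ t in (0:ℝ)..(2 * T), ‖S θ N t‖ ^ (2 * k)) - ∫ t in (0:ℝ)..T, ‖S θ N t‖ ^ (2 * k) :=
    (intervalIntegral.integral_interval_sub_left (hcont.intervalIntegrable _ _)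
      (hcont.intervalIntegrable _ _)).symm
  have hJ : 1 / T * (∫ t in T..(2 * T), ‖S θ N t‖ ^ (2 * k)) = 2 * J θ k N (2 * T) - J θ k N T := by
    rw [hsplit]
    unfold J
    field_simp
  rw [hJ]
  have hLpos : 0 < Real.log N ^ (k ^ 2) := by
    apply pow_pos
    apply Real.log_pos
    exact_mod_cast (by omega : 1 < N)
  set L : ℝ := Real.log N ^ (k ^ 2) with hL
  have hA : |A k N - gam k * L| ≤ min (ε / 2) 1 * L := by
    have h1 := (hN₂ N hN2).le
    have h2 : A k N - gam k * L = (A k N / L - gam k) * L := by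
      field_simp
    rw [h2, abs_mul, abs_of_pos hLpos]
    gcongr
  have hA1 : A k N ≤ (gam k + 1) * L := by
    have h1 := (abs_le.mp hA).2
    have h2 : min (ε / 2) 1 * L ≤ 1 * L := by
      gcongr
      exact min_le_right _ _
    linarith
  have hA0 : 0 ≤ A k N := le_trans zero_le_one (hAL.1 k N (by omega))
  have hA2 : |A k N - gam k * L| ≤ ε / 2 * L := by
    refine hA.trans ?_
    gcongr
    exact min_le_left _ _
  have hA3 : ε / (6 * (gam k + 1)) * A k N ≤ ε / 6 * L := by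
    calc ε / (6 * (gam k + 1)) * A k N ≤ ε / (6 * (gam k + 1)) * ((gam k + 1) * L) := by gcongr
      _ = ε / 6 * L := by field_simp
  have hfin : 2 * J θ k N (2 * T) - J θ k N T - gam k * L =
      2 * (J θ k N (2 * T) - A k N) - (J θ k N T - A k N) + (A k N - gam k * L) := by ring
  rw [hfin]
  rw [abs_le] at r1 r2 hA2 ⊢
  constructor <;> linarith [r1.1, r1.2, r2.1, r2.2, hA2.1, hA2.2]

end Pool.Agent.T2H98.RT
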