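import Pool.Agent.T2H98.RT.Stm

set_option autoImplicit false

open MeasureTheory Filter Topology Finset

namespace Pool.Agent.T2H98.RT

namespace GRD

/-- the bound of the sum of the variances -/
lemma bound {C η : ℝ} (hC : 0 < C) (hη : 0 < η) (hη1 : η ≤ 1) {a : ℕ} (ha : 8 / η ≤ a) (j : ℕ) :
    ∑ i ∈ Icc 1 ⌊(((j : ℝ) + 1) ^ a) ^ (1 - η / 2)⌋₊,
      C * ((i ^ 2 : ℕ) : ℝ) ^ (η / 8) / ((max j 1 : ℕ) : ℝ) ^ a ≤
      C * 2 ^ a * (1 / ((j : ℝ) + 1) ^ 2) := by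
  set x : ℝ := ((j : ℝ) + 1) ^ a with hx
  have hj1 : (1 : ℝ) ≤ (j : ℝ) + 1 := by
    have : (0 : ℝ) ≤ j := Nat.cast_nonneg j
    linarith
  have hx1 : 1 ≤ x := one_le_pow₀ hj1
  have hx0 : 0 < x := by linarith
  set m : ℝ := ((max j 1 : ℕ) : ℝ) with hm
  have hm1 : (1 : ℝ) ≤ m := by rw [hm]; exact_mod_cast le_max_right _ _
  have hmj : (j : ℝ) ≤ m := by rw [hm]; exact_mod_cast le_max_left _ _
  have hm2 : ((j : ℝ) + 1) / 2 ≤ m := by linarith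
  have hma : x / 2 ^ a ≤ m ^ a := by
    rw [hx, ← div_pow]
    exact pow_le_pow_left₀ (by positivity) hm2 a
  have hma0 : 0 < m ^ a := by positivity
  -- every term
  have hterm : ∀ i ∈ Icc 1 ⌊x ^ (1 - η / 2)⌋₊,
      C * ((i ^ 2 : ℕ) : ℝ) ^ (η / 8) / m ^ a ≤ C * x ^ (η / 4) / m ^ a := by
    intro i hi
    rw [mem_Icc] at hi
    have h1 : (i : ℝ) ≤ x ^ (1 - η / 2) := (Nat.le_floor_iff (by positivity)).1 hi.2
    have h2 : ((i ^ 2 : ℕ) : ℝ) ≤ x ^ (2 : ℝ) := by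
      push_cast
      have h3 : x ^ (1 - η / 2) ≤ x := by
        conv_rhs => rw [← Real.rpow_one x]
        exact Real.rpow_le_rpow_of_exponent_le hx1 (by linarith)
      have h4 : (i : ℝ) ^ 2 ≤ x ^ 2 := pow_le_pow_left₀ (Nat.cast_nonneg i) (h1.trans h3) 2
      rw [Real.rpow_two]
      exact h4
    have h3 : ((i ^ 2 : ℕ) : ℝ) ^ (η / 8) ≤ x ^ (η / 4) := by
      refine (Real.rpow_le_rpow (Nat.cast_nonneg _) h2 (by positivity)).trans (le_of_eq ?_)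
      rw [← Real.rpow_mul hx0.le]
      congr 1
      ring
    gcongr
  refine (Finset.sum_le_card_nsmul _ _ _ hterm).trans ?_
  rw [nsmul_eq_mul, Nat.card_Icc, Nat.add_sub_cancel]
  have hfl : (⌊x ^ (1 - η / 2)⌋₊ : ℝ) ≤ x ^ (1 - η / 2) := Nat.floor_le (by positivity)
  have h1 : (⌊x ^ (1 - η / 2)⌋₊ : ℝ) * (C * x ^ (η / 4) / m ^ a) ≤
      x ^ (1 - η / 2) * (C * x ^ (η / 4) / m ^ a) :=
    mul_le_mul_of_nonneg_right hfl (by positivity)
  refine h1.trans ?_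
  have h2 : x ^ (1 - η / 2) * (C * x ^ (η / 4) / m ^ a) = C * x ^ (1 - η / 4) / m ^ a := by
    rw [show (1 - η / 4) = (1 - η / 2) + η / 4 by ring, Real.rpow_add hx0]
    ring
  rw [h2]
  have h3 : C * x ^ (1 - η / 4) / m ^ a ≤ C * x ^ (1 - η / 4) / (x / 2 ^ a) :=
    div_le_div_of_nonneg_left (by positivity) (by positivity) hma
  refine h3.trans ?_
  have h4 : C * x ^ (1 - η / 4) / (x / 2 ^ a) = C * 2 ^ a * x ^ (-(η / 4)) := by
    rw [show (1 - η / 4) = 1 + (-(η / 4)) by ring, Real.rpow_add hx0, Real.rpow_one]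
    field_simp
  rw [h4]
  refine mul_le_mul_of_nonneg_left ?_ (by positivity)
  have h5 : x ^ (-(η / 4)) = ((j : ℝ) + 1) ^ (-(a * (η / 4))) := by
    rw [hx, ← Real.rpow_natCast, ← Real.rpow_mul (by linarith)]
    congr 1
    ring
  have h6 : (1 : ℝ) / ((j : ℝ) + 1) ^ 2 = ((j : ℝ) + 1) ^ (-(2 : ℝ)) := by
    rw [Real.rpow_neg (by linarith), Real.rpow_two, one_div]
  rw [h5, h6]
  refine Real.rpow_le_rpow_of_exponent_le hj1 ?_
  have h7 : 8 / η * (η / 4) ≤ a * (η / 4) := mul_le_mul_of_nonneg_right ha (by positivity)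
  have h8 : 8 / η * (η / 4) = 2 := by field_simp; norm_num
  linarith

end GRD

open GRD

theorem pGRD (hAE : S_AE) (hVAR : S_VAR) (hJM : S_JM) : S_GRD := by
  intro k η hk hη hη1
  obtain ⟨C, hC, hvar⟩ := hVAR k (η / 8) hk (by positivity)
  set a : ℕ := ⌈8 / η⌉₊ with ha
  have ha8 : 8 / η ≤ a := Nat.le_ceil _
  have ha1 : 1 ≤ a := by
    have h1 : (0 : ℝ) < a := lt_of_lt_of_le (by positivity) ha8
    exact_mod_cast h1
  refine ⟨a, ha1, ?_⟩
  have hm1 : ∀ j : ℕ, (1 : ℝ) ≤ ((max j 1 : ℕ) : ℝ) := fun j => by exact_mod_cast le_max_right _ _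
  have ht1 : ∀ j : ℕ, (1 : ℝ) ≤ ((max j 1 : ℕ) : ℝ) ^ a := fun j => one_le_pow₀ (hm1 j)
  have ht0 : ∀ j : ℕ, (0 : ℝ) < ((max j 1 : ℕ) : ℝ) ^ a := fun j => by linarith [ht1 j]
  have hXc : ∀ j i : ℕ, Continuous (fun θ : ℕ → ℝ =>
      J θ k (i ^ 2) (((max j 1 : ℕ) : ℝ) ^ a) - A k (i ^ 2)) := fun j i =>
    ((hJM k (i ^ 2) _ (ht0 j)).1).sub continuous_const
  have hmain := hAE (ℕ → ℝ) P
    (fun j i θ => J θ k (i ^ 2) (((max j 1 : ℕ) : ℝ) ^ a) - A k (i ^ 2))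
    (fun j i => C * ((i ^ 2 : ℕ) : ℝ) ^ (η / 8) / ((max j 1 : ℕ) : ℝ) ^ a)
    (fun j => Icc 1 ⌊(((j : ℝ) + 1) ^ a) ^ (1 - η / 2)⌋₊)
    (fun j i => (hXc j i).measurable)
    (fun j i => by
      refine Integrable.of_bound (C := ((((i ^ 2 : ℕ) : ℝ)) ^ (2 * k) + |A k (i ^ 2)|) ^ 2)
        ((hXc j i).pow 2).aestronglyMeasurable ?_
      refine Eventually.of_forall fun θ => ?_
      rw [Real.norm_eq_abs, abs_pow]
      refine pow_le_pow_left₀ (abs_nonneg _) ?_ 2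
      refine (abs_sub _ _).trans ?_
      obtain ⟨h1, h2⟩ := (hJM k (i ^ 2) _ (ht0 j)).2.2.2.2 θ
      rw [abs_of_nonneg h1]
      linarith)
    (fun j i hi => by
      rw [mem_Icc] at hi
      exact hvar (i ^ 2) _ (Nat.one_le_pow _ _ hi.1) (ht1 j))
    (by
      refine Summable.of_nonneg_of_le (fun j => Finset.sum_nonneg fun i _ => by positivity)
        (fun j => bound hC hη hη1 ha8 j) ?_
      refine Summable.mul_left _ ?_
      have h1 : Summable (fun n : ℕ => 1 / (n : ℝ) ^ 2) :=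
        Real.summable_one_div_nat_pow.2 (by norm_num)
      have h2 := (summable_nat_add_iff 1).2 h1
      refine h2.congr fun n => ?_
      push_cast
      rfl)
  filter_upwards [hmain] with θ hθ ε hε
  filter_upwards [hθ ε hε, eventually_ge_atTop 1] with j hj hj1 i hi hij
  have hmax : max j 1 = j := max_eq_left hj1
  rw [hmax] at hj
  refine hj i ?_
  rw [mem_Icc]
  refine ⟨hi, ?_⟩
  have hx0 : (0 : ℝ) ≤ ((j : ℝ) + 1) ^ a := by positivity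
  refine Nat.le_floor ?_
  have h1 : (i : ℝ) ^ 2 ≤ ((((j : ℝ) + 1) ^ a) ^ (1 - η / 2)) ^ 2 := by
    refine hij.trans (le_of_eq ?_)
    rw [← Real.rpow_natCast (((((j : ℝ) + 1) ^ a)) ^ (1 - η / 2)) 2, ← Real.rpow_mul hx0]
    congr 1
    push_cast
    ring
  exact (pow_le_pow_iff_left₀ (Nat.cast_nonneg i) (by positivity) two_ne_zero).1 h1

end Pool.Agent.T2H98.RT
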