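import Pool.Agent.T2H98.RT.Stm

set_option autoImplicit false

open MeasureTheory Filter Topology Finset

namespace Pool.Agent.T2H98.RT

namespace INTN

lemma elem {δ C a a' j J' : ℝ} (hδ0 : 0 < δ) (hδ : δ ≤ 1 / 2) (hC : 0 ≤ C) (ha : 0 ≤ a)
    (haa : a ≤ a') (haa' : a' ≤ (1 + δ) * a + C) (hj : |j - a| ≤ δ * a)
    (h1 : J' ≤ (1 + δ) * j + C) (h2 : j ≤ (1 + δ) * J' + C) :
    |J' - a'| ≤ 3 * δ * a' + 2 * C := by
  obtain ⟨hj1, hj2⟩ := abs_le.1 hj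
  have ha' : 0 ≤ a' := ha.trans haa
  rw [abs_le]
  constructor
  · have h3 : (1 - δ) * a' - 2 * C ≤ (1 + δ) ^ 2 * J' := by
      have e1 : (1 - δ) * a - C ≤ (1 + δ) * J' := by linarith
      have e2 : (1 + δ) * ((1 - δ) * a - C) ≤ (1 + δ) * ((1 + δ) * J') :=
        mul_le_mul_of_nonneg_left e1 (by linarith)
      have e3 : (1 - δ) * a' ≤ (1 - δ) * ((1 + δ) * a + C) :=
        mul_le_mul_of_nonneg_left haa' (by linarith)
      nlinarith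
    by_contra hcon
    push Not at hcon
    have h4 : J' < (1 - 3 * δ) * a' - 2 * C := by linarith
    have h5 : (1 + δ) ^ 2 * J' < (1 + δ) ^ 2 * ((1 - 3 * δ) * a' - 2 * C) :=
      mul_lt_mul_of_pos_left h4 (by positivity)
    have h6 : 0 ≤ a' * (5 * δ ^ 2 + 3 * δ ^ 3) := by positivity
    have h7 : 0 ≤ C * (2 * δ + δ ^ 2) := by positivity
    nlinarith
  · have h3 : (1 + δ) * j ≤ (1 + δ) * ((1 + δ) * a) := by
      apply mul_le_mul_of_nonneg_left _ (by linarith)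
      linarith
    have h4 : (1 + δ) * ((1 + δ) * a) ≤ (1 + 3 * δ) * a := by nlinarith
    have h5 : (1 + 3 * δ) * a ≤ (1 + 3 * δ) * a' := mul_le_mul_of_nonneg_left haa (by linarith)
    linarith

/-- comparison of the moments -/
lemma J_le (hJM : S_JM) {θ : ℕ → ℝ} {k N M : ℕ} {T δ C : ℝ} (hT : 0 < T)
    (h : ∀ t : ℝ, ‖S θ N t‖ ^ (2 * k) ≤ (1 + δ) * ‖S θ M t‖ ^ (2 * k) + C) :
    J θ k N T ≤ (1 + δ) * J θ k M T + C := by
  have hc : ∀ N : ℕ, Continuous (fun t : ℝ => ‖S θ N t‖ ^ (2 * k)) := fun N =>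
    ((hJM k N T hT).2.1 θ).norm.pow _
  unfold J
  have h1 : ∫ t in (0:ℝ)..T, ‖S θ N t‖ ^ (2 * k) ≤
      ∫ t in (0:ℝ)..T, ((1 + δ) * ‖S θ M t‖ ^ (2 * k) + C) := by
    apply intervalIntegral.integral_mono_on hT.le ((hc N).intervalIntegrable _ _)
      (((hc M).const_mul _).add continuous_const |>.intervalIntegrable _ _)
    intro t _
    exact h t
  rw [intervalIntegral.integral_add (((hc M).const_mul _).intervalIntegrable _ _)
    (continuous_const.intervalIntegrable _ _), intervalIntegral.integral_const_mul,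
    intervalIntegral.integral_const, sub_zero, smul_eq_mul] at h1
  have h2 := mul_le_mul_of_nonneg_left h1 (show 0 ≤ 1 / T by positivity)
  refine h2.trans (le_of_eq ?_)
  field_simp

lemma A_eq (hPW : S_PW) (hMEAN : S_MEAN) {k N : ℕ} (hN : 1 ≤ N) :
    A k N = ∫ θ, ‖S θ N 0‖ ^ (2 * k) ∂P := by
  have h1 := hMEAN (fun m => (b k N m : ℝ) / Real.sqrt m) (N ^ k) 0
  have h2 : ∀ θ : ℕ → ℝ, ‖S θ N 0‖ ^ (2 * k) =
      ‖D θ (fun m => (b k N m : ℝ) / Real.sqrt m) (N ^ k) 0‖ ^ 2 := by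
    intro θ
    rw [← hPW θ k N 0 hN, norm_pow, ← pow_mul, mul_comm k 2]
  simp only [h2]
  rw [h1]
  unfold A
  refine Finset.sum_congr rfl fun m _ => ?_
  rw [div_pow, Real.sq_sqrt (Nat.cast_nonneg m)]

lemma A_le (hPW : S_PW) (hMEAN : S_MEAN) (hJM : S_JM) {k N M : ℕ} (hN : 1 ≤ N) (hM : 1 ≤ M)
    {δ C : ℝ}
    (h : ∀ θ : ℕ → ℝ, ‖S θ N 0‖ ^ (2 * k) ≤ (1 + δ) * ‖S θ M 0‖ ^ (2 * k) + C) :
    A k N ≤ (1 + δ) * A k M + C := by
  rw [A_eq hPW hMEAN hN, A_eq hPW hMEAN hM]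
  have hi : ∀ N : ℕ, Integrable (fun θ => ‖S θ N 0‖ ^ (2 * k)) P := by
    intro N
    obtain ⟨-, -, h3, h4, -⟩ := hJM k N 1 one_pos
    refine Integrable.of_bound (C := (N : ℝ) ^ (2 * k))
      (((h3 0).norm.pow _).aestronglyMeasurable) ?_
    refine Eventually.of_forall fun θ => ?_
    rw [Real.norm_of_nonneg (by positivity)]
    exact pow_le_pow_left₀ (norm_nonneg _) (h4 θ 0) _
  have h1 : ∫ θ, ‖S θ N 0‖ ^ (2 * k) ∂P ≤ ∫ θ, ((1 + δ) * ‖S θ M 0‖ ^ (2 * k) + C) ∂P :=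
    integral_mono (hi N) (((hi M).const_mul _).add (integrable_const _)) h
  rw [integral_add ((hi M).const_mul _) (integrable_const _), integral_const_mul,
    integral_const] at h1
  simpa using h1

end INTN

open INTN

theorem pINTN (hPW : S_PW) (hMEAN : S_MEAN) (hJM : S_JM) (hAL : S_AL) (hEL : S_EL) (hSH : S_SH) :
    S_INTN := by
  intro θ k η hk hη hη1 hyp ε hε
  set ε' : ℝ := min ε 1 with hε'
  have hε'0 : 0 < ε' := lt_min hε one_pos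
  have hε'1 : ε' ≤ 1 := min_le_right _ _
  have hε'2 : ε' ≤ ε := min_le_left _ _
  set δ : ℝ := ε' / 6 with hδ
  have hδ0 : 0 < δ := by positivity
  have hδ1 : δ ≤ 1 / 2 := by rw [hδ]; linarith
  obtain ⟨C, hC, hel⟩ := hEL k δ hδ0
  obtain ⟨T₀, hT₀, hT⟩ := hyp δ hδ0
  obtain ⟨N₁, hN₁⟩ := (hAL.2.1 k hk).eventually_ge_atTop (4 * C / ε') |>.exists_forall_of_atTop
  refine ⟨max N₁ 1, T₀, hT₀, ?_⟩
  intro T N hTT hNN hNT
  have hN1 : N₁ ≤ N := (le_max_left _ _).trans hNN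
  have hN : 1 ≤ N := (le_max_right _ _).trans hNN
  have hT0 : 0 < T := by linarith
  set i : ℕ := Nat.sqrt N with hi
  have hi1 : 1 ≤ i := by
    rw [hi]
    exact Nat.le_sqrt.2 (by simpa using hN)
  have hiN : i ^ 2 ≤ N := by
    rw [hi]
    exact Nat.sqrt_le' N
  have hNi : N < (i + 1) ^ 2 := by
    rw [hi]
    exact Nat.lt_succ_sqrt' N
  have hiN' : (i : ℝ) ^ 2 ≤ N := by exact_mod_cast hiN
  have hmain := hT T hTT i hi1 (hiN'.trans hNT)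
  have hi2 : 1 ≤ i ^ 2 := Nat.one_le_pow _ _ hi1
  have hsh : ∀ (θ : ℕ → ℝ) (t : ℝ), |‖S θ N t‖ - ‖S θ (i ^ 2) t‖| ≤ 2 := fun θ t =>
    (abs_norm_sub_norm_le _ _).trans (hSH θ i N t hi1 hiN hNi)
  have hsh' : ∀ (θ : ℕ → ℝ) (t : ℝ), |‖S θ (i ^ 2) t‖ - ‖S θ N t‖| ≤ 2 := fun θ t => by
    rw [abs_sub_comm]; exact hsh θ t
  have h1 : J θ k N T ≤ (1 + δ) * J θ k (i ^ 2) T + C :=
    J_le hJM hT0 fun t => hel _ _ (norm_nonneg _) (norm_nonneg _) (hsh θ t)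
  have h2 : J θ k (i ^ 2) T ≤ (1 + δ) * J θ k N T + C :=
    J_le hJM hT0 fun t => hel _ _ (norm_nonneg _) (norm_nonneg _) (hsh' θ t)
  have h3 : A k N ≤ (1 + δ) * A k (i ^ 2) + C :=
    A_le hPW hMEAN hJM hN hi2 fun θ' => hel _ _ (norm_nonneg _) (norm_nonneg _) (hsh θ' 0)
  have h4 : A k (i ^ 2) ≤ A k N := hAL.2.2 k hiN
  have h5 : 0 ≤ A k (i ^ 2) := by linarith [hAL.1 k (i ^ 2) hi2]
  have h6 := elem hδ0 hδ1 hC h5 h4 h3 hmain h1 h2
  have h7 := hN₁ N hN1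
  have h8 : 0 ≤ A k N := h5.trans h4
  have h9 : 2 * C ≤ ε' / 2 * A k N := by
    rw [div_le_iff₀ hε'0] at h7
    linarith
  refine h6.trans ?_
  have h10 : 3 * δ * A k N = ε' / 2 * A k N := by rw [hδ]; ring
  have h11 : ε' * A k N ≤ ε * A k N := mul_le_mul_of_nonneg_right hε'2 h8
  linarith

end Pool.Agent.T2H98.RT
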