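import Pool.Agent.T2H98.RT.Stm

/-! Project RT, package JM: continuity and trivial bounds. -/

set_option autoImplicit false

open MeasureTheory Filter Topology Finset

namespace Pool.Agent.T2H98.RT

theorem pJM (hMUL : S_MUL) : S_JM := by
  intro k N T hT
  have hS1 : ∀ θ : ℕ → ℝ, Continuous (fun t : ℝ => S θ N t) := by
    intro θ
    unfold S
    refine continuous_finsetSum _ fun n hn => ?_
    have hn0 : (n : ℂ) ≠ 0 := by
      have := (Finset.mem_Icc.mp hn).1
      exact_mod_cast (by omega : n ≠ 0)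
    refine continuous_const.mul ?_
    refine Continuous.const_cpow ?_ (Or.inl hn0)
    fun_prop
  have hS2 : ∀ t : ℝ, Continuous (fun θ : ℕ → ℝ => S θ N t) := by
    intro t
    unfold S
    refine continuous_finsetSum _ fun n hn => ?_
    exact (hMUL.2.2.2 n).mul continuous_const
  have hS3 : ∀ (θ : ℕ → ℝ) (t : ℝ), ‖S θ N t‖ ≤ N := by
    intro θ t
    unfold S
    have h1 : ∀ n ∈ Finset.Icc 1 N, ‖tw θ n * (n : ℂ) ^ (-(1 / 2 : ℂ) - t * Complex.I)‖ ≤ 1 := by
      intro n hn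
      have hn1 : 1 ≤ n := (Finset.mem_Icc.mp hn).1
      rw [norm_mul, hMUL.2.1 θ n, one_mul, Complex.norm_natCast_cpow_of_pos (by omega)]
      have hre : (-(1 / 2 : ℂ) - t * Complex.I).re = -(1 / 2) := by simp
      rw [hre]
      exact Real.rpow_le_one_of_one_le_of_nonpos (by exact_mod_cast hn1) (by norm_num)
    calc ‖∑ n ∈ Finset.Icc 1 N, tw θ n * (n : ℂ) ^ (-(1 / 2 : ℂ) - t * Complex.I)‖
        ≤ ∑ n ∈ Finset.Icc 1 N, ‖tw θ n * (n : ℂ) ^ (-(1 / 2 : ℂ) - t * Complex.I)‖ := norm_sum_le _ _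
      _ ≤ ∑ n ∈ Finset.Icc 1 N, (1 : ℝ) := Finset.sum_le_sum h1
      _ = N := by simp
  have hb : ∀ (θ : ℕ → ℝ) (t : ℝ), ‖S θ N t‖ ^ (2 * k) ≤ (N : ℝ) ^ (2 * k) := fun θ t =>
    pow_le_pow_left₀ (norm_nonneg _) (hS3 θ t) _
  refine ⟨?_, hS1, hS2, hS3, ?_⟩
  · unfold J
    refine continuous_const.mul ?_
    refine intervalIntegral.continuous_of_dominated_interval (bound := fun _ => (N : ℝ) ^ (2 * k)) ?_ ?_ ?_ ?_
    · intro θ
      exact ((hS1 θ).norm.pow _).aestronglyMeasurable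
    · intro θ
      refine Eventually.of_forall fun t _ => ?_
      rw [Real.norm_eq_abs, abs_of_nonneg (by positivity)]
      exact hb θ t
    · exact intervalIntegrable_const
    · refine Eventually.of_forall fun t _ => ?_
      exact (hS2 t).norm.pow _
  · intro θ
    have hi : IntervalIntegrable (fun t => ‖S θ N t‖ ^ (2 * k)) volume 0 T :=
      ((hS1 θ).norm.pow _).intervalIntegrable _ _
    have h0 : 0 ≤ ∫ t in (0:ℝ)..T, ‖S θ N t‖ ^ (2 * k) :=
      intervalIntegral.integral_nonneg hT.le fun t _ => by positivity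
    have h1 : ∫ t in (0:ℝ)..T, ‖S θ N t‖ ^ (2 * k) ≤ T * (N : ℝ) ^ (2 * k) := by
      have := intervalIntegral.integral_mono_on hT.le hi (intervalIntegrable_const (c := (N : ℝ) ^ (2 * k)))
        fun t _ => hb θ t
      simpa using this
    unfold J
    constructor
    · positivity
    · calc 1 / T * ∫ t in (0:ℝ)..T, ‖S θ N t‖ ^ (2 * k) ≤ 1 / T * (T * (N : ℝ) ^ (2 * k)) := by gcongr
        _ = (N : ℝ) ^ (2 * k) := by field_simp

end Pool.Agent.T2H98.RT
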