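import Pool.Agent.T2H98.RT.Stm

set_option autoImplicit false

open MeasureTheory Filter Topology Finset

namespace Pool.Agent.T2H98.RT

namespace KAR1

variable {ι : Type} [Fintype ι]

noncomputable def E (l : ℝ) (x : ι → ℝ) : ℝ := Real.exp (-∑ i, l * x i)

noncomputable def G (g : (ι → ℝ) → ℝ) (l : ℝ) (x : ι → ℝ) : ℝ :=
  g (fun i => Real.exp (-(l * x i))) * Real.exp (-∑ i, l * x i)

noncomputable def Q (I : Finset (ι → ℕ)) (c : (ι → ℕ) → ℝ) (u : ι → ℝ) : ℝ :=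
  ∑ n ∈ I, c n * ∏ i, u i ^ n i

lemma mono (n : ι → ℕ) (l : ℝ) (x : ι → ℝ) :
    (∏ i, Real.exp (-(l * x i)) ^ n i) * Real.exp (-∑ i, l * x i) =
      Real.exp (-∑ i, l * ((n i : ℝ) + 1) * x i) := by
  simp_rw [← Real.exp_nat_mul]
  rw [← Real.exp_sum, ← Real.exp_add]
  congr 1
  rw [← Finset.sum_neg_distrib, ← Finset.sum_neg_distrib, ← Finset.sum_add_distrib]
  exact Finset.sum_congr rfl fun i _ => by ring

lemma GQ (I : Finset (ι → ℕ)) (c : (ι → ℕ) → ℝ) (l : ℝ) (x : ι → ℝ) :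
    G (Q I c) l x = ∑ n ∈ I, c n * Real.exp (-∑ i, l * ((n i : ℝ) + 1) * x i) := by
  unfold G Q
  rw [Finset.sum_mul]
  refine Finset.sum_congr rfl fun n _ => ?_
  rw [mul_assoc, mono]

lemma int_mono {m : Measure (ι → ℝ)}
    (hm : ∀ s : ι → ℝ, (∀ i, 0 < s i) → Integrable (fun x => Real.exp (-∑ i, s i * x i)) m)
    (n : ι → ℕ) {l : ℝ} (hl : 0 < l) :
    Integrable (fun x : ι → ℝ => Real.exp (-∑ i, l * ((n i : ℝ) + 1) * x i)) m :=
  hm (fun i => l * ((n i : ℝ) + 1)) fun i => by positivity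

lemma int_E {m : Measure (ι → ℝ)}
    (hm : ∀ s : ι → ℝ, (∀ i, 0 < s i) → Integrable (fun x => Real.exp (-∑ i, s i * x i)) m)
    {l : ℝ} (hl : 0 < l) : Integrable (E l) m := hm (fun _ => l) fun _ => hl

lemma int_GQ {m : Measure (ι → ℝ)}
    (hm : ∀ s : ι → ℝ, (∀ i, 0 < s i) → Integrable (fun x => Real.exp (-∑ i, s i * x i)) m)
    (I : Finset (ι → ℕ)) (c : (ι → ℕ) → ℝ) {l : ℝ} (hl : 0 < l) :
    Integrable (G (Q I c) l) m := by
  have : G (Q I c) l = fun x => ∑ n ∈ I, c n * Real.exp (-∑ i, l * ((n i : ℝ) + 1) * x i) :=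
    funext fun x => GQ I c l x
  rw [this]
  exact integrable_finsetSum _ fun n _ => (int_mono hm n hl).const_mul _

lemma integral_GQ {m : Measure (ι → ℝ)}
    (hm : ∀ s : ι → ℝ, (∀ i, 0 < s i) → Integrable (fun x => Real.exp (-∑ i, s i * x i)) m)
    (I : Finset (ι → ℕ)) (c : (ι → ℕ) → ℝ) {l : ℝ} (hl : 0 < l) :
    ∫ x, G (Q I c) l x ∂m =
      ∑ n ∈ I, c n * ∫ x, Real.exp (-∑ i, l * ((n i : ℝ) + 1) * x i) ∂m := by
  simp_rw [GQ]
  rw [integral_finsetSum _ fun n _ => (int_mono hm n hl).const_mul _]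
  exact Finset.sum_congr rfl fun n _ => integral_const_mul _ _

lemma diff_le {m : Measure (ι → ℝ)} (hm0 : ∀ᵐ x ∂m, ∀ i, 0 ≤ x i)
    (hm : ∀ s : ι → ℝ, (∀ i, 0 < s i) → Integrable (fun x => Real.exp (-∑ i, s i * x i)) m)
    {g : (ι → ℝ) → ℝ} (hg : Continuous g) (I : Finset (ι → ℕ)) (c : (ι → ℕ) → ℝ) {ε : ℝ}
    (h : ∀ u ∈ Set.Icc (0 : ι → ℝ) 1, |g u - ∑ n ∈ I, c n * ∏ i, u i ^ n i| ≤ ε) {l : ℝ} (hl : 0 < l) :
    |∫ x, G g l x ∂m - ∫ x, G (Q I c) l x ∂m| ≤ ε * ∫ x, E l x ∂m := by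
  have hQ := int_GQ hm I c hl
  have hE := int_E hm hl
  have hcont : Continuous (G g l) := by
    unfold G
    refine Continuous.mul (hg.comp (by fun_prop)) (by fun_prop)
  have hb : ∀ᵐ x ∂m, ‖G g l x - G (Q I c) l x‖ ≤ ε * E l x := by
    filter_upwards [hm0] with x hx
    have hu : (fun i => Real.exp (-(l * x i))) ∈ Set.Icc (0 : ι → ℝ) 1 := by
      constructor
      · intro i; exact (Real.exp_pos _).le
      · intro i
        exact Real.exp_le_one_iff.2 (by have := mul_nonneg hl.le (hx i); linarith)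
    have h1 := h _ hu
    unfold G E
    rw [← sub_mul, norm_mul, Real.norm_eq_abs, Real.norm_of_nonneg (Real.exp_pos _).le]
    exact mul_le_mul_of_nonneg_right h1 (Real.exp_pos _).le
  have hD : Integrable (fun x => G g l x - G (Q I c) l x) m :=
    (hE.const_mul ε).mono' (hcont.aestronglyMeasurable.sub hQ.aestronglyMeasurable) hb
  have hG : Integrable (G g l) m := by
    have := hD.add hQ
    refine this.congr (ae_of_all _ fun x => ?_)
    simp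
  rw [← integral_sub hG hQ, ← integral_const_mul, ← Real.norm_eq_abs]
  exact norm_integral_le_of_norm_le (hE.const_mul ε) hb

end KAR1

open KAR1 in
theorem pKAR1 (hSW : S_SW) : S_KAR1 := by
  intro ι _ κ μ ν hK g hg
  have hR : ∀ f : (ι → ℝ) → ℝ, (∫ x, f (fun i => Real.exp (-x i)) * Real.exp (-∑ i, x i) ∂ν) =
      ∫ x, G f 1 x ∂ν := by
    intro f
    unfold G
    simp only [one_mul]
  rw [hR g]
  change Tendsto (fun l : ℝ => l ^ κ * ∫ x, G g l x ∂μ) (𝓝[>] 0) (𝓝 (∫ x, G g 1 x ∂ν))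
  -- limits for polynomials
  have hpoly : ∀ (I : Finset (ι → ℕ)) (c : (ι → ℕ) → ℝ),
      Tendsto (fun l : ℝ => l ^ κ * ∫ x, G (Q I c) l x ∂μ) (𝓝[>] 0) (𝓝 (∫ x, G (Q I c) 1 x ∂ν)) := by
    intro I c
    have h1 : Tendsto (fun l : ℝ => ∑ n ∈ I, c n *
        (l ^ κ * ∫ x, Real.exp (-∑ i, l * ((n i : ℝ) + 1) * x i) ∂μ)) (𝓝[>] 0)
        (𝓝 (∑ n ∈ I, c n * ∫ x, Real.exp (-∑ i, ((n i : ℝ) + 1) * x i) ∂ν)) :=
      tendsto_finsetSum _ fun n _ => (hK.lim (fun i => (n i : ℝ) + 1) (fun i => by positivity)).const_mul _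
    have h2 : ∫ x, G (Q I c) 1 x ∂ν = ∑ n ∈ I, c n * ∫ x, Real.exp (-∑ i, ((n i : ℝ) + 1) * x i) ∂ν := by
      rw [integral_GQ hK.nu_int I c one_pos]
      simp only [one_mul]
    rw [h2]
    refine h1.congr' ?_
    filter_upwards [self_mem_nhdsWithin] with l hl
    rw [integral_GQ hK.mu_int I c hl, Finset.mul_sum]
    exact Finset.sum_congr rfl fun n _ => by ring
  have hE : Tendsto (fun l : ℝ => l ^ κ * ∫ x, E l x ∂μ) (𝓝[>] 0) (𝓝 (∫ x, E 1 x ∂ν)) := by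
    have := hK.lim (fun _ => 1) (fun _ => one_pos)
    unfold E
    simpa using this
  set I0 : ℝ := ∫ x, E 1 x ∂ν with hI0
  have hI0' : 0 ≤ I0 := integral_nonneg fun x => (Real.exp_pos _).le
  rw [Metric.tendsto_nhds]
  intro e he
  obtain ⟨I, c, hq⟩ := hSW ι g hg.continuousOn (e / (4 * (I0 + 1))) (by positivity)
  have h1 := (Metric.tendsto_nhds.1 (hpoly I c)) (e / 4) (by positivity)
  have h2 := hE.eventually_le_const (show I0 < I0 + 1 by linarith)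
  filter_upwards [h1, h2, self_mem_nhdsWithin] with l hl1 hl2 hl
  have hl0 : (0:ℝ) < l := hl
  rw [Real.dist_eq] at hl1 ⊢
  have a1 := diff_le hK.mu_nn hK.mu_int hg I c hq hl0
  have a2 := diff_le hK.nu_nn hK.nu_int hg I c hq one_pos
  have hk : 0 < l ^ κ := pow_pos hl0 κ
  set e1 := e / (4 * (I0 + 1)) with he1
  have he1' : e1 * (I0 + 1) = e / 4 := by rw [he1]; field_simp
  have he10 : 0 ≤ e1 := by positivity
  have b1 : |l ^ κ * ∫ x, G g l x ∂μ - l ^ κ * ∫ x, G (Q I c) l x ∂μ| ≤ e / 4 := by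
    rw [← mul_sub, abs_mul, abs_of_pos hk]
    calc l ^ κ * |∫ x, G g l x ∂μ - ∫ x, G (Q I c) l x ∂μ| ≤ l ^ κ * (e1 * ∫ x, E l x ∂μ) :=
          mul_le_mul_of_nonneg_left a1 hk.le
      _ = e1 * (l ^ κ * ∫ x, E l x ∂μ) := by ring
      _ ≤ e1 * (I0 + 1) := mul_le_mul_of_nonneg_left hl2 he10
      _ = e / 4 := he1'
  have b2 : |∫ x, G g 1 x ∂ν - ∫ x, G (Q I c) 1 x ∂ν| ≤ e / 4 := by
    refine a2.trans ?_
    rw [← hI0, ← he1']
    exact mul_le_mul_of_nonneg_left (by linarith) he10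
  have := abs_sub_le_iff.1 b1
  have := abs_sub_le_iff.1 b2
  have := abs_sub_lt_iff.1 hl1
  rw [abs_sub_lt_iff]
  constructor <;> linarith

end Pool.Agent.T2H98.RT
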