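import Pool.Agent.T2H98.RT.Stm

set_option autoImplicit false

open MeasureTheory Filter Topology Finset

namespace Pool.Agent.T2H98.RT

namespace KAR2

variable {ι : Type} [Fintype ι]

noncomputable def cc (e δ : ℝ) (x : ι → ℝ) : ℝ := ∏ i, max 0 (min 1 ((1 + e - x i) / δ))

lemma cc_nonneg (e δ : ℝ) (x : ι → ℝ) : 0 ≤ cc e δ x :=
  Finset.prod_nonneg fun _ _ => le_max_left _ _

lemma fac_le (y : ℝ) : max 0 (min 1 y) ≤ 1 := max_le zero_le_one (min_le_left _ _)

lemma cc_le_one (e δ : ℝ) (x : ι → ℝ) : cc e δ x ≤ 1 :=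
  Finset.prod_le_one (fun _ _ => le_max_left _ _) fun _ _ => fac_le _

lemma cc_zero {e δ : ℝ} (hδ : 0 < δ) {x : ι → ℝ} {i : ι} (hi : 1 + e ≤ x i) : cc e δ x = 0 := by
  refine Finset.prod_eq_zero (Finset.mem_univ i) ?_
  exact max_eq_left ((min_le_right _ _).trans (div_nonpos_of_nonpos_of_nonneg (by linarith) hδ.le))

lemma cc_one {e δ : ℝ} (hδ : 0 < δ) {x : ι → ℝ} (h : ∀ i, x i + δ ≤ 1 + e) : cc e δ x = 1 := by
  refine Finset.prod_eq_one fun i _ => ?_
  have : 1 ≤ (1 + e - x i) / δ := by rw [le_div_iff₀ hδ]; linarith [h i]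
  rw [min_eq_left this]; exact max_eq_right zero_le_one

lemma cc_cont (e δ : ℝ) : Continuous (cc (ι := ι) e δ) := by
  unfold cc
  fun_prop

def B (ι : Type) (r : ℝ) : Set (ι → ℝ) := {x | ∀ i, x i ≤ r}

lemma B_meas (r : ℝ) : MeasurableSet (B ι r) := by
  have : B ι r = ⋂ i, {x : ι → ℝ | x i ≤ r} := by ext x; simp [B]
  rw [this]
  exact MeasurableSet.iInter fun i => measurableSet_le (measurable_pi_apply i) measurable_const

lemma cc_bound {e δ : ℝ} (he : e < 1) (hδ : 0 < δ) (l : ℝ) (x : ι → ℝ) :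
    ‖cc e δ (fun i => l * x i)‖ ≤
      Real.exp (2 * Fintype.card ι) * Real.exp (-∑ i, l * x i) := by
  rw [Real.norm_of_nonneg (cc_nonneg _ _ _)]
  by_cases h : ∃ i, 2 < l * x i
  · obtain ⟨i, hi⟩ := h
    rw [cc_zero hδ (i := i) (by linarith)]
    positivity
  · push Not at h
    refine (cc_le_one _ _ _).trans ?_
    rw [← Real.exp_add, ← Real.exp_zero]
    refine Real.exp_le_exp.2 ?_
    have : ∑ i, l * x i ≤ ∑ _i : ι, (2:ℝ) := Finset.sum_le_sum fun i _ => h i
    rw [Finset.sum_const, Finset.card_univ, nsmul_eq_mul] at this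
    linarith

lemma int_E {m : Measure (ι → ℝ)}
    (hm : ∀ s : ι → ℝ, (∀ i, 0 < s i) → Integrable (fun x => Real.exp (-∑ i, s i * x i)) m)
    {l : ℝ} (hl : 0 < l) : Integrable (fun x : ι → ℝ => Real.exp (-∑ i, l * x i)) m :=
  hm (fun _ => l) fun _ => hl

lemma int_cc {m : Measure (ι → ℝ)}
    (hm : ∀ s : ι → ℝ, (∀ i, 0 < s i) → Integrable (fun x => Real.exp (-∑ i, s i * x i)) m)
    {e δ : ℝ} (he : e < 1) (hδ : 0 < δ) {l : ℝ} (hl : 0 < l) :
    Integrable (fun x : ι → ℝ => cc e δ (fun i => l * x i)) m := by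
  refine ((int_E hm hl).const_mul _).mono' ?_ (ae_of_all _ fun x => cc_bound he hδ l x)
  exact ((cc_cont e δ).comp (by fun_prop)).aestronglyMeasurable

lemma ind_le {δ : ℝ} (hδ : 0 < δ) {l : ℝ} (hl : 0 < l) (x : ι → ℝ) :
    (B ι (1 / l)).indicator (1 : (ι → ℝ) → ℝ) x ≤ cc δ δ (fun i => l * x i) := by
  by_cases h : x ∈ B ι (1 / l)
  · rw [Set.indicator_of_mem h]
    rw [cc_one hδ]
    · rfl
    · intro i
      have := h i
      rw [le_div_iff₀ hl] at this
      linarith
  · rw [Set.indicator_of_notMem h]; exact cc_nonneg _ _ _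

lemma le_ind {δ : ℝ} (hδ : 0 < δ) {l : ℝ} (hl : 0 < l) (x : ι → ℝ) :
    cc 0 δ (fun i => l * x i) ≤ (B ι (1 / l)).indicator (1 : (ι → ℝ) → ℝ) x := by
  by_cases h : x ∈ B ι (1 / l)
  · rw [Set.indicator_of_mem h]
    exact cc_le_one _ _ _
  · rw [Set.indicator_of_notMem h]
    have h' : ∃ i, 1 / l < x i := by
      by_contra hcon
      push Not at hcon
      exact h hcon
    obtain ⟨i, hi⟩ := h'
    rw [div_lt_iff₀ hl] at hi
    exact (cc_zero hδ (i := i) (by linarith)).le

lemma int_ind {m : Measure (ι → ℝ)}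
    (hm : ∀ s : ι → ℝ, (∀ i, 0 < s i) → Integrable (fun x => Real.exp (-∑ i, s i * x i)) m)
    {l : ℝ} (hl : 0 < l) :
    Integrable ((B ι (1 / l)).indicator (1 : (ι → ℝ) → ℝ)) m := by
  refine (int_cc hm (e := 1 / 2) (δ := 1 / 2) (by norm_num) (by norm_num) hl).mono'
    (Measurable.aestronglyMeasurable (measurable_one.indicator (B_meas _)))
    (ae_of_all _ fun x => ?_)
  have h0 : 0 ≤ (B ι (1 / l)).indicator (1 : (ι → ℝ) → ℝ) x :=
    Set.indicator_nonneg (fun _ _ => zero_le_one) x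
  rw [Real.norm_of_nonneg h0]
  exact ind_le (by norm_num) hl x

lemma lower {m : Measure (ι → ℝ)}
    (hm : ∀ s : ι → ℝ, (∀ i, 0 < s i) → Integrable (fun x => Real.exp (-∑ i, s i * x i)) m)
    {δ : ℝ} (hδ : 0 < δ) {l : ℝ} (hl : 0 < l) :
    ∫ x, cc 0 δ (fun i => l * x i) ∂m ≤ (m (B ι (1 / l))).toReal := by
  have h := integral_indicator_one (μ := m) (B_meas (ι := ι) (1 / l))
  change _ ≤ m.real _
  rw [← h]
  exact integral_mono (int_cc hm zero_lt_one hδ hl) (int_ind hm hl) fun x => le_ind hδ hl x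

lemma upper {m : Measure (ι → ℝ)}
    (hm : ∀ s : ι → ℝ, (∀ i, 0 < s i) → Integrable (fun x => Real.exp (-∑ i, s i * x i)) m)
    {δ : ℝ} (hδ : 0 < δ) (hδ1 : δ < 1) {l : ℝ} (hl : 0 < l) :
    (m (B ι (1 / l))).toReal ≤ ∫ x, cc δ δ (fun i => l * x i) ∂m := by
  have h := integral_indicator_one (μ := m) (B_meas (ι := ι) (1 / l))
  change m.real _ ≤ _
  rw [← h]
  exact integral_mono (int_ind hm hl) (int_cc hm hδ1 hδ hl) fun x => ind_le hδ hl x

noncomputable def d (n : ℕ) : ℝ := 1 / ((n : ℝ) + 2)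

lemma d_pos (n : ℕ) : 0 < d n := by unfold d; positivity

lemma d_lt (n : ℕ) : d n < 1 := by
  unfold d
  rw [div_lt_one (by positivity)]
  have : (0:ℝ) ≤ n := n.cast_nonneg
  linarith

lemma d_tend : Tendsto d atTop (𝓝 0) := by
  unfold d
  exact tendsto_const_nhds.div_atTop (tendsto_atTop_add_const_right _ _ tendsto_natCast_atTop_atTop)

lemma limU {m : Measure (ι → ℝ)}
    (hm : ∀ s : ι → ℝ, (∀ i, 0 < s i) → Integrable (fun x => Real.exp (-∑ i, s i * x i)) m) :
    Tendsto (fun n => ∫ x, cc (d n) (d n) x ∂m) atTop (𝓝 ((m (B ι 1)).toReal)) := by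
  have h := integral_indicator_one (μ := m) (B_meas (ι := ι) 1)
  change Tendsto _ _ (𝓝 (m.real _))
  rw [← h]
  refine tendsto_integral_of_dominated_convergence
    (fun x => Real.exp (2 * Fintype.card ι) * Real.exp (-∑ i, 1 * x i))
    (fun n => (cc_cont _ _).aestronglyMeasurable) ((int_E hm one_pos).const_mul _) ?_ ?_
  · intro n
    refine ae_of_all _ fun x => ?_
    have := cc_bound (d_lt n) (d_pos n) 1 x
    simpa only [one_mul] using this
  · refine ae_of_all _ fun x => ?_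
    by_cases hx : x ∈ B ι 1
    · rw [Set.indicator_of_mem hx]
      refine tendsto_const_nhds.congr fun n => ?_
      rw [cc_one (d_pos n) fun i => by have := hx i; linarith]
      rfl
    · rw [Set.indicator_of_notMem hx]
      have h' : ∃ i, 1 < x i := by
        by_contra hcon
        push Not at hcon
        exact hx hcon
      obtain ⟨i, hi⟩ := h'
      refine tendsto_const_nhds.congr' ?_
      filter_upwards [d_tend.eventually_le_const (show (0:ℝ) < x i - 1 by linarith)] with n hn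
      exact (cc_zero (d_pos n) (i := i) (by linarith)).symm

lemma limL {m : Measure (ι → ℝ)}
    (hm : ∀ s : ι → ℝ, (∀ i, 0 < s i) → Integrable (fun x => Real.exp (-∑ i, s i * x i)) m)
    (hnull : ∀ i, m {x | x i = 1} = 0) :
    Tendsto (fun n => ∫ x, cc 0 (d n) x ∂m) atTop (𝓝 ((m (B ι 1)).toReal)) := by
  have h := integral_indicator_one (μ := m) (B_meas (ι := ι) 1)
  change Tendsto _ _ (𝓝 (m.real _))
  rw [← h]
  refine tendsto_integral_of_dominated_convergence
    (fun x => Real.exp (2 * Fintype.card ι) * Real.exp (-∑ i, 1 * x i))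
    (fun n => (cc_cont _ _).aestronglyMeasurable) ((int_E hm one_pos).const_mul _) ?_ ?_
  · intro n
    refine ae_of_all _ fun x => ?_
    have := cc_bound (e := 0) zero_lt_one (d_pos n) 1 x
    simpa only [one_mul] using this
  · have hne : ∀ᵐ x ∂m, ∀ i, x i ≠ 1 := by
      rw [ae_all_iff]
      intro i
      rw [ae_iff]
      simpa using hnull i
    filter_upwards [hne] with x hxne
    by_cases hx : x ∈ B ι 1
    · rw [Set.indicator_of_mem hx]
      have hlt : ∀ i, x i < 1 := fun i => lt_of_le_of_ne (hx i) (hxne i)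
      have hev : ∀ᶠ n in atTop, ∀ i, d n ≤ 1 - x i := by
        rw [eventually_all]
        intro i
        exact d_tend.eventually_le_const (by linarith [hlt i])
      refine tendsto_const_nhds.congr' ?_
      filter_upwards [hev] with n hn
      rw [cc_one (d_pos n) fun i => by have := hn i; linarith]
      rfl
    · rw [Set.indicator_of_notMem hx]
      have h' : ∃ i, 1 < x i := by
        by_contra hcon
        push Not at hcon
        exact hx hcon
      obtain ⟨i, hi⟩ := h'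
      refine tendsto_const_nhds.congr fun n => ?_
      exact (cc_zero (d_pos n) (i := i) (by linarith)).symm

end KAR2

open KAR2 in
theorem pKAR2 (hKAR1 : S_KAR1) (hCUT : S_CUT) : S_KAR2 := by
  intro ι _ κ μ ν hK hnull
  have key : ∀ n : ℕ,
      Tendsto (fun l : ℝ => l ^ κ * ∫ x, cc 0 (d n) (fun i => l * x i) ∂μ) (𝓝[>] 0)
        (𝓝 (∫ x, cc 0 (d n) x ∂ν)) ∧
      Tendsto (fun l : ℝ => l ^ κ * ∫ x, cc (d n) (d n) (fun i => l * x i) ∂μ) (𝓝[>] 0)
        (𝓝 (∫ x, cc (d n) (d n) x ∂ν)) := by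
    intro n
    obtain ⟨g₁, g₂, c1, c2, e1, e2⟩ := hCUT ι (d n) (d_pos n) (d_lt n)
    have e1' : ∀ x : ι → ℝ, g₁ (fun i => Real.exp (-x i)) * Real.exp (-∑ i, x i) = cc 0 (d n) x := by
      intro x
      rw [e1 x]; unfold cc; simp only [add_zero]
    have e2' : ∀ x : ι → ℝ, g₂ (fun i => Real.exp (-x i)) * Real.exp (-∑ i, x i) =
        cc (d n) (d n) x := fun x => e2 x
    constructor
    · have := hKAR1 ι κ μ ν hK g₁ c1
      simp only [e1'] at this
      exact this
    · have := hKAR1 ι κ μ ν hK g₂ c2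
      simp only [e2'] at this
      exact this
  change Tendsto (fun l : ℝ => l ^ κ * (μ (B ι (1 / l))).toReal) (𝓝[>] 0) (𝓝 ((ν (B ι 1)).toReal))
  refine tendsto_order.2 ⟨fun a ha => ?_, fun b hb => ?_⟩
  · obtain ⟨n, hn⟩ := ((limL hK.nu_int hnull).eventually_const_lt ha).exists
    filter_upwards [(key n).1.eventually_const_lt hn, self_mem_nhdsWithin] with l h1 hl
    have hl0 : (0:ℝ) < l := hl
    exact h1.trans_le (mul_le_mul_of_nonneg_left (lower hK.mu_int (d_pos n) hl0) (pow_pos hl0 κ).le)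
  · obtain ⟨n, hn⟩ := ((limU hK.nu_int).eventually_lt_const hb).exists
    filter_upwards [(key n).2.eventually_lt_const hn, self_mem_nhdsWithin] with l h1 hl
    have hl0 : (0:ℝ) < l := hl
    exact (mul_le_mul_of_nonneg_left (upper hK.mu_int (d_pos n) (d_lt n) hl0)
      (pow_pos hl0 κ).le).trans_lt h1

end Pool.Agent.T2H98.RT
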