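import Pool.Agent.T2H98.RT.Stm

set_option autoImplicit false

open MeasureTheory Filter Topology

namespace Pool.Agent.T2H98.RT

namespace LAP

lemma fac_pos (p : ℕ) (hp : p.Prime) (x : ℝ) (hx : 0 ≤ x) : 0 < 1 - (p : ℝ) ^ (-1 - x) := by
  have hp1 : (1 : ℝ) < p := by exact_mod_cast hp.one_lt
  have h := Real.rpow_lt_one_of_one_lt_of_neg hp1 (show -1 - x < 0 by linarith)
  linarith

end LAP

theorem pLAP (hEUL : S_EUL) (hLOC1 : S_LOC1) (hPLIM : S_PLIM) (hZP : S_ZP) : S_LAP := by
  intro k s z hk hs hz
  obtain ⟨Z, hZ1, hZ2⟩ := hZP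
  obtain ⟨C, hC, hloc⟩ := hLOC1 k hk
  have key : ∀ l : ℝ, 0 < l →
      ∑' m : ℕ, sg k (fun i => l * s i) m * sg k (fun i => l * z i) m / m =
      (∏' p : Nat.Primes, Rp k (fun i => l * s i) (fun i => l * z i) p) *
        ∏ i, ∏ j, Z (l * (s i + z j)) := by
    intro l hl
    have hls : ∀ i, 0 < l * s i := fun i => mul_pos hl (hs i)
    have hlz : ∀ i, 0 < l * z i := fun i => mul_pos hl (hz i)
    have h1 := (hEUL k (fun i => l * s i) (fun i => l * z i) hk hls hlz).2
    have h2 : HasProd (fun p : Nat.Primes => ∏ i, ∏ j,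
        (1 - (p : ℝ) ^ (-1 - l * (s i + z j)))⁻¹) (∏ i, ∏ j, Z (l * (s i + z j))) := by
      refine hasProd_prod fun i _ => hasProd_prod fun j _ => ?_
      exact (hZ1 (l * (s i + z j)) (mul_pos hl (add_pos (hs i) (hz j)))).2
    have hsum : Summable (fun p : Nat.Primes => ‖Rp k (fun i => l * s i) (fun i => l * z i) p - 1‖) := by
      have h0 : Summable (fun p : Nat.Primes => C / ((p : ℕ) : ℝ) ^ 2) := by
        have h3 := (Real.summable_one_div_nat_pow.2 (one_lt_two)).mul_left C
        have h4 := h3.comp_injective (Subtype.val_injective (p := Nat.Prime))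
        refine h4.congr fun p => ?_
        simp only [Function.comp]
        rw [mul_one_div]
      refine Summable.of_nonneg_of_le (fun p => norm_nonneg _) (fun p => ?_) h0
      rw [Real.norm_eq_abs]
      exact hloc _ _ p p.2 (fun i => (hls i).le) (fun i => (hlz i).le)
    have h3 : Multipliable (fun p : Nat.Primes => Rp k (fun i => l * s i) (fun i => l * z i) p) := by
      have h4 := multipliable_one_add_of_summable hsum
      refine h4.congr fun p => ?_
      ring
    have h5 := h3.hasProd.mul h2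
    have h6 : (fun p : Nat.Primes => Rp k (fun i => l * s i) (fun i => l * z i) p *
        ∏ i, ∏ j, (1 - (p : ℝ) ^ (-1 - l * (s i + z j)))⁻¹) =
        fun p : Nat.Primes => Lp k (fun i => l * s i) (fun i => l * z i) p := by
      funext p
      unfold Rp
      have h7 : (∏ i : Fin k, ∏ j : Fin k, (1 - (p : ℝ) ^ (-1 - l * s i - l * z j))) *
          ∏ i : Fin k, ∏ j : Fin k, (1 - (p : ℝ) ^ (-1 - l * (s i + z j)))⁻¹ = 1 := by
        rw [← Finset.prod_mul_distrib]
        refine Finset.prod_eq_one fun i _ => ?_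
        rw [← Finset.prod_mul_distrib]
        refine Finset.prod_eq_one fun j _ => ?_
        rw [show -1 - l * s i - l * z j = -1 - l * (s i + z j) by ring]
        exact mul_inv_cancel₀ (LAP.fac_pos p p.2 _ (mul_pos hl (add_pos (hs i) (hz j))).le).ne'
      rw [mul_right_comm, h7, one_mul]
    rw [h6] at h5
    exact h1.unique h5
  have hlim : Tendsto (fun l : ℝ => (∏' p : Nat.Primes, Rp k (fun i => l * s i) (fun i => l * z i) p) *
      ∏ i, ∏ j, (l * Z (l * (s i + z j)))) (𝓝[>] 0) (𝓝 (aK k * ∏ i, ∏ j, 1 / (s i + z j))) := by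
    refine (hPLIM k s z hk hs hz).mul ?_
    refine tendsto_finsetProd _ fun i _ => tendsto_finsetProd _ fun j _ => ?_
    have hc : 0 < s i + z j := add_pos (hs i) (hz j)
    have h1 : Tendsto (fun l : ℝ => l * (s i + z j)) (𝓝[>] 0) (𝓝[>] 0) := by
      rw [tendsto_nhdsWithin_iff]
      constructor
      · have : Tendsto (fun l : ℝ => l * (s i + z j)) (𝓝 0) (𝓝 (0 * (s i + z j))) :=
          (continuous_id.mul continuous_const).tendsto 0
        rw [zero_mul] at this
        exact this.mono_left nhdsWithin_le_nhds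
      · filter_upwards [self_mem_nhdsWithin] with l hl
        exact mul_pos hl hc
    have h2 := (hZ2.comp h1).const_mul (1 / (s i + z j))
    rw [mul_one] at h2
    refine h2.congr fun l => ?_
    simp only [Function.comp]
    field_simp
  refine hlim.congr' ?_
  filter_upwards [self_mem_nhdsWithin] with l hl
  rw [key l hl]
  have e : ∏ i : Fin k, ∏ j : Fin k, (l * Z (l * (s i + z j))) =
      l ^ (k ^ 2) * ∏ i : Fin k, ∏ j : Fin k, Z (l * (s i + z j)) := by
    simp only [Finset.prod_mul_distrib, Finset.prod_const, Finset.card_univ, Fintype.card_fin]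
    rw [← pow_mul, pow_two]
  rw [e]
  ring

end Pool.Agent.T2H98.RT
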