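import Pool.Agent.T2H98.RT.Stm

set_option autoImplicit false

open MeasureTheory Filter Topology Finset

namespace Pool.Agent.T2H98.RT

theorem pLIM (hLAP : S_LAP) (hKAR2 : S_KAR2) (hMU1 : S_MU1) (hMU2 : S_MU2) (hNU : S_NU) :
    S_LIM := by
  intro k hk
  obtain ⟨nn, nint, nnull, ngam⟩ := hNU k hk
  have hKh : Kh (Fin k ⊕ Fin k) (k ^ 2) (mu k) (nu k) := by
    refine ⟨?_, nn, ?_, fun s hs => (nint s hs).1, ?_⟩
    · exact (hMU1 k (fun _ => 1) hk (fun _ => one_pos)).1
    · intro s hs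
      exact (hMU1 k s hk hs).2.1
    · intro s hs
      rw [(nint s hs).2]
      refine (hLAP k (fun i => s (Sum.inl i)) (fun i => s (Sum.inr i)) hk (fun i => hs _)
        (fun i => hs _)).congr' ?_
      filter_upwards [self_mem_nhdsWithin] with l hl
      have hl' : (0 : ℝ) < l := hl
      rw [(hMU1 k (fun a => l * s a) hk (fun a => mul_pos hl' (hs a))).2.2]
  have h1 := hKAR2 (Fin k ⊕ Fin k) (k ^ 2) (mu k) (nu k) hKh nnull
  rw [ngam] at h1
  have hlog : Tendsto (fun N : ℕ => Real.log (N : ℝ)) atTop atTop :=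
    Real.tendsto_log_atTop.comp tendsto_natCast_atTop_atTop
  have h2 : Tendsto (fun N : ℕ => 1 / Real.log (N : ℝ)) atTop (𝓝[>] 0) := by
    rw [tendsto_nhdsWithin_iff]
    refine ⟨?_, ?_⟩
    · exact tendsto_const_nhds.div_atTop hlog
    · filter_upwards [hlog.eventually_gt_atTop 0] with N hN
      exact one_div_pos.2 hN
  refine (h1.comp h2).congr' ?_
  filter_upwards [hlog.eventually_gt_atTop 0, eventually_ge_atTop 1] with N hN hN1
  simp only [Function.comp_apply]
  rw [one_div_one_div, hMU2 k N hk hN1, one_div, inv_pow]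
  field_simp

end Pool.Agent.T2H98.RT
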