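import Pool.Agent.T2H98.RT.Stm

/-!
# Package LOC1
-/

set_option autoImplicit false

open MeasureTheory Filter Topology Finset

namespace Pool.Agent.T2H98.RT

namespace LOC1

/-- the second order error of a product -/
theorem prod_err {ι : Type*} [DecidableEq ι] (A : Finset ι) (y : ι → ℝ) (q : ℝ) (hq : 0 ≤ q)
    (hq1 : q ≤ 1) (hy : ∀ a ∈ A, 0 ≤ y a ∧ y a ≤ q) :
    0 ≤ ∏ a ∈ A, (1 - y a) - 1 + ∑ a ∈ A, y a ∧
      ∏ a ∈ A, (1 - y a) - 1 + ∑ a ∈ A, y a ≤ (A.card : ℝ) ^ 2 * q ^ 2 := by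
  induction A using Finset.induction_on with
  | empty => simp
  | insert a A ha ih =>
    obtain ⟨h1, h2⟩ := ih fun b hb => hy b (Finset.mem_insert_of_mem hb)
    obtain ⟨h3, h4⟩ := hy a (Finset.mem_insert_self a A)
    rw [Finset.prod_insert ha, Finset.sum_insert ha, Finset.card_insert_of_notMem ha]
    have hS0 : 0 ≤ ∑ b ∈ A, y b := Finset.sum_nonneg fun b hb => (hy b (Finset.mem_insert_of_mem hb)).1
    have hS1 : ∑ b ∈ A, y b ≤ A.card * q := by
      calc ∑ b ∈ A, y b ≤ ∑ b ∈ A, q :=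
            Finset.sum_le_sum fun b hb => (hy b (Finset.mem_insert_of_mem hb)).2
        _ = A.card * q := by rw [Finset.sum_const, nsmul_eq_mul]
    set Q := ∏ b ∈ A, (1 - y b) with hQ
    set W := ∑ b ∈ A, y b with hW
    have e : (1 - y a) * Q - 1 + (y a + W) = y a * W + (Q - 1 + W) * (1 - y a) := by ring
    rw [e]
    have hya1 : 0 ≤ 1 - y a := by linarith
    refine ⟨by positivity, ?_⟩
    have h5 : y a * W ≤ q * (A.card * q) := mul_le_mul h4 hS1 hS0 hq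
    have h6 : (Q - 1 + W) * (1 - y a) ≤ (A.card : ℝ) ^ 2 * q ^ 2 := by
      calc (Q - 1 + W) * (1 - y a) ≤ (Q - 1 + W) * 1 :=
            mul_le_mul_of_nonneg_left (by linarith) h1
        _ ≤ _ := by linarith
    push_cast
    have h7 : 0 ≤ (A.card : ℝ) * q ^ 2 := by positivity
    nlinarith [sq_nonneg q]

/-- the final estimate -/
theorem final (q h t e C1 K : ℝ) (hq : 0 ≤ q) (hq1 : q ≤ 1) (hC : 0 ≤ C1) (hK : 0 ≤ K)
    (h0 : 0 ≤ h) (h1 : h ≤ K * q) (t0 : 0 ≤ t) (t1 : t ≤ C1 * q ^ 2) (e0 : 0 ≤ e)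
    (e1 : e ≤ K ^ 2 * q ^ 2) :
    |(1 - h + e) * (1 + h + t) - 1| ≤ (C1 + K ^ 2 + K * C1 + K ^ 2 * (1 + K + C1)) * q ^ 2 := by
  have hk : h ≤ K := h1.trans (mul_le_of_le_one_right hK hq1)
  have hq2 : q ^ 2 ≤ 1 := pow_le_one₀ hq hq1
  have ht : t ≤ C1 := t1.trans (mul_le_of_le_one_right hC hq2)
  have a1 : h ^ 2 ≤ K ^ 2 * q ^ 2 := by
    rw [← mul_pow]
    exact pow_le_pow_left₀ h0 h1 2
  have a2 : h * t ≤ K * C1 * q ^ 2 := by
    calc h * t ≤ K * (C1 * q ^ 2) := mul_le_mul hk t1 t0 hK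
      _ = K * C1 * q ^ 2 := by ring
  have a3 : e * (1 + h + t) ≤ K ^ 2 * (1 + K + C1) * q ^ 2 := by
    calc e * (1 + h + t) ≤ (K ^ 2 * q ^ 2) * (1 + K + C1) :=
          mul_le_mul e1 (by linarith) (by linarith) (by positivity)
      _ = _ := by ring
  have a4 : 0 ≤ e * (1 + h + t) := by positivity
  have a5 : 0 ≤ h * t := by positivity
  have a6 : 0 ≤ h ^ 2 := by positivity
  have e' : (1 - h + e) * (1 + h + t) - 1 = t - h ^ 2 - h * t + e * (1 + h + t) := by ring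
  rw [e', abs_le]
  have b1 : 0 ≤ C1 * q ^ 2 := by positivity
  have b2 : 0 ≤ K ^ 2 * (1 + K + C1) * q ^ 2 := by positivity
  have b3 : 0 ≤ K * C1 * q ^ 2 := by positivity
  have b4 : 0 ≤ K ^ 2 * q ^ 2 := by positivity
  constructor
  · nlinarith
  · nlinarith

end LOC1

open LOC1 in
theorem pLOC1 (hDKP : S_DKP) : S_LOC1 := by
  intro k hk
  obtain ⟨-, h2, h3, -, h5⟩ := hDKP k hk
  set d : ℕ → ℝ := fun m => ((m + k - 1).choose m : ℝ) with hd
  set C1 : ℝ := 4 * ∑' m : ℕ, d (m + 2) ^ 2 * (1 / 2 : ℝ) ^ (m + 2) with hC1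
  have hC1n : 0 ≤ C1 := by
    rw [hC1]
    have : 0 ≤ ∑' m : ℕ, d (m + 2) ^ 2 * (1 / 2 : ℝ) ^ (m + 2) :=
      tsum_nonneg fun m => by positivity
    linarith
  set K : ℝ := (k : ℝ) * k with hK
  have hKn : 0 ≤ K := by positivity
  refine ⟨C1 + K ^ 2 + K * C1 + K ^ 2 * (1 + K + C1) + 1, by positivity, ?_⟩
  intro s z p hp hs hz
  have hp0 : (0 : ℝ) < p := by exact_mod_cast hp.pos
  have hp2 : (2 : ℝ) ≤ p := by exact_mod_cast hp.two_le
  set q : ℝ := 1 / (p : ℝ) with hq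
  have hq0 : 0 < q := by positivity
  have hqh : q ≤ 1 / 2 := by
    rw [hq]
    exact one_div_le_one_div_of_le (by norm_num) hp2
  set F : ℕ → ℝ := fun m => sg k s (p ^ m) * sg k z (p ^ m) * q ^ m with hF
  have hF0 : ∀ m, 0 ≤ F m := fun m =>
    mul_nonneg (mul_nonneg (h2 s p m hp hs).1 (h2 z p m hp hz).1) (by positivity)
  have hF1 : ∀ m, F m ≤ d m ^ 2 * q ^ m := by
    intro m
    rw [hF]
    simp only
    rw [pow_two]
    exact mul_le_mul_of_nonneg_right (mul_le_mul (h2 s p m hp hs).2 (h2 z p m hp hz).2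
      (h2 z p m hp hz).1 (by positivity)) (by positivity)
  have hF2 : ∀ m, F m ≤ d m ^ 2 * (1 / 2 : ℝ) ^ m := fun m =>
    (hF1 m).trans (mul_le_mul_of_nonneg_left (pow_le_pow_left₀ hq0.le hqh m) (by positivity))
  have hFs : Summable F := Summable.of_nonneg_of_le hF0 hF2 h5
  have hone : ∀ s' : Fin k → ℝ, sg k s' 1 = 1 := by
    intro s'
    unfold sg
    rw [Nat.finMulAntidiag_one, Finset.sum_singleton]
    simp
  set h : ℝ := sg k s p * sg k z p * q with hh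
  set t : ℝ := ∑' m : ℕ, F (m + 2) with ht
  have hL : Lp k s z p = 1 + h + t := by
    have e1 : Lp k s z p = ∑' m, F m := rfl
    rw [e1, ← hFs.sum_add_tsum_nat_add 2, Finset.sum_range_succ, Finset.sum_range_one]
    have e2 : F 0 = 1 := by
      simp only [hF, pow_zero, hone]
      norm_num
    have e3 : F 1 = h := by
      simp only [hF, pow_one]
      rfl
    rw [e2, e3]
  have ht0 : 0 ≤ t := tsum_nonneg fun m => hF0 _
  have hd2 : Summable (fun m : ℕ => d (m + 2) ^ 2 * (1 / 2 : ℝ) ^ (m + 2)) :=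
    (summable_nat_add_iff 2).2 h5
  have ht1 : t ≤ C1 * q ^ 2 := by
    have e1 : ∀ m, F (m + 2) ≤ (4 * q ^ 2) * (d (m + 2) ^ 2 * (1 / 2 : ℝ) ^ (m + 2)) := by
      intro m
      calc F (m + 2) ≤ d (m + 2) ^ 2 * q ^ (m + 2) := hF1 _
        _ = q ^ 2 * d (m + 2) ^ 2 * q ^ m := by ring
        _ ≤ q ^ 2 * d (m + 2) ^ 2 * (1 / 2 : ℝ) ^ m :=
            mul_le_mul_of_nonneg_left (pow_le_pow_left₀ hq0.le hqh m) (by positivity)
        _ = (4 * q ^ 2) * (d (m + 2) ^ 2 * (1 / 2 : ℝ) ^ (m + 2)) := by ring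
    calc t ≤ ∑' m : ℕ, (4 * q ^ 2) * (d (m + 2) ^ 2 * (1 / 2 : ℝ) ^ (m + 2)) :=
          Summable.tsum_le_tsum e1 ((summable_nat_add_iff 2).2 hFs) (hd2.mul_left _)
      _ = C1 * q ^ 2 := by
          rw [tsum_mul_left, hC1]
          ring
  -- the double product
  set y : Fin k × Fin k → ℝ := fun x => (p : ℝ) ^ (-1 - s x.1 - z x.2) with hy
  have hy01 : ∀ x ∈ (Finset.univ : Finset (Fin k × Fin k)), 0 ≤ y x ∧ y x ≤ q := by
    intro x _
    refine ⟨Real.rpow_nonneg hp0.le _, ?_⟩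
    have e1 : q = (p : ℝ) ^ (-1 : ℝ) := by
      rw [Real.rpow_neg_one, hq, one_div]
    rw [e1]
    apply Real.rpow_le_rpow_of_exponent_le (by linarith)
    linarith [hs x.1, hz x.2]
  obtain ⟨he0, he1⟩ := prod_err (Finset.univ : Finset (Fin k × Fin k)) y q hq0.le (by linarith) hy01
  have hsum : ∑ x : Fin k × Fin k, y x = h := by
    rw [hh, h3 s p hp, h3 z p hp, Fintype.sum_prod_type, Finset.sum_mul_sum, Finset.sum_mul]
    apply Finset.sum_congr rfl
    intro i _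
    rw [Finset.sum_mul]
    apply Finset.sum_congr rfl
    intro j _
    simp only [hy]
    rw [show (-1 - s i - z j : ℝ) = (-s i) + (-z j) + (-1) by ring, Real.rpow_add hp0,
      Real.rpow_add hp0, Real.rpow_neg_one, hq, one_div]
  have hprod : ∏ i, ∏ j, (1 - (p : ℝ) ^ (-1 - s i - z j)) = ∏ x : Fin k × Fin k, (1 - y x) := by
    rw [Fintype.prod_prod_type]
  have hcard : ((Finset.univ : Finset (Fin k × Fin k)).card : ℝ) = K := by
    rw [Finset.card_univ, Fintype.card_prod, Fintype.card_fin, hK]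
    push_cast
    ring
  rw [hcard, hsum] at he1
  rw [hsum] at he0
  have hh0 : 0 ≤ h := by
    rw [← hsum]
    exact Finset.sum_nonneg fun x hx => (hy01 x hx).1
  have hh1 : h ≤ K * q := by
    rw [← hsum, ← hcard]
    calc ∑ x : Fin k × Fin k, y x ≤ ∑ x : Fin k × Fin k, q :=
          Finset.sum_le_sum fun x hx => (hy01 x hx).2
      _ = _ := by rw [Finset.sum_const, nsmul_eq_mul]
  have hR : Rp k s z p = (1 - h + (∏ x : Fin k × Fin k, (1 - y x) - 1 + h)) * (1 + h + t) := by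
    unfold Rp
    rw [hprod, hL]
    ring
  have hfin := final q h t (∏ x : Fin k × Fin k, (1 - y x) - 1 + h) C1 K hq0.le (by linarith) hC1n hKn
    hh0 hh1 ht0 ht1 he0 he1
  rw [hR]
  have hq2 : 0 ≤ q ^ 2 := by positivity
  calc _ ≤ (C1 + K ^ 2 + K * C1 + K ^ 2 * (1 + K + C1)) * q ^ 2 := hfin
    _ ≤ (C1 + K ^ 2 + K * C1 + K ^ 2 * (1 + K + C1) + 1) * q ^ 2 :=
        mul_le_mul_of_nonneg_right (by linarith) hq2
    _ = _ := by
        rw [hq, div_pow, one_pow]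
        ring

end Pool.Agent.T2H98.RT
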