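import Pool.Agent.T2H98.RT.Stm

/-!
# Package LOC2
-/

set_option autoImplicit false

open MeasureTheory Filter Topology Finset

namespace Pool.Agent.T2H98.RT

theorem pLOC2 (hDKP : S_DKP) : S_LOC2 := by
  intro k s z p hk hp hs hz
  obtain ⟨h1, h2, -, h4, h5⟩ := hDKP k hk
  have hp0 : (0 : ℝ) < p := by exact_mod_cast hp.pos
  have hp2 : (2 : ℝ) ≤ p := by exact_mod_cast hp.two_le
  have hqh : 1 / (p : ℝ) ≤ 1 / 2 := one_div_le_one_div_of_le (by norm_num) hp2
  unfold Rp
  apply Tendsto.mul
  · have hcont : Continuous (fun l : ℝ =>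
        ∏ i : Fin k, ∏ j : Fin k, (1 - (p : ℝ) ^ (-1 - l * s i - l * z j))) := by
      apply continuous_finsetProd
      intro i _
      apply continuous_finsetProd
      intro j _
      exact continuous_const.sub ((Real.continuous_const_rpow hp0.ne').comp (by fun_prop))
    have h := (hcont.tendsto 0).mono_left (nhdsWithin_le_nhds (s := Set.Ioi 0))
    convert h using 2
    simp only [zero_mul, sub_zero]
    rw [Finset.prod_const, Finset.prod_const, Finset.card_univ, Fintype.card_fin, ← pow_mul,
      Real.rpow_neg_one, one_div, pow_two]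
  · unfold Lp
    refine tendsto_tsum_of_dominated_convergence
      (bound := fun m : ℕ => ((m + k - 1).choose m : ℝ) ^ 2 * (1 / 2 : ℝ) ^ m) h5 ?_ ?_
    · intro m
      have hcont : Continuous (fun l : ℝ => sg k (fun i => l * s i) (p ^ m) *
          sg k (fun i => l * z i) (p ^ m) * (1 / (p : ℝ)) ^ m) :=
        ((h4 s p m hp).mul (h4 z p m hp)).mul continuous_const
      have h := (hcont.tendsto 0).mono_left (nhdsWithin_le_nhds (s := Set.Ioi 0))
      convert h using 2
      have e1 : (fun i : Fin k => 0 * s i) = 0 := by funext i; simp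
      have e2 : (fun i : Fin k => 0 * z i) = 0 := by funext i; simp
      rw [e1, e2, h1 p m hp, pow_two]
    · filter_upwards [self_mem_nhdsWithin] with l hl m
      have hl' : (0 : ℝ) < l := hl
      have hsl : ∀ i, 0 ≤ l * s i := fun i => (mul_pos hl' (hs i)).le
      have hzl : ∀ i, 0 ≤ l * z i := fun i => (mul_pos hl' (hz i)).le
      obtain ⟨a0, a1⟩ := h2 (fun i => l * s i) p m hp hsl
      obtain ⟨b0, b1⟩ := h2 (fun i => l * z i) p m hp hzl
      rw [Real.norm_eq_abs, abs_of_nonneg (by positivity), pow_two]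
      exact mul_le_mul (mul_le_mul a1 b1 b0 (by positivity))
        (pow_le_pow_left₀ (by positivity) hqh m) (by positivity) (by positivity)

end Pool.Agent.T2H98.RT
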