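import Pool.Agent.T2H98.RT.Stm

set_option autoImplicit false

open MeasureTheory Filter Topology Finset

namespace Pool.Agent.T2H98.RT

namespace MEA

lemma int1 {a : ℝ} (ha : 0 < a) :
    Integrable (fun x : ℝ => Real.exp (-(a * x))) (volume.restrict (Set.Ici 0)) ∧
      ∫ x, Real.exp (-(a * x)) ∂(volume.restrict (Set.Ici (0:ℝ))) = 1 / a := by
  have h1 : IntegrableOn (fun x : ℝ => Real.exp (-(a * x))) (Set.Ioi 0) := by
    have := exp_neg_integrableOn_Ioi 0 ha
    simpa [neg_mul] using this
  constructor
  · exact (integrableOn_Ici_iff_integrableOn_Ioi).2 h1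
  · rw [integral_Ici_eq_integral_Ioi]
    have := integral_exp_mul_Ioi (show -a < 0 by linarith) 0
    simp only [mul_zero, Real.exp_zero] at this
    have h2 : (fun x : ℝ => Real.exp (-(a * x))) = fun x => Real.exp (-a * x) := by
      ext x; rw [neg_mul]
    rw [h2, this]
    field_simp

lemma orth_eq (k : ℕ) : orth k = Set.pi Set.univ (fun _ : Fin k => Set.pi Set.univ
    (fun _ : Fin k => Set.Ici (0:ℝ))) := by
  ext x; simp only [orth, Set.mem_setOf_eq, Set.mem_pi, Set.mem_univ, true_imp_iff, Set.mem_Ici]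

lemma vol_eq (k : ℕ) : (volume : Measure (Fin k → Fin k → ℝ)).restrict (orth k) =
    Measure.pi fun _ : Fin k => Measure.pi fun _ : Fin k => (volume : Measure ℝ).restrict (Set.Ici 0) := by
  rw [orth_eq, volume_pi, Measure.restrict_pi_pi]
  congr 1
  ext1 i
  rw [volume_pi, Measure.restrict_pi_pi]

end MEA

open MEA in
theorem pMEA : S_MEA := by
  intro k s z hs hz
  have he : (fun x : Fin k → Fin k → ℝ =>
      Real.exp (-(∑ i, s i * ∑ j, x i j + ∑ j, z j * ∑ i, x i j))) =
      fun x => ∏ i, ∏ j, Real.exp (-((s i + z j) * x i j)) := by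
    ext x
    simp only [← Real.exp_sum]
    congr 1
    simp only [Finset.mul_sum, Finset.sum_neg_distrib, add_mul, Finset.sum_add_distrib]
    rw [Finset.sum_comm (f := fun j i => z j * x i j)]
  rw [he]
  rw [vol_eq]
  constructor
  · refine Integrable.fintype_prod (f := fun i (y : Fin k → ℝ) => ∏ j, Real.exp (-((s i + z j) * y j)))
      fun i => ?_
    exact Integrable.fintype_prod (f := fun j (y : ℝ) => Real.exp (-((s i + z j) * y)))
      fun j => (int1 (by linarith [hs i, hz j])).1
  · rw [integral_fintype_prod_eq_prod (f := fun i (y : Fin k → ℝ) =>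
      ∏ j, Real.exp (-((s i + z j) * y j)))]
    refine Finset.prod_congr rfl fun i _ => ?_
    rw [integral_fintype_prod_eq_prod (f := fun j (y : ℝ) => Real.exp (-((s i + z j) * y)))]
    exact Finset.prod_congr rfl fun j _ => (int1 (by linarith [hs i, hz j])).2

end Pool.Agent.T2H98.RT
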