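import Pool.Agent.T2H98.RT.Stm

/-!
# Package MEAN
-/

set_option autoImplicit false

open MeasureTheory Filter Topology Finset

namespace Pool.Agent.T2H98.RT

namespace MEAN

theorem int_tw (hMUL : S_MUL) (z : ℂ) (m n : ℕ) :
    Integrable (fun θ : ℕ → ℝ => z * (tw θ m * (starRingEnd ℂ) (tw θ n))) P := by
  obtain ⟨-, hn, -, hc⟩ := hMUL
  apply Integrable.const_mul
  apply Integrable.of_bound (C := 1)
  · apply Continuous.aestronglyMeasurable
    exact (hc m).mul (Complex.continuous_conj.comp (hc n))
  · apply Filter.Eventually.of_forall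
    intro θ
    rw [norm_mul, RCLike.norm_conj, hn, hn, one_mul]

end MEAN

open MEAN in
theorem pMEAN (hMUL : S_MUL) (hOR : S_OR) : S_MEAN := by
  intro c M t
  set a : ℕ → ℂ := fun m => (c m : ℂ) * Complex.exp (-(t * Real.log m * Complex.I)) with ha
  have haa : ∀ m, a m * (starRingEnd ℂ) (a m) = ((c m ^ 2 : ℝ) : ℂ) := by
    intro m
    rw [Complex.mul_conj, Complex.normSq_eq_norm_sq, ha]
    simp only
    have e1 : -((t : ℂ) * (Real.log m : ℂ) * Complex.I)
        = ((-(t * Real.log m) : ℝ) : ℂ) * Complex.I := by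
      push_cast
      ring
    rw [norm_mul, e1, Complex.norm_exp_ofReal_mul_I, mul_one, Complex.norm_real, Real.norm_eq_abs,
      sq_abs]
  have hD : ∀ θ : ℕ → ℝ, ((‖D θ c M t‖ ^ 2 : ℝ) : ℂ) = ∑ m ∈ Icc 1 M, ∑ n ∈ Icc 1 M,
      (a m * (starRingEnd ℂ) (a n)) * (tw θ m * (starRingEnd ℂ) (tw θ n)) := by
    intro θ
    have h1 : ((‖D θ c M t‖ ^ 2 : ℝ) : ℂ) = D θ c M t * (starRingEnd ℂ) (D θ c M t) := by
      rw [Complex.mul_conj, Complex.normSq_eq_norm_sq]
    have h2 : D θ c M t = ∑ m ∈ Icc 1 M, a m * tw θ m := by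
      unfold D
      apply Finset.sum_congr rfl
      intro m _
      rw [ha]
      ring
    rw [h1, h2, map_sum, Finset.sum_mul_sum]
    apply Finset.sum_congr rfl
    intro m _
    apply Finset.sum_congr rfl
    intro n _
    rw [map_mul]
    ring
  have h1 : ((∫ θ, ‖D θ c M t‖ ^ 2 ∂P : ℝ) : ℂ) = ((∑ m ∈ Icc 1 M, c m ^ 2 : ℝ) : ℂ) := by
    rw [← integral_complex_ofReal]
    simp_rw [hD]
    rw [integral_finset_sum]
    · rw [Complex.ofReal_sum]
      apply Finset.sum_congr rfl
      intro m hm
      rw [integral_finset_sum]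
      · have hm1 : m ≠ 0 := by
          have := (Finset.mem_Icc.mp hm).1
          omega
        calc ∑ n ∈ Icc 1 M, ∫ θ, a m * (starRingEnd ℂ) (a n) *
              (tw θ m * (starRingEnd ℂ) (tw θ n)) ∂P
            = ∑ n ∈ Icc 1 M, (if m = n then a m * (starRingEnd ℂ) (a n) else 0) := by
              apply Finset.sum_congr rfl
              intro n hn
              have hn1 : n ≠ 0 := by
                have := (Finset.mem_Icc.mp hn).1
                omega
              rw [integral_const_mul, hOR m n hm1 hn1]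
              split_ifs
              · rw [mul_one]
              · rw [mul_zero]
          _ = ((c m ^ 2 : ℝ) : ℂ) := by
              rw [Finset.sum_ite_eq, if_pos hm, haa]
      · intro n _
        exact int_tw hMUL _ m n
    · intro m _
      apply integrable_finset_sum
      intro n _
      exact int_tw hMUL _ m n
  exact_mod_cast h1

end Pool.Agent.T2H98.RT
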