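import Pool.Agent.T2H98.RT.Stm

set_option autoImplicit false

open MeasureTheory Filter Topology Finset
open scoped ENNReal

namespace Pool.Agent.T2H98.RT

namespace MU1

/-- the condition on the pairs -/
def cond (k : ℕ) (q : (Fin k → ℕ) × (Fin k → ℕ)) : Prop :=
  (∀ i, q.1 i ≠ 0) ∧ (∀ i, q.2 i ≠ 0) ∧ ∏ i, q.1 i = ∏ i, q.2 i

instance (k : ℕ) (q : (Fin k → ℕ) × (Fin k → ℕ)) : Decidable (cond k q) := by unfold cond; infer_instance

/-- the point -/
noncomputable def pt (k : ℕ) (q : (Fin k → ℕ) × (Fin k → ℕ)) : Fin k ⊕ Fin k → ℝ :=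
  fun a => Real.log (Sum.elim q.1 q.2 a : ℕ)

/-- the exponential -/
noncomputable def ex (k : ℕ) (s : Fin k ⊕ Fin k → ℝ) (x : Fin k ⊕ Fin k → ℝ) : ℝ :=
  Real.exp (-∑ a, s a * x a)

theorem ex_cont (k : ℕ) (s : Fin k ⊕ Fin k → ℝ) : Continuous (ex k s) := by
  unfold ex
  fun_prop

theorem mem_iff {k m : ℕ} (_hk : 1 ≤ k) (q : (Fin k → ℕ) × (Fin k → ℕ)) :
    (q.1 ∈ Nat.finMulAntidiag k m ∧ q.2 ∈ Nat.finMulAntidiag k m) ↔ (cond k q ∧ ∏ i, q.1 i = m) := by
  rw [Nat.mem_finMulAntidiag, Nat.mem_finMulAntidiag]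
  unfold cond
  constructor
  · rintro ⟨⟨h1, h2⟩, h3, _⟩
    refine ⟨⟨?_, ?_, h1.trans h3.symm⟩, h1⟩
    · intro i hi
      apply h2
      rw [← h1]
      exact Finset.prod_eq_zero (Finset.mem_univ i) hi
    · intro i hi
      apply h2
      rw [← h3]
      exact Finset.prod_eq_zero (Finset.mem_univ i) hi
  · rintro ⟨⟨h1, h2, h3⟩, h4⟩
    have h5 : m ≠ 0 := by
      rw [← h4]
      exact Finset.prod_ne_zero_iff.2 fun i _ => h1 i
    exact ⟨⟨h4, h5⟩, h3.symm.trans h4, h5⟩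

theorem ex_pt {k : ℕ} (s : Fin k ⊕ Fin k → ℝ) (q : (Fin k → ℕ) × (Fin k → ℕ)) (h1 : ∀ i, q.1 i ≠ 0)
    (h2 : ∀ i, q.2 i ≠ 0) :
    ex k s (pt k q) = (∏ i, (q.1 i : ℝ) ^ (-s (Sum.inl i))) * ∏ i, (q.2 i : ℝ) ^ (-s (Sum.inr i)) := by
  unfold ex pt
  rw [Fintype.sum_sum_type, neg_add, Real.exp_add, ← Finset.sum_neg_distrib, ← Finset.sum_neg_distrib,
    Real.exp_sum, Real.exp_sum]
  congr 1
  · refine Finset.prod_congr rfl fun i _ => ?_
    have h : (0 : ℝ) < q.1 i := by exact_mod_cast Nat.pos_of_ne_zero (h1 i)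
    rw [Real.rpow_def_of_pos h, Sum.elim_inl]
    congr 1
    ring
  · refine Finset.prod_congr rfl fun i _ => ?_
    have h : (0 : ℝ) < q.2 i := by exact_mod_cast Nat.pos_of_ne_zero (h2 i)
    rw [Real.rpow_def_of_pos h, Sum.elim_inr]
    congr 1
    ring

/-- the key computation with values in `[0, ∞]` -/
theorem lint (k : ℕ) (hk : 1 ≤ k) (s : Fin k ⊕ Fin k → ℝ) :
    ∫⁻ x, ENNReal.ofReal (ex k s x) ∂(mu k) =
      ∑' m : ℕ, ENNReal.ofReal (sg k (fun i => s (Sum.inl i)) m * sg k (fun i => s (Sum.inr i)) m / m) := by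
  have hmeas : Measurable fun x => ENNReal.ofReal (ex k s x) :=
    (ex_cont k s).measurable.ennreal_ofReal
  have h1 : ∫⁻ x, ENNReal.ofReal (ex k s x) ∂(mu k) = ∑' q : (Fin k → ℕ) × (Fin k → ℕ),
      (if cond k q then ENNReal.ofReal (1 / ∏ i, (q.1 i : ℝ)) else 0) * ENNReal.ofReal (ex k s (pt k q)) := by
    unfold mu
    rw [lintegral_sum_measure]
    refine tsum_congr fun q => ?_
    rw [lintegral_smul_measure, lintegral_dirac' _ hmeas]
    rfl
  rw [h1]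
  have h2 : ∀ q : (Fin k → ℕ) × (Fin k → ℕ),
      (if cond k q then ENNReal.ofReal (1 / ∏ i, (q.1 i : ℝ)) else 0) * ENNReal.ofReal (ex k s (pt k q)) =
      ∑' m : ℕ, if cond k q ∧ ∏ i, q.1 i = m then
        ENNReal.ofReal (1 / (m : ℝ) * ex k s (pt k q)) else 0 := by
    intro q
    by_cases hc : cond k q
    · rw [if_pos hc, tsum_eq_single (∏ i, q.1 i)]
      · rw [if_pos ⟨hc, rfl⟩, ENNReal.ofReal_mul (by positivity), Nat.cast_prod]
      · intro m hm
        rw [if_neg]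
        rintro ⟨_, h⟩
        exact hm h.symm
    · rw [if_neg hc, zero_mul]
      symm
      rw [ENNReal.tsum_eq_zero]
      intro m
      rw [if_neg]
      rintro ⟨h, _⟩
      exact hc h
  simp_rw [h2]
  rw [ENNReal.tsum_comm]
  refine tsum_congr fun m => ?_
  have h3 : ∀ q : (Fin k → ℕ) × (Fin k → ℕ), q ∉ Nat.finMulAntidiag k m ×ˢ Nat.finMulAntidiag k m →
      (if cond k q ∧ ∏ i, q.1 i = m then ENNReal.ofReal (1 / (m : ℝ) * ex k s (pt k q)) else 0) = 0 := by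
    intro q hq
    rw [if_neg]
    intro h
    rw [← mem_iff hk] at h
    exact hq (Finset.mem_product.2 h)
  rw [tsum_eq_sum (s := Nat.finMulAntidiag k m ×ˢ Nat.finMulAntidiag k m) (fun q hq => h3 q hq)]
  have h4 : ∀ q ∈ Nat.finMulAntidiag k m ×ˢ Nat.finMulAntidiag k m,
      (if cond k q ∧ ∏ i, q.1 i = m then ENNReal.ofReal (1 / (m : ℝ) * ex k s (pt k q)) else 0) =
      ENNReal.ofReal (1 / (m : ℝ) * ((∏ i, (q.1 i : ℝ) ^ (-s (Sum.inl i))) *
        ∏ i, (q.2 i : ℝ) ^ (-s (Sum.inr i)))) := by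
    intro q hq
    have hq2 := (mem_iff hk q).1 (Finset.mem_product.1 hq)
    rw [if_pos hq2, ex_pt s q hq2.1.1 hq2.1.2.1]
  rw [Finset.sum_congr rfl h4, ← ENNReal.ofReal_sum_of_nonneg]
  · congr 1
    unfold sg
    rw [Finset.sum_mul_sum, ← Finset.sum_product', Finset.sum_div]
    refine Finset.sum_congr rfl fun q _ => ?_
    ring
  · intro q _
    refine mul_nonneg (by positivity) (mul_nonneg ?_ ?_)
    · exact Finset.prod_nonneg fun i _ => Real.rpow_nonneg (Nat.cast_nonneg _) _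
    · exact Finset.prod_nonneg fun i _ => Real.rpow_nonneg (Nat.cast_nonneg _) _

theorem sg_nonneg (k : ℕ) (s : Fin k → ℝ) (m : ℕ) : 0 ≤ sg k s m := by
  unfold sg
  exact Finset.sum_nonneg fun v _ => Finset.prod_nonneg fun i _ => Real.rpow_nonneg (Nat.cast_nonneg _) _

end MU1

open MU1 in
theorem pMU1 (hEUL : S_EUL) : S_MU1 := by
  intro k s hk hs
  have hsum := (hEUL k (fun i => s (Sum.inl i)) (fun i => s (Sum.inr i)) hk (fun i => hs _) (fun i => hs _)).1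
  have hnn : ∀ m : ℕ, 0 ≤ sg k (fun i => s (Sum.inl i)) m * sg k (fun i => s (Sum.inr i)) m / m :=
    fun m => div_nonneg (mul_nonneg (sg_nonneg _ _ _) (sg_nonneg _ _ _)) (Nat.cast_nonneg _)
  have hl := lint k hk s
  rw [← ENNReal.ofReal_tsum_of_nonneg hnn hsum] at hl
  have hexnn : ∀ x, 0 ≤ ex k s x := fun x => (Real.exp_pos _).le
  have hint : Integrable (ex k s) (mu k) := by
    refine ⟨(ex_cont k s).aestronglyMeasurable, ?_⟩
    rw [hasFiniteIntegral_iff_ofReal (Eventually.of_forall hexnn), hl]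
    exact ENNReal.ofReal_lt_top
  refine ⟨?_, hint, ?_⟩
  · unfold mu
    rw [Measure.ae_sum_iff]
    intro q
    refine Measure.ae_smul_measure ?_ _
    have hms : MeasurableSet {x : Fin k ⊕ Fin k → ℝ | ∀ a, 0 ≤ x a} := by
      have : {x : Fin k ⊕ Fin k → ℝ | ∀ a, 0 ≤ x a} = ⋂ a, {x : Fin k ⊕ Fin k → ℝ | 0 ≤ x a} := by
        ext x; simp
      rw [this]
      exact MeasurableSet.iInter fun a => measurableSet_le measurable_const (measurable_pi_apply a)
    rw [ae_dirac_iff hms]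
    intro a
    exact Real.log_natCast_nonneg _
  · show ∫ x, ex k s x ∂(mu k) = _
    rw [integral_eq_lintegral_of_nonneg_ae (Eventually.of_forall hexnn) (ex_cont k s).aestronglyMeasurable, hl,
      ENNReal.toReal_ofReal (tsum_nonneg hnn)]

end Pool.Agent.T2H98.RT
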