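import Pool.Agent.T2H98.RT.Stm

/-!
# Package MU2
-/

set_option autoImplicit false

open MeasureTheory Filter Topology Finset

namespace Pool.Agent.T2H98.RT

namespace MU2

/-- the box of tuples -/
def G (k N : ℕ) : Finset (Fin k → ℕ) := Fintype.piFinset fun _ : Fin k => Icc 1 N

theorem mem_G {k N : ℕ} {v : Fin k → ℕ} : v ∈ G k N ↔ ∀ i, 1 ≤ v i ∧ v i ≤ N := by
  unfold G
  rw [Fintype.mem_piFinset]
  simp only [mem_Icc]

theorem sum_eq (k N : ℕ) :
    ∑ v ∈ G k N, ∑ w ∈ G k N, (if ∏ i, v i = ∏ i, w i then 1 / ∏ i, (v i : ℝ) else 0) = A k N := by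
  unfold A
  have h1 : ∀ v ∈ G k N, ∏ i, v i ∈ Icc 1 (N ^ k) := by
    intro v hv
    rw [mem_G] at hv
    rw [mem_Icc]
    refine ⟨Nat.one_le_iff_ne_zero.2 (Finset.prod_ne_zero_iff.2 fun i _ => ?_), ?_⟩
    · have := (hv i).1
      omega
    · have := Finset.prod_le_pow_card (Finset.univ : Finset (Fin k)) v N fun i _ => (hv i).2
      rwa [Finset.card_univ, Fintype.card_fin] at this
  have hb : ∀ m, (b k N m : ℝ) = ∑ w ∈ G k N, (if m = ∏ i, w i then (1 : ℝ) else 0) := by
    intro m
    unfold b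
    rw [Finset.card_filter]
    push_cast
    unfold G
    apply Finset.sum_congr rfl
    intro w _
    by_cases h : ∏ i, w i = m
    · rw [if_pos h, if_pos h.symm]
    · rw [if_neg h, if_neg (Ne.symm h)]
  have h2 : ∀ v ∈ G k N, ∑ w ∈ G k N, (if ∏ i, v i = ∏ i, w i then 1 / ∏ i, (v i : ℝ) else 0) =
      (b k N (∏ i, v i) : ℝ) / ((∏ i, v i : ℕ) : ℝ) := by
    intro v _
    rw [hb, Finset.sum_div]
    apply Finset.sum_congr rfl
    intro w _
    push_cast
    split_ifs
    · rfl
    · simp
  rw [Finset.sum_congr rfl h2, ← Finset.sum_fiberwise_of_maps_to h1]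
  apply Finset.sum_congr rfl
  intro m _
  have h3 : ∀ v ∈ (G k N).filter (fun v => ∏ i, v i = m),
      (b k N (∏ i, v i) : ℝ) / ((∏ i, v i : ℕ) : ℝ) = (b k N m : ℝ) / m := by
    intro v hv
    rw [(Finset.mem_filter.1 hv).2]
  rw [Finset.sum_congr rfl h3, Finset.sum_const, nsmul_eq_mul]
  have h4 : (((G k N).filter (fun v => ∏ i, v i = m)).card : ℝ) = b k N m := rfl
  rw [h4]
  ring

end MU2

open MU2 in
theorem pMU2 : S_MU2 := by
  intro k N hk hN
  classical
  set E : Set (Fin k ⊕ Fin k → ℝ) := {x | ∀ a, x a ≤ Real.log N} with hE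
  have hEm : MeasurableSet E := by
    have : E = ⋂ a, {x | x a ≤ Real.log N} := by
      ext x
      simp [hE]
    rw [this]
    exact MeasurableSet.iInter fun a => measurableSet_le (measurable_pi_apply a) measurable_const
  have hN0 : (0 : ℝ) < N := by exact_mod_cast hN
  unfold mu
  rw [Measure.sum_apply _ hEm]
  set F : Finset ((Fin k → ℕ) × (Fin k → ℕ)) := G k N ×ˢ G k N with hF
  have hterm : ∀ q : (Fin k → ℕ) × (Fin k → ℕ),
      ((if (∀ i, q.1 i ≠ 0) ∧ (∀ i, q.2 i ≠ 0) ∧ ∏ i, q.1 i = ∏ i, q.2 i then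
        ENNReal.ofReal (1 / ∏ i, (q.1 i : ℝ)) else 0) •
        Measure.dirac (fun a : Fin k ⊕ Fin k => Real.log (Sum.elim q.1 q.2 a : ℕ))) E =
      if q ∈ F then (if ∏ i, q.1 i = ∏ i, q.2 i then ENNReal.ofReal (1 / ∏ i, (q.1 i : ℝ)) else 0)
        else 0 := by
    intro q
    rw [Measure.smul_apply, Measure.dirac_apply' _ hEm, smul_eq_mul]
    by_cases hq : q ∈ F
    · rw [if_pos hq]
      rw [hF, Finset.mem_product, mem_G, mem_G] at hq
      have h1 : ∀ i, q.1 i ≠ 0 := fun i => by have := (hq.1 i).1; omega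
      have h2 : ∀ i, q.2 i ≠ 0 := fun i => by have := (hq.2 i).1; omega
      have hmem : (fun a : Fin k ⊕ Fin k => Real.log (Sum.elim q.1 q.2 a : ℕ)) ∈ E := by
        intro a
        rcases a with i | i
        · apply Real.log_le_log
          · have := (hq.1 i).1
            simp only [Sum.elim_inl]
            exact_mod_cast this
          · simp only [Sum.elim_inl]
            exact_mod_cast (hq.1 i).2
        · apply Real.log_le_log
          · have := (hq.2 i).1
            simp only [Sum.elim_inr]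
            exact_mod_cast this
          · simp only [Sum.elim_inr]
            exact_mod_cast (hq.2 i).2
      rw [Set.indicator_of_mem hmem]
      simp only [h1, h2, ne_eq, not_false_eq_true, implies_true, true_and, Pi.one_apply, mul_one]
    · rw [if_neg hq]
      by_cases hc : (∀ i, q.1 i ≠ 0) ∧ (∀ i, q.2 i ≠ 0) ∧ ∏ i, q.1 i = ∏ i, q.2 i
      · have hmem : (fun a : Fin k ⊕ Fin k => Real.log (Sum.elim q.1 q.2 a : ℕ)) ∉ E := by
          intro hmem
          apply hq
          rw [hF, Finset.mem_product, mem_G, mem_G]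
          constructor
          · intro i
            have h1 := hmem (Sum.inl i)
            simp only [Sum.elim_inl] at h1
            have h0 : (0 : ℝ) < (q.1 i : ℝ) := by exact_mod_cast Nat.pos_of_ne_zero (hc.1 i)
            rw [Real.log_le_log_iff h0 hN0] at h1
            exact ⟨Nat.pos_of_ne_zero (hc.1 i), by exact_mod_cast h1⟩
          · intro i
            have h1 := hmem (Sum.inr i)
            simp only [Sum.elim_inr] at h1
            have h0 : (0 : ℝ) < (q.2 i : ℝ) := by exact_mod_cast Nat.pos_of_ne_zero (hc.2.1 i)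
            rw [Real.log_le_log_iff h0 hN0] at h1
            exact ⟨Nat.pos_of_ne_zero (hc.2.1 i), by exact_mod_cast h1⟩
        rw [Set.indicator_of_notMem hmem, mul_zero]
      · rw [if_neg hc, zero_mul]
  rw [tsum_congr hterm, tsum_eq_sum (s := F) (fun q hq => if_neg hq)]
  rw [ENNReal.toReal_sum]
  · rw [← sum_eq, hF, Finset.sum_product]
    apply Finset.sum_congr rfl
    intro v hv
    apply Finset.sum_congr rfl
    intro w hw
    have hm : (v, w) ∈ G k N ×ˢ G k N := Finset.mem_product.2 ⟨hv, hw⟩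
    rw [if_pos hm]
    simp only
    split_ifs
    · rw [ENNReal.toReal_ofReal]
      exact div_nonneg zero_le_one (Finset.prod_nonneg fun i _ => by positivity)
    · rfl
  · intro q _
    split_ifs <;> first | exact ENNReal.ofReal_ne_top | exact ENNReal.zero_ne_top

end Pool.Agent.T2H98.RT
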