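import Pool.Agent.T2H98.RT.Stm

/-! # Package MUL -/

set_option autoImplicit false

open MeasureTheory Filter Topology Finset

namespace Pool.Agent.T2H98.RT

namespace MUL

lemma ph_eq (θ : ℕ → ℝ) {n : ℕ} {S : Finset ℕ} (hS : n.primeFactors ⊆ S) :
    ph θ n = ∑ p ∈ S, (n.factorization p : ℝ) * θ p := by
  unfold ph
  refine Finset.sum_subset hS fun p _ hp => ?_
  rw [← Nat.support_factorization, Finsupp.notMem_support_iff] at hp
  rw [hp, Nat.cast_zero, zero_mul]

lemma ph_mul (θ : ℕ → ℝ) {m n : ℕ} (hm : m ≠ 0) (hn : n ≠ 0) :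
    ph θ (m * n) = ph θ m + ph θ n := by
  have hmn : m * n ≠ 0 := mul_ne_zero hm hn
  rw [ph_eq θ (Finset.Subset.refl (m * n).primeFactors),
    ph_eq θ (Nat.primeFactors_mono (dvd_mul_right m n) hmn),
    ph_eq θ (Nat.primeFactors_mono (dvd_mul_left n m) hmn), ← Finset.sum_add_distrib]
  refine Finset.sum_congr rfl fun p _ => ?_
  rw [Nat.factorization_mul hm hn, Finsupp.add_apply]
  push_cast
  ring

lemma ph_cont (n : ℕ) : Continuous fun θ : ℕ → ℝ => ph θ n := by
  unfold ph
  exact continuous_finsetSum _ fun p _ => continuous_const.mul (continuous_apply p)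

end MUL

theorem pMUL : S_MUL := by
  refine ⟨?_, ?_, ?_, ?_⟩
  · intro θ m n hm hn
    unfold tw
    rw [← Complex.exp_add, MUL.ph_mul θ hm hn]
    congr 1
    push_cast
    ring
  · intro θ n
    unfold tw
    have := Complex.norm_exp_ofReal_mul_I (2 * Real.pi * ph θ n)
    push_cast at this
    exact this
  · intro θ
    simp [tw, ph]
  · intro n
    unfold tw
    exact Complex.continuous_exp.comp
      ((continuous_const.mul (Complex.continuous_ofReal.comp (MUL.ph_cont n))).mul
        continuous_const)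

end Pool.Agent.T2H98.RT
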