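import Pool.Agent.T2H98.RT.Stm

/-! # Package NU -/

set_option autoImplicit false

open MeasureTheory Filter Topology Finset

namespace Pool.Agent.T2H98.RT

namespace NU

lemma rc_cont (k : ℕ) : Continuous (rc k) := by
  refine continuous_pi fun a => ?_
  rcases a with i | j
  · show Continuous fun x : Fin k → Fin k → ℝ => ∑ j, x i j
    exact continuous_finsetSum _ fun j _ => by fun_prop
  · show Continuous fun x : Fin k → Fin k → ℝ => ∑ i, x i j
    exact continuous_finsetSum _ fun i _ => by fun_prop

lemma orth_meas (k : ℕ) : MeasurableSet (orth k) := by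
  have e : orth k = ⋂ i, ⋂ j, {x : Fin k → Fin k → ℝ | 0 ≤ x i j} := by
    ext x
    simp [orth]
  rw [e]
  refine (isClosed_iInter fun i => isClosed_iInter fun j => ?_).measurableSet
  exact isClosed_le continuous_const (by fun_prop)

lemma expo (k : ℕ) (s : Fin k ⊕ Fin k → ℝ) (x : Fin k → Fin k → ℝ) :
    ∑ a, s a * rc k x a =
      ∑ i, s (Sum.inl i) * ∑ j, x i j + ∑ j, s (Sum.inr j) * ∑ i, x i j := by
  rw [Fintype.sum_sum_type]
  rfl

lemma box_meas (k : ℕ) : MeasurableSet {x : Fin k ⊕ Fin k → ℝ | ∀ a, x a ≤ 1} := by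
  have e : {x : Fin k ⊕ Fin k → ℝ | ∀ a, x a ≤ 1} = ⋂ a, {x | x a ≤ 1} := by
    ext x; simp
  rw [e]
  exact (isClosed_iInter fun a => isClosed_le (continuous_apply a) continuous_const).measurableSet

end NU

theorem pNU (hMEA : S_MEA) (hNUL : S_NUL) (hAKP : S_AKP) : S_NU := by
  intro k hk
  have ha := hAKP k hk
  have hrc := (NU.rc_cont k).measurable
  refine ⟨?_, ?_, ?_, ?_⟩
  · unfold nu
    refine Measure.ae_smul_measure ?_ _
    have hms : MeasurableSet {x : Fin k ⊕ Fin k → ℝ | ∀ a, 0 ≤ x a} := by
      have e : {x : Fin k ⊕ Fin k → ℝ | ∀ a, 0 ≤ x a} = ⋂ a, {x | 0 ≤ x a} := by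
        ext x; simp
      rw [e]
      exact (isClosed_iInter fun a =>
        isClosed_le continuous_const (continuous_apply a)).measurableSet
    rw [ae_map_iff hrc.aemeasurable hms, ae_restrict_iff' (NU.orth_meas k)]
    refine Filter.Eventually.of_forall fun x hx a => ?_
    rcases a with i | j
    · show 0 ≤ ∑ j, x i j
      exact Finset.sum_nonneg fun j _ => hx i j
    · show 0 ≤ ∑ i, x i j
      exact Finset.sum_nonneg fun i _ => hx i j
  · intro s hs
    obtain ⟨h1, h2⟩ := hMEA k (fun i => s (Sum.inl i)) (fun i => s (Sum.inr i))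
      (fun i => hs _) (fun i => hs _)
    have hc : Continuous fun x : Fin k ⊕ Fin k → ℝ => Real.exp (-∑ a, s a * x a) :=
      Real.continuous_exp.comp (continuous_finsetSum _ fun a _ =>
        continuous_const.mul (continuous_apply a)).neg
    have e : ∀ x : Fin k → Fin k → ℝ, Real.exp (-∑ a, s a * rc k x a) =
        Real.exp (-(∑ i, s (Sum.inl i) * ∑ j, x i j + ∑ j, s (Sum.inr j) * ∑ i, x i j)) := by
      intro x
      rw [NU.expo]
    constructor
    · unfold nu
      refine Integrable.smul_measure ?_ ENNReal.ofReal_ne_top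
      rw [integrable_map_measure hc.aestronglyMeasurable hrc.aemeasurable]
      refine h1.congr (Filter.Eventually.of_forall fun x => ?_)
      exact (e x).symm
    · unfold nu
      rw [integral_smul_measure, integral_map hrc.aemeasurable hc.aestronglyMeasurable,
        ENNReal.toReal_ofReal ha.le, smul_eq_mul, ← h2]
      congr 1
      exact integral_congr_ae (Filter.Eventually.of_forall fun x => e x)
  · intro a
    unfold nu
    have hms : MeasurableSet {x : Fin k ⊕ Fin k → ℝ | x a = 1} :=
      (isClosed_eq (continuous_apply a) continuous_const).measurableSet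
    rw [Measure.smul_apply, Measure.map_apply hrc hms]
    have h0 : (volume.restrict (orth k)) (rc k ⁻¹' {x | x a = 1}) = 0 :=
      Measure.absolutelyContinuous_of_le Measure.restrict_le_self (hNUL k a)
    rw [h0, smul_zero]
  · unfold nu gam
    rw [Measure.smul_apply, Measure.map_apply hrc (NU.box_meas k),
      Measure.restrict_apply (hrc (NU.box_meas k)), smul_eq_mul, ENNReal.toReal_mul,
      ENNReal.toReal_ofReal ha.le]
    have e : rc k ⁻¹' {x : Fin k ⊕ Fin k → ℝ | ∀ a, x a ≤ 1} ∩ orth k = polyt k := by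
      ext x
      simp only [Set.mem_inter_iff, Set.mem_preimage, Set.mem_ofPred_eq, orth, polyt]
      constructor
      · rintro ⟨h1, h2⟩
        exact ⟨h2, fun i => h1 (Sum.inl i), fun j => h1 (Sum.inr j)⟩
      · rintro ⟨h1, h2, h3⟩
        refine ⟨fun a => ?_, h1⟩
        rcases a with i | j
        · exact h2 i
        · exact h3 j
    rw [e]

end Pool.Agent.T2H98.RT
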