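import Pool.Agent.T2H98.RT.Stm

set_option autoImplicit false

open MeasureTheory Filter Topology Finset

namespace Pool.Agent.T2H98.RT

theorem pNUL : S_NUL := by
  intro k a
  let s : AffineSubspace ℝ (Fin k → Fin k → ℝ) :=
    { carrier := {x | rc k x a = 1}
      smul_vsub_vadd_mem' := by
        intro c p1 p2 p3 h1 h2 h3
        rcases a with i | i
        · simp only [rc, Sum.elim_inl, Set.mem_setOf_eq] at h1 h2 h3 ⊢
          simp only [vsub_eq_sub, vadd_eq_add, Pi.add_apply, Pi.smul_apply, Pi.sub_apply,
            smul_eq_mul, Finset.sum_add_distrib, ← Finset.mul_sum, Finset.sum_sub_distrib]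
          rw [h1, h2, h3]; ring
        · simp only [rc, Sum.elim_inr, Set.mem_setOf_eq] at h1 h2 h3 ⊢
          simp only [vsub_eq_sub, vadd_eq_add, Pi.add_apply, Pi.smul_apply, Pi.sub_apply,
            smul_eq_mul, Finset.sum_add_distrib, ← Finset.mul_sum, Finset.sum_sub_distrib]
          rw [h1, h2, h3]; ring }
  have hs : s ≠ ⊤ := by
    intro h
    have h0 : (0 : Fin k → Fin k → ℝ) ∈ s := by rw [h]; exact AffineSubspace.mem_top _ _ _
    have h1 : rc k 0 a = 1 := h0
    rcases a with i | i
    · simp [rc] at h1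
    · simp [rc] at h1
  exact Measure.addHaar_affineSubspace volume s hs

end Pool.Agent.T2H98.RT
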