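import Pool.Agent.T2H98.RT.Stm

/-!
# Package PLIM
-/

set_option autoImplicit false

open MeasureTheory Filter Topology Finset

namespace Pool.Agent.T2H98.RT

theorem pPLIM (hLOC1 : S_LOC1) (hLOC2 : S_LOC2) : S_PLIM := by
  intro k s z hk hs hz
  obtain ⟨C, hC, hb⟩ := hLOC1 k hk
  have hsum : Summable (fun p : Nat.Primes => C / (p : ℝ) ^ 2) := by
    have h1 : Summable (fun n : ℕ => C / (n : ℝ) ^ 2) := by
      have h2 : Summable (fun n : ℕ => 1 / (n : ℝ) ^ 2) :=
        Real.summable_one_div_nat_pow.2 one_lt_two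
      refine (h2.mul_left C).congr fun n => ?_
      ring
    exact h1.comp_injective (i := fun p : Nat.Primes => (p : ℕ)) Subtype.val_injective
  have h := tendsto_tprod_one_add_of_dominated_convergence (𝓕 := 𝓝[>] (0 : ℝ))
    (f := fun (l : ℝ) (p : Nat.Primes) => Rp k (fun i => l * s i) (fun i => l * z i) p - 1)
    (g := fun p : Nat.Primes => (1 - 1 / (p : ℝ)) ^ (k ^ 2) *
      ∑' m : ℕ, ((m + k - 1).choose m : ℝ) ^ 2 * (1 / (p : ℝ)) ^ m - 1)
    (bound := fun p : Nat.Primes => C / (p : ℝ) ^ 2) hsum ?_ ?_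
  · have e1 : ∀ l : ℝ, ∏' p : Nat.Primes, (1 + (Rp k (fun i => l * s i) (fun i => l * z i) p - 1)) =
        ∏' p : Nat.Primes, Rp k (fun i => l * s i) (fun i => l * z i) p := by
      intro l
      exact tprod_congr fun p => by ring
    have e2 : ∏' p : Nat.Primes, (1 + ((1 - 1 / (p : ℝ)) ^ (k ^ 2) *
        ∑' m : ℕ, ((m + k - 1).choose m : ℝ) ^ 2 * (1 / (p : ℝ)) ^ m - 1)) = aK k := by
      unfold aK
      exact tprod_congr fun p => by ring
    simp only [e1] at h
    rw [e2] at h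
    exact h
  · intro p
    exact (hLOC2 k s z p hk p.2 hs hz).sub_const 1
  · filter_upwards [self_mem_nhdsWithin] with l hl p
    have hl' : (0 : ℝ) < l := hl
    rw [Real.norm_eq_abs]
    exact hb _ _ p p.2 (fun i => (mul_pos hl' (hs i)).le) (fun i => (mul_pos hl' (hz i)).le)

end Pool.Agent.T2H98.RT
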