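import Pool.Agent.T2H98.RT.Stm

set_option autoImplicit false

open MeasureTheory Filter Topology Finset

namespace Pool.Agent.T2H98.RT

theorem pPOS : S_POS := by
  intro k hk
  have hk0 : (0 : ℝ) < k := by exact_mod_cast hk
  have hsub : polyt k ⊆ Set.Icc (0 : Fin k → Fin k → ℝ) 1 := by
    intro x hx
    refine ⟨fun i j => hx.1 i j, fun i j => ?_⟩
    have h1 := hx.2.1 i
    have h2 : x i j ≤ ∑ j, x i j := Finset.single_le_sum (f := fun j => x i j) (fun j _ => hx.1 i j) (mem_univ j)
    exact h2.trans h1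
  have hfin : volume (polyt k) ≠ ⊤ :=
    ((measure_mono hsub).trans_lt isCompact_Icc.measure_lt_top).ne
  refine ⟨hfin, ENNReal.toReal_pos ?_ hfin⟩
  let O : Set (Fin k → Fin k → ℝ) :=
    Set.pi Set.univ (fun _ => Set.pi Set.univ (fun _ => Set.Ioo (0 : ℝ) (1 / k)))
  have hO : IsOpen O := isOpen_set_pi Set.finite_univ
    (fun _ _ => isOpen_set_pi Set.finite_univ (fun _ _ => isOpen_Ioo))
  have hne : O.Nonempty := by
    refine ⟨fun _ _ => 1 / (2 * k), fun i _ j _ => ⟨by positivity, ?_⟩⟩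
    rw [div_lt_div_iff₀ (by positivity) hk0]
    linarith
  have hOs : O ⊆ polyt k := by
    intro x hx
    have h1 : ∀ i j, 0 < x i j ∧ x i j < 1 / k := fun i j => hx i (Set.mem_univ _) j (Set.mem_univ _)
    have hs : ∑ _j : Fin k, (1 / (k : ℝ)) = 1 := by
      rw [Finset.sum_const, Finset.card_univ, Fintype.card_fin, nsmul_eq_mul]
      field_simp
    refine ⟨fun i j => (h1 i j).1.le, fun i => ?_, fun j => ?_⟩
    · rw [← hs]
      exact Finset.sum_le_sum fun j _ => (h1 i j).2.le
    · rw [← hs]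
      exact Finset.sum_le_sum fun i _ => (h1 i j).2.le
  have hpos : 0 < volume O := hO.measure_pos volume hne
  exact (hpos.trans_le (measure_mono hOs)).ne'

end Pool.Agent.T2H98.RT
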