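import Pool.Agent.T2H98.RT.Stm

/-! Project RT, package PW: powers of the twisted zeta sum. -/

set_option autoImplicit false

open MeasureTheory Filter Topology Finset

namespace Pool.Agent.T2H98.RT

namespace PW

/-- the summand -/
noncomputable def g (θ : ℕ → ℝ) (t : ℝ) (m : ℕ) : ℂ := tw θ m * (m : ℂ) ^ (-(1 / 2 : ℂ) - t * Complex.I)

lemma g_mul (hMUL : S_MUL) (θ : ℕ → ℝ) (t : ℝ) (m n : ℕ) (hm : m ≠ 0) (hn : n ≠ 0) :
    g θ t (m * n) = g θ t m * g θ t n := by
  unfold g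
  rw [hMUL.1 θ m n hm hn, Nat.cast_mul, Complex.natCast_mul_natCast_cpow]
  ring

lemma g_prod (hMUL : S_MUL) (θ : ℕ → ℝ) (t : ℝ) {k : ℕ} (v : Fin k → ℕ) (hv : ∀ i, v i ≠ 0)
    (s : Finset (Fin k)) : ∏ i ∈ s, g θ t (v i) = g θ t (∏ i ∈ s, v i) := by
  classical
  induction s using Finset.induction_on with
  | empty =>
    simp only [Finset.prod_empty]
    unfold g
    rw [hMUL.2.2.1 θ]
    simp
  | insert a s ha ih =>
    rw [Finset.prod_insert ha, Finset.prod_insert ha, ih, g_mul hMUL θ t _ _ (hv a)]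
    exact Finset.prod_ne_zero_iff.mpr fun i _ => hv i

lemma cpow_eq (t : ℝ) (m : ℕ) (hm : m ≠ 0) : (m : ℂ) ^ (-(1 / 2 : ℂ) - t * Complex.I) =
    ((1 / Real.sqrt m : ℝ) : ℂ) * Complex.exp (-(t * Real.log m * Complex.I)) := by
  have hm' : (m : ℂ) ≠ 0 := by exact_mod_cast hm
  have hmr : (0 : ℝ) < m := by exact_mod_cast Nat.pos_of_ne_zero hm
  have h1 : (1 / Real.sqrt m : ℝ) = Real.exp (-(Real.log m / 2)) := by
    rw [Real.exp_neg, one_div]
    congr 1
    rw [Real.sqrt_eq_rpow, Real.rpow_def_of_pos hmr]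
    congr 1
    ring
  rw [h1, Complex.cpow_def_of_ne_zero hm', ← Complex.natCast_log, Complex.ofReal_exp, ← Complex.exp_add]
  congr 1
  push_cast
  ring

end PW

theorem pPW (hMUL : S_MUL) : S_PW := by
  classical
  intro θ k N t hN
  have h1 : S θ N t ^ k = ∏ _i : Fin k, ∑ n ∈ Finset.Icc 1 N, PW.g θ t n := by
    rw [Finset.prod_const, Finset.card_univ, Fintype.card_fin]
    rfl
  rw [h1, Finset.prod_univ_sum]
  have hne : ∀ v ∈ Fintype.piFinset (fun _ : Fin k => Finset.Icc 1 N), ∀ i, v i ≠ 0 := by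
    intro v hv i
    rw [Fintype.mem_piFinset] at hv
    have := (Finset.mem_Icc.mp (hv i)).1
    omega
  have h2 : ∑ v ∈ Fintype.piFinset (fun _ : Fin k => Finset.Icc 1 N), ∏ i, PW.g θ t (v i) =
      ∑ v ∈ Fintype.piFinset (fun _ : Fin k => Finset.Icc 1 N), PW.g θ t (∏ i, v i) := by
    refine Finset.sum_congr rfl fun v hv => ?_
    exact PW.g_prod hMUL θ t v (hne v hv) Finset.univ
  rw [h2]
  have hmaps : ∀ v ∈ Fintype.piFinset (fun _ : Fin k => Finset.Icc 1 N), ∏ i, v i ∈ Finset.Icc 1 (N ^ k) := by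
    intro v hv
    rw [Finset.mem_Icc]
    constructor
    · exact Nat.one_le_iff_ne_zero.mpr (Finset.prod_ne_zero_iff.mpr fun i _ => hne v hv i)
    · calc ∏ i, v i ≤ ∏ _i : Fin k, N := by
            refine Finset.prod_le_prod' fun i _ => ?_
            rw [Fintype.mem_piFinset] at hv
            exact (Finset.mem_Icc.mp (hv i)).2
        _ = N ^ k := by simp
  rw [← Finset.sum_fiberwise_of_maps_to hmaps]
  unfold D
  refine Finset.sum_congr rfl fun m hm => ?_
  have hm0 : m ≠ 0 := by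
    have := (Finset.mem_Icc.mp hm).1
    omega
  have h3 : ∑ v ∈ (Fintype.piFinset (fun _ : Fin k => Finset.Icc 1 N)).filter (fun v => ∏ i, v i = m),
      PW.g θ t (∏ i, v i) = (b k N m : ℂ) * PW.g θ t m := by
    rw [Finset.sum_congr rfl (g := fun _ => PW.g θ t m) (fun v hv => by rw [(Finset.mem_filter.mp hv).2]),
      Finset.sum_const, nsmul_eq_mul]
    rfl
  rw [h3]
  unfold PW.g
  rw [PW.cpow_eq t m hm0]
  push_cast
  ring

end Pool.Agent.T2H98.RT
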