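import Pool.Agent.T2H98.RT.Stm

/-! package QUAD -/

set_option autoImplicit false

open MeasureTheory Filter Topology Finset

namespace Pool.Agent.T2H98.RT

namespace QUAD

/-- the map to gcds and the reduced fraction -/
def red (q : (ℕ × ℕ) × (ℕ × ℕ)) : (ℕ × ℕ) × (ℕ × ℕ) :=
  ((q.1.1.gcd q.1.2, q.2.1.gcd q.2.2), (q.1.1 / q.1.1.gcd q.1.2, q.1.2 / q.1.1.gcd q.1.2))

lemma struct {m n m' n' : ℕ} (hm : 1 ≤ m) (hn : 1 ≤ n) (hm' : 1 ≤ m') (hn' : 1 ≤ n') (h : m * n' = m' * n) :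
    m = m.gcd n * (m / m.gcd n) ∧ n = m.gcd n * (n / m.gcd n) ∧
    m' = m'.gcd n' * (m / m.gcd n) ∧ n' = m'.gcd n' * (n / m.gcd n) := by
  have hg : 0 < m.gcd n := Nat.gcd_pos_of_pos_left _ hm
  have hg' : 0 < m'.gcd n' := Nat.gcd_pos_of_pos_left _ hm'
  obtain ⟨g, hgdef⟩ : ∃ g, g = m.gcd n := ⟨_, rfl⟩
  obtain ⟨g', hgdef'⟩ : ∃ g', g' = m'.gcd n' := ⟨_, rfl⟩
  obtain ⟨r, hr⟩ : ∃ r, m = m.gcd n * r := Nat.gcd_dvd_left m n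
  obtain ⟨s, hs⟩ : ∃ s, n = m.gcd n * s := Nat.gcd_dvd_right m n
  obtain ⟨r', hr'⟩ : ∃ r, m' = m'.gcd n' * r := Nat.gcd_dvd_left m' n'
  obtain ⟨s', hs'⟩ : ∃ s, n' = m'.gcd n' * s := Nat.gcd_dvd_right m' n'
  rw [← hgdef] at hr hs hg ⊢
  rw [← hgdef'] at hr' hs' hg' ⊢
  have hcop : r.Coprime s := by
    have h1 : g * r.gcd s = g * 1 := by
      rw [← Nat.gcd_mul_left, ← hr, ← hs, ← hgdef, mul_one]
    exact Nat.eq_of_mul_eq_mul_left hg h1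
  have hcop' : r'.Coprime s' := by
    have h1 : g' * r'.gcd s' = g' * 1 := by
      rw [← Nat.gcd_mul_left, ← hr', ← hs', ← hgdef', mul_one]
    exact Nat.eq_of_mul_eq_mul_left hg' h1
  have hrs : r * s' = r' * s := by
    rw [hr, hs, hr', hs'] at h
    have h2 : g * g' * (r * s') = g * g' * (r' * s) := by
      calc g * g' * (r * s') = g * r * (g' * s') := by ring
        _ = g' * r' * (g * s) := h
        _ = g * g' * (r' * s) := by ring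
    exact Nat.eq_of_mul_eq_mul_left (Nat.mul_pos hg hg') h2
  have hr1 : r ∣ r' := hcop.dvd_of_dvd_mul_right (Dvd.intro _ hrs)
  have hr2 : r' ∣ r := hcop'.dvd_of_dvd_mul_right (Dvd.intro _ hrs.symm)
  have e1 : r = r' := Nat.dvd_antisymm hr1 hr2
  have hrpos : 0 < r := by
    rcases Nat.eq_zero_or_pos r with h0 | h0
    · rw [h0, mul_zero] at hr; omega
    · exact h0
  have e2 : s' = s := by
    rw [← e1] at hrs
    exact Nat.eq_of_mul_eq_mul_left hrpos hrs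
  have q1 : m / g = r := by rw [hr]; exact Nat.mul_div_cancel_left r hg
  have q2 : n / g = s := by rw [hs]; exact Nat.mul_div_cancel_left s hg
  rw [q1, q2]
  refine ⟨hr, hs, ?_, ?_⟩
  · rw [e1]; exact hr'
  · rw [← e2]; exact hs'

lemma mem_quads {M : ℕ} {q : (ℕ × ℕ) × (ℕ × ℕ)} (hq : q ∈ quads M) :
    ((1 ≤ q.1.1 ∧ q.1.1 ≤ M) ∧ (1 ≤ q.1.2 ∧ q.1.2 ≤ M)) ∧ ((1 ≤ q.2.1 ∧ q.2.1 ≤ M) ∧ (1 ≤ q.2.2 ∧ q.2.2 ≤ M)) ∧
    q.1.1 * q.2.2 = q.2.1 * q.1.2 ∧ q.1.1 ≠ q.1.2 := by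
  unfold quads at hq
  simp only [mem_filter, mem_product, mem_Icc] at hq
  exact ⟨hq.1.1, hq.1.2, hq.2.1, hq.2.2⟩

lemma inj (M : ℕ) : Set.InjOn red (quads M) := by
  rintro ⟨⟨m, n⟩, ⟨m', n'⟩⟩ hq ⟨⟨a, b⟩, ⟨a', b'⟩⟩ hp h
  obtain ⟨⟨h1, h2⟩, ⟨h3, h4⟩, h5, -⟩ := mem_quads hq
  obtain ⟨⟨k1, k2⟩, ⟨k3, k4⟩, k5, -⟩ := mem_quads hp
  simp only at h1 h2 h3 h4 h5 k1 k2 k3 k4 k5
  obtain ⟨s1, s2, s3, s4⟩ := struct h1.1 h2.1 h3.1 h4.1 h5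
  obtain ⟨t1, t2, t3, t4⟩ := struct k1.1 k2.1 k3.1 k4.1 k5
  unfold red at h
  simp only [Prod.mk.injEq] at h
  obtain ⟨⟨e1, e2⟩, e3, e4⟩ := h
  simp only [Prod.mk.injEq]
  refine ⟨⟨?_, ?_⟩, ?_, ?_⟩
  · exact s1.trans ((congrArg₂ (fun x y => x * y) e1 e3).trans t1.symm)
  · exact s2.trans ((congrArg₂ (fun x y => x * y) e1 e4).trans t2.symm)
  · exact s3.trans ((congrArg₂ (fun x y => x * y) e2 e3).trans t3.symm)
  · exact s4.trans ((congrArg₂ (fun x y => x * y) e2 e4).trans t4.symm)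

lemma mapsTo (M : ℕ) : ∀ q ∈ quads M, red q ∈ ((Icc 1 M) ×ˢ (Icc 1 M)) ×ˢ
    ((Icc 1 M) ×ˢ (Icc 1 M)).filter (fun q : ℕ × ℕ => q.1 ≠ q.2) := by
  rintro ⟨⟨m, n⟩, ⟨m', n'⟩⟩ hq
  obtain ⟨⟨h1, h2⟩, ⟨h3, h4⟩, h5, h6⟩ := mem_quads hq
  simp only at h1 h2 h3 h4 h5 h6
  obtain ⟨s1, s2, s3, s4⟩ := struct h1.1 h2.1 h3.1 h4.1 h5
  unfold red
  simp only [mem_product, mem_filter, mem_Icc]
  have hg : 0 < m.gcd n := Nat.gcd_pos_of_pos_left _ h1.1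
  have hg' : 0 < m'.gcd n' := Nat.gcd_pos_of_pos_left _ h3.1
  have g1 : m.gcd n ≤ m := Nat.gcd_le_left _ h1.1
  have g2 : m'.gcd n' ≤ m' := Nat.gcd_le_left _ h3.1
  have r1 : m / m.gcd n ≤ m := Nat.div_le_self _ _
  have r2 : n / m.gcd n ≤ n := Nat.div_le_self _ _
  have r3 : 0 < m / m.gcd n := Nat.div_pos g1 hg
  have r4 : 0 < n / m.gcd n := Nat.div_pos (Nat.gcd_le_right _ h2.1) hg
  refine ⟨⟨⟨by omega, by omega⟩, by omega, by omega⟩, ⟨⟨by omega, by omega⟩, by omega, by omega⟩, ?_⟩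
  intro h
  exact h6 (s1.trans ((congrArg (fun x => m.gcd n * x) h).trans s2.symm))

lemma summand {M : ℕ} {q : (ℕ × ℕ) × (ℕ × ℕ)} (hq : q ∈ quads M) :
    1 / Real.sqrt q.1.1 * (1 / Real.sqrt q.1.2) * (1 / Real.sqrt q.2.1 * (1 / Real.sqrt q.2.2)) /
      |Real.log q.1.1 - Real.log q.1.2| =
    1 / (((red q).1.1 : ℝ) * (red q).1.2) * (1 / (((red q).2.1 : ℝ) * (red q).2.2 *
      |Real.log (red q).2.1 - Real.log (red q).2.2|)) := by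
  obtain ⟨⟨m, n⟩, ⟨m', n'⟩⟩ := q
  have hmap := mapsTo M _ hq
  obtain ⟨⟨h1, h2⟩, ⟨h3, h4⟩, h5, h6⟩ := mem_quads hq
  simp only at h1 h2 h3 h4 h5 h6
  obtain ⟨s1, s2, s3, s4⟩ := struct h1.1 h2.1 h3.1 h4.1 h5
  unfold red at hmap ⊢
  simp only [mem_product, mem_filter, mem_Icc] at hmap
  simp only
  obtain ⟨g, hg⟩ : ∃ g, g = m.gcd n := ⟨_, rfl⟩
  obtain ⟨g', hg'⟩ : ∃ g', g' = m'.gcd n' := ⟨_, rfl⟩
  obtain ⟨r, hr⟩ : ∃ r, r = m / m.gcd n := ⟨_, rfl⟩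
  obtain ⟨s, hs⟩ : ∃ s, s = n / m.gcd n := ⟨_, rfl⟩
  rw [← hr, ← hs, ← hg, ← hg'] at hmap ⊢
  rw [← hr, ← hg] at s1
  rw [← hs, ← hg] at s2
  rw [← hr, ← hg'] at s3
  rw [← hs, ← hg'] at s4
  have p1 : (0 : ℝ) < g := by exact_mod_cast (by omega : 0 < g)
  have p2 : (0 : ℝ) < g' := by exact_mod_cast (by omega : 0 < g')
  have p3 : (0 : ℝ) < r := by exact_mod_cast (by omega : 0 < r)
  have p4 : (0 : ℝ) < s := by exact_mod_cast (by omega : 0 < s)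
  have e1 : (m : ℝ) = g * r := by exact_mod_cast s1
  have e2 : (n : ℝ) = g * s := by exact_mod_cast s2
  have e3 : (m' : ℝ) = g' * r := by exact_mod_cast s3
  have e4 : (n' : ℝ) = g' * s := by exact_mod_cast s4
  have hlog : Real.log m - Real.log n = Real.log r - Real.log s := by
    rw [e1, e2, Real.log_mul p1.ne' p3.ne', Real.log_mul p1.ne' p4.ne']
    ring
  rw [hlog]
  have hsq : Real.sqrt m * Real.sqrt n * (Real.sqrt m' * Real.sqrt n') = g * g' * (r * s) := by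
    rw [← Real.sqrt_mul (by positivity), ← Real.sqrt_mul (by positivity), ← Real.sqrt_mul (by positivity), e1, e2,
      e3, e4, show ((g : ℝ) * r * (g * s) * (g' * r * (g' * s))) = (g * g' * (r * s)) ^ 2 by ring,
      Real.sqrt_sq (by positivity)]
  rw [one_div_mul_one_div, one_div_mul_one_div, one_div_mul_one_div, hsq, one_div_mul_one_div, div_div]
  congr 1
  ring

end QUAD

open QUAD in
theorem pQUAD : S_QUAD := by
  intro M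
  unfold QS RS
  have h1 : ∑ q ∈ quads M, (fun m : ℕ => 1 / Real.sqrt (m : ℝ)) q.1.1 * (fun m : ℕ => 1 / Real.sqrt (m : ℝ)) q.1.2 *
      ((fun m : ℕ => 1 / Real.sqrt (m : ℝ)) q.2.1 * (fun m : ℕ => 1 / Real.sqrt (m : ℝ)) q.2.2) /
      |Real.log q.1.1 - Real.log q.1.2| = ∑ q ∈ quads M, (fun w : (ℕ × ℕ) × (ℕ × ℕ) =>
        1 / ((w.1.1 : ℝ) * w.1.2) * (1 / ((w.2.1 : ℝ) * w.2.2 * |Real.log w.2.1 - Real.log w.2.2|))) (red q) :=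
    sum_congr rfl fun q hq => summand hq
  rw [h1, ← sum_image (f := fun w : (ℕ × ℕ) × (ℕ × ℕ) =>
        1 / ((w.1.1 : ℝ) * w.1.2) * (1 / ((w.2.1 : ℝ) * w.2.2 * |Real.log w.2.1 - Real.log w.2.2|))) (inj M)]
  have h2 : (∑ g ∈ Icc 1 M, 1 / (g : ℝ)) ^ 2 = ∑ q ∈ (Icc 1 M) ×ˢ (Icc 1 M), 1 / ((q.1 : ℝ) * (q.2 : ℝ)) := by
    rw [sq, sum_mul_sum, ← sum_product']
    refine sum_congr rfl fun q _ => ?_
    rw [one_div_mul_one_div]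
  rw [h2, sum_mul_sum, ← sum_product']
  apply sum_le_sum_of_subset_of_nonneg
  · intro w hw
    rw [mem_image] at hw
    obtain ⟨q, hq, rfl⟩ := hw
    exact mapsTo M q hq
  · intro w _ _
    positivity

end Pool.Agent.T2H98.RT
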