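import Pool.Agent.T2H98.RT.Stm

/-! package RSB -/

set_option autoImplicit false

open MeasureTheory Filter Topology Finset

namespace Pool.Agent.T2H98.RT

namespace RSB

lemma term_le {s r : ℕ} (hs : 1 ≤ s) (h : s < r) :
    1 / ((s : ℝ) * r * |Real.log s - Real.log r|) ≤ 1 / ((s : ℝ) * ((r - s : ℕ) : ℝ)) := by
  have hs0 : (0 : ℝ) < s := by exact_mod_cast hs
  have hr0 : (0 : ℝ) < r := by exact_mod_cast (by omega : 0 < r)
  have hsub : ((r - s : ℕ) : ℝ) = (r : ℝ) - s := by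
    rw [Nat.cast_sub h.le]
  have hd : (0 : ℝ) < (r : ℝ) - s := by
    have : (s : ℝ) < r := by exact_mod_cast h
    linarith
  have hlog : ((r : ℝ) - s) / r ≤ Real.log r - Real.log s := by
    have h1 := Real.one_sub_inv_le_log_of_pos (show (0 : ℝ) < (r : ℝ) / s by positivity)
    rw [Real.log_div hr0.ne' hs0.ne'] at h1
    have h2 : 1 - ((r : ℝ) / s)⁻¹ = ((r : ℝ) - s) / r := by
      field_simp
    linarith
  have habs : |Real.log s - Real.log r| = Real.log r - Real.log s := by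
    rw [abs_sub_comm, abs_of_nonneg]
    have : 0 ≤ ((r : ℝ) - s) / r := by positivity
    linarith
  rw [habs, hsub]
  apply one_div_le_one_div_of_le (by positivity)
  have h3 : ((r : ℝ) - s) ≤ r * (Real.log r - Real.log s) := by
    have := mul_le_mul_of_nonneg_left hlog hr0.le
    rwa [mul_div_cancel₀ _ hr0.ne'] at this
  calc (s : ℝ) * ((r : ℝ) - s) ≤ s * (r * (Real.log r - Real.log s)) := by
        apply mul_le_mul_of_nonneg_left h3 hs0.le
    _ = s * r * (Real.log r - Real.log s) := by ring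

lemma half (M : ℕ) : ∑ q ∈ ((Icc 1 M) ×ˢ (Icc 1 M)).filter (fun q : ℕ × ℕ => q.1 < q.2),
    1 / ((q.1 : ℝ) * q.2 * |Real.log q.1 - Real.log q.2|) ≤ (∑ g ∈ Icc 1 M, 1 / (g : ℝ)) ^ 2 := by
  have h1 : ∑ q ∈ ((Icc 1 M) ×ˢ (Icc 1 M)).filter (fun q : ℕ × ℕ => q.1 < q.2),
      1 / ((q.1 : ℝ) * q.2 * |Real.log q.1 - Real.log q.2|) ≤
      ∑ q ∈ ((Icc 1 M) ×ˢ (Icc 1 M)).filter (fun q : ℕ × ℕ => q.1 < q.2),
      1 / ((q.1 : ℝ) * ((q.2 - q.1 : ℕ) : ℝ)) := by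
    refine sum_le_sum fun q hq => ?_
    rw [mem_filter, mem_product, mem_Icc, mem_Icc] at hq
    exact term_le hq.1.1.1 hq.2
  refine h1.trans ?_
  have hinj : Set.InjOn (fun q : ℕ × ℕ => (q.1, q.2 - q.1))
      (((Icc 1 M) ×ˢ (Icc 1 M)).filter (fun q : ℕ × ℕ => q.1 < q.2) : Finset (ℕ × ℕ)) := by
    rintro ⟨a, b⟩ ha ⟨a', b'⟩ ha' h
    simp only [coe_filter, mem_product, mem_Icc, Set.mem_setOf_eq] at ha ha'
    simp only [Prod.mk.injEq] at h ⊢
    omega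
  have h2 := sum_image (f := fun q : ℕ × ℕ => 1 / ((q.1 : ℝ) * (q.2 : ℝ))) hinj
  simp only at h2
  rw [← h2]
  have h3 : (∑ g ∈ Icc 1 M, 1 / (g : ℝ)) ^ 2 = ∑ q ∈ (Icc 1 M) ×ˢ (Icc 1 M), 1 / ((q.1 : ℝ) * (q.2 : ℝ)) := by
    rw [sq, sum_mul_sum, ← sum_product']
    refine sum_congr rfl fun q _ => ?_
    rw [one_div_mul_one_div]
  rw [h3]
  apply sum_le_sum_of_subset_of_nonneg
  · intro q hq
    rw [mem_image] at hq
    obtain ⟨⟨a, b⟩, hab, rfl⟩ := hq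
    rw [mem_filter, mem_product, mem_Icc, mem_Icc] at hab
    rw [mem_product, mem_Icc, mem_Icc]
    simp only at hab ⊢
    omega
  · intro q _ _
    positivity

end RSB

open RSB in
theorem pRSB : S_RSB := by
  intro M
  unfold RS
  have hsplit : ((Icc 1 M) ×ˢ (Icc 1 M)).filter (fun q : ℕ × ℕ => q.1 ≠ q.2) =
      ((Icc 1 M) ×ˢ (Icc 1 M)).filter (fun q : ℕ × ℕ => q.1 < q.2) ∪
      ((Icc 1 M) ×ˢ (Icc 1 M)).filter (fun q : ℕ × ℕ => q.2 < q.1) := by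
    ext q
    simp only [mem_filter, mem_union]
    constructor
    · rintro ⟨h1, h2⟩
      rcases lt_or_gt_of_ne h2 with h | h
      · exact Or.inl ⟨h1, h⟩
      · exact Or.inr ⟨h1, h⟩
    · rintro (⟨h1, h2⟩ | ⟨h1, h2⟩)
      · exact ⟨h1, h2.ne⟩
      · exact ⟨h1, h2.ne'⟩
  rw [hsplit, sum_union]
  · have h2 : ∑ q ∈ ((Icc 1 M) ×ˢ (Icc 1 M)).filter (fun q : ℕ × ℕ => q.2 < q.1),
        1 / ((q.1 : ℝ) * q.2 * |Real.log q.1 - Real.log q.2|) =
        ∑ q ∈ ((Icc 1 M) ×ˢ (Icc 1 M)).filter (fun q : ℕ × ℕ => q.1 < q.2),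
        1 / ((q.1 : ℝ) * q.2 * |Real.log q.1 - Real.log q.2|) := by
      refine sum_nbij' (fun q => (q.2, q.1)) (fun q => (q.2, q.1)) ?_ ?_ ?_ ?_ ?_
      · intro q hq
        simp only [mem_filter, mem_product] at hq ⊢
        exact ⟨⟨hq.1.2, hq.1.1⟩, hq.2⟩
      · intro q hq
        simp only [mem_filter, mem_product] at hq ⊢
        exact ⟨⟨hq.1.2, hq.1.1⟩, hq.2⟩
      · intro q _; rfl
      · intro q _; rfl
      · intro q _
        simp only
        rw [mul_comm (q.1 : ℝ) q.2, abs_sub_comm]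
    rw [h2]
    have := half M
    linarith
  · rw [disjoint_filter]
    intro q _ h1 h2
    omega

end Pool.Agent.T2H98.RT
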