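import Pool.Agent.T2H98.RT.Stm

set_option autoImplicit false

open MeasureTheory Filter Topology Finset

namespace Pool.Agent.T2H98.RT

namespace SGM

theorem sg_zero (k : ℕ) (s : Fin k → ℝ) : sg k s 0 = 0 := by
  unfold sg
  rw [Nat.finMulAntidiag_zero_right, Finset.sum_empty]

theorem prod_coprime {k : ℕ} {v : Fin k → ℕ} {n : ℕ} (h : ∀ i, (v i).Coprime n) : (∏ i, v i).Coprime n :=
  Nat.Coprime.prod_left fun i _ => h i

theorem mul_aux (k : ℕ) (s : Fin k → ℝ) (m n : ℕ) (hm : m ≠ 0) (hn : n ≠ 0) (hmn : m.Coprime n) :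
    sg k s m * sg k s n = sg k s (m * n) := by
  unfold sg
  rw [Finset.sum_mul_sum, ← Finset.sum_product']
  refine Finset.sum_nbij' (fun q => fun i => q.1 i * q.2 i)
    (fun u => (fun i => Nat.gcd (u i) m, fun i => Nat.gcd (u i) n)) ?_ ?_ ?_ ?_ ?_
  · rintro ⟨v, w⟩ hq
    rw [Finset.mem_product, Nat.mem_finMulAntidiag, Nat.mem_finMulAntidiag] at hq
    rw [Nat.mem_finMulAntidiag, Finset.prod_mul_distrib, hq.1.1, hq.2.1]
    exact ⟨rfl, Nat.mul_ne_zero hm hn⟩
  · intro u hu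
    have hdvd : ∀ i, u i ∣ m * n := fun i => Nat.dvd_of_mem_finMulAntidiag hu i
    have hgg : ∀ i, Nat.gcd (u i) m * Nat.gcd (u i) n = u i := by
      intro i
      rw [← Nat.Coprime.gcd_mul _ hmn]
      exact Nat.gcd_eq_left (hdvd i)
    have hprod : (∏ i, Nat.gcd (u i) m) * (∏ i, Nat.gcd (u i) n) = m * n := by
      rw [← Finset.prod_mul_distrib, ← Nat.prod_eq_of_mem_finMulAntidiag hu]
      exact Finset.prod_congr rfl fun i _ => hgg i
    have ha : (∏ i, Nat.gcd (u i) m).Coprime n :=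
      prod_coprime fun i => Nat.Coprime.coprime_dvd_left (Nat.gcd_dvd_right _ _) hmn
    have hb : (∏ i, Nat.gcd (u i) n).Coprime m :=
      prod_coprime fun i => Nat.Coprime.coprime_dvd_left (Nat.gcd_dvd_right _ _) hmn.symm
    have ha2 : (∏ i, Nat.gcd (u i) m) ∣ m :=
      ha.dvd_of_dvd_mul_right (by rw [← hprod]; exact Nat.dvd_mul_right _ _)
    have hb2 : (∏ i, Nat.gcd (u i) n) ∣ n :=
      hb.dvd_of_dvd_mul_left (by rw [← hprod]; exact Nat.dvd_mul_left _ _)
    have ha3 : m ∣ (∏ i, Nat.gcd (u i) m) :=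
      hb.symm.dvd_of_dvd_mul_right (by rw [hprod]; exact Nat.dvd_mul_right _ _)
    have hb3 : n ∣ (∏ i, Nat.gcd (u i) n) :=
      ha.symm.dvd_of_dvd_mul_left (by rw [hprod]; exact Nat.dvd_mul_left _ _)
    rw [Finset.mem_product, Nat.mem_finMulAntidiag, Nat.mem_finMulAntidiag]
    exact ⟨⟨Nat.dvd_antisymm ha2 ha3, hm⟩, ⟨Nat.dvd_antisymm hb2 hb3, hn⟩⟩
  · rintro ⟨v, w⟩ hq
    rw [Finset.mem_product] at hq
    have h1 : ∀ i, v i ∣ m := fun i => Nat.dvd_of_mem_finMulAntidiag hq.1 i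
    have h2 : ∀ i, w i ∣ n := fun i => Nat.dvd_of_mem_finMulAntidiag hq.2 i
    ext i
    · simp only
      have hc : (w i).Coprime m := Nat.Coprime.coprime_dvd_left (h2 i) hmn.symm
      rw [Nat.Coprime.gcd_mul_right_cancel _ hc]
      exact Nat.gcd_eq_left (h1 i)
    · simp only
      have hc : (v i).Coprime n := Nat.Coprime.coprime_dvd_left (h1 i) hmn
      rw [Nat.Coprime.gcd_mul_left_cancel _ hc]
      exact Nat.gcd_eq_left (h2 i)
  · intro u hu
    have hdvd : ∀ i, u i ∣ m * n := fun i => Nat.dvd_of_mem_finMulAntidiag hu i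
    funext i
    simp only
    rw [← Nat.Coprime.gcd_mul _ hmn]
    exact Nat.gcd_eq_left (hdvd i)
  · rintro ⟨v, w⟩ _
    simp only
    rw [← Finset.prod_mul_distrib]
    refine Finset.prod_congr rfl fun i _ => ?_
    rw [Nat.cast_mul, Real.mul_rpow (Nat.cast_nonneg _) (Nat.cast_nonneg _)]

end SGM

open SGM in
theorem pSGM (hDIV : S_DIV) : S_SGM := by
  intro k hk
  refine ⟨?_, ?_, ?_⟩
  · intro s m n hmn
    by_cases hm : m = 0
    · subst hm
      rw [zero_mul, sg_zero, zero_mul]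
    · by_cases hn : n = 0
      · subst hn
        rw [mul_zero, sg_zero, mul_zero]
      · exact (mul_aux k s m n hm hn hmn).symm
  · intro s
    refine ⟨?_, ?_⟩
    · unfold sg
      rw [Nat.finMulAntidiag_one, Finset.sum_singleton]
      simp
    · intro m
      unfold sg
      exact Finset.sum_nonneg fun v _ => Finset.prod_nonneg fun i _ => Real.rpow_nonneg (Nat.cast_nonneg _) _
  · intro ε hε
    obtain ⟨C, hC, _, hC2⟩ := hDIV k ε hε
    refine ⟨C, hC, ?_⟩
    intro s δ m hδ hs hm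
    have hm0 : (0 : ℝ) < m := by exact_mod_cast hm
    have hterm : ∀ v ∈ Nat.finMulAntidiag k m, ∏ i, (v i : ℝ) ^ (-s i) ≤ (m : ℝ) ^ (-δ) := by
      intro v hv
      have h1 : (m : ℝ) ^ (-δ) = ∏ i, (v i : ℝ) ^ (-δ) := by
        rw [Real.finsetProd_rpow _ _ (fun i _ => Nat.cast_nonneg _), ← Nat.cast_prod,
          Nat.prod_eq_of_mem_finMulAntidiag hv]
      rw [h1]
      refine Finset.prod_le_prod (fun i _ => Real.rpow_nonneg (Nat.cast_nonneg _) _) fun i _ => ?_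
      have h2 : (1 : ℝ) ≤ v i := by
        exact_mod_cast Nat.one_le_iff_ne_zero.2 (Nat.ne_zero_of_mem_finMulAntidiag hv i)
      exact Real.rpow_le_rpow_of_exponent_le h2 (by linarith [hs i])
    calc sg k s m ≤ ∑ _v ∈ Nat.finMulAntidiag k m, (m : ℝ) ^ (-δ) := Finset.sum_le_sum hterm
      _ = ((Nat.finMulAntidiag k m).card : ℝ) * (m : ℝ) ^ (-δ) := by rw [Finset.sum_const, nsmul_eq_mul]
      _ ≤ (C * (m : ℝ) ^ ε) * (m : ℝ) ^ (-δ) :=
          mul_le_mul_of_nonneg_right (hC2 m hm) (Real.rpow_nonneg hm0.le _)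
      _ = C * (m : ℝ) ^ (ε - δ) := by
          rw [mul_assoc, ← Real.rpow_add hm0, sub_eq_add_neg]

end Pool.Agent.T2H98.RT
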