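import Pool.Agent.T2H98.RT.Stm

set_option autoImplicit false

open MeasureTheory Filter Topology Finset

namespace Pool.Agent.T2H98.RT

theorem pSH (hMUL : S_MUL) : S_SH := by
  intro θ i N t hi h1 h2
  have hi0 : (0 : ℝ) < i := by exact_mod_cast hi
  have hS : S θ N t - S θ (i ^ 2) t =
      ∑ n ∈ Finset.Ioc (i ^ 2) N, tw θ n * (n : ℂ) ^ (-(1 / 2 : ℂ) - t * Complex.I) := by
    have e : ∀ M : ℕ, S θ M t = ∑ n ∈ Finset.Ioc 0 M, tw θ n * (n : ℂ) ^ (-(1 / 2 : ℂ) - t * Complex.I) := by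
      intro M
      unfold S
      apply Finset.sum_congr _ (fun _ _ => rfl)
      ext n
      simp only [Finset.mem_Icc, Finset.mem_Ioc]
      omega
    rw [e N, e (i ^ 2), ← Finset.sum_Ioc_consecutive _ (Nat.zero_le (i ^ 2)) h1]
    ring
  rw [hS]
  refine (norm_sum_le _ _).trans ?_
  have hb : ∀ n ∈ Finset.Ioc (i ^ 2) N, ‖tw θ n * (n : ℂ) ^ (-(1 / 2 : ℂ) - t * Complex.I)‖ ≤ 1 / i := by
    intro n hn
    rw [Finset.mem_Ioc] at hn
    have hn0 : 0 < n := by omega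
    rw [norm_mul, hMUL.2.1, one_mul, Complex.norm_natCast_cpow_of_pos hn0]
    have hre : (-(1 / 2 : ℂ) - t * Complex.I).re = -(1 / 2) := by
      simp
    rw [hre]
    have h3 : ((i : ℝ) ^ 2) ≤ n := by exact_mod_cast hn.1.le
    have h4 : (n : ℝ) ^ (-(1 / 2) : ℝ) ≤ ((i : ℝ) ^ 2) ^ (-(1 / 2) : ℝ) :=
      Real.rpow_le_rpow_of_nonpos (by positivity) h3 (by norm_num)
    refine h4.trans (le_of_eq ?_)
    rw [← Real.rpow_natCast, ← Real.rpow_mul hi0.le]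
    norm_num
    rw [Real.rpow_neg_one]
  refine (Finset.sum_le_sum hb).trans ?_
  rw [Finset.sum_const, Nat.card_Ioc, nsmul_eq_mul, mul_one_div, div_le_iff₀ hi0]
  have h5 : N - i ^ 2 ≤ 2 * i := by
    have h6 : (i + 1) ^ 2 = i ^ 2 + 2 * i + 1 := by ring
    omega
  have h6 : ((N - i ^ 2 : ℕ) : ℝ) ≤ ((2 * i : ℕ) : ℝ) := by exact_mod_cast h5
  push_cast at h6
  exact h6

end Pool.Agent.T2H98.RT
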