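import Pool.Agent.T2H98.RT.Stm

/-!
# Package SW: Stone-Weierstrass on the cube
-/

set_option autoImplicit false

open MeasureTheory Filter Topology Finset

namespace Pool.Agent.T2H98.RT

namespace SW

/-- coordinate functions on the cube -/
def crd (ι : Type) [Fintype ι] (i : ι) : C(Set.Icc (0 : ι → ℝ) 1, ℝ) :=
  ⟨fun u => u.1 i, (continuous_apply i).comp continuous_subtype_val⟩

theorem aeval_crd (ι : Type) [Fintype ι] (q : MvPolynomial ι ℝ) (u : Set.Icc (0 : ι → ℝ) 1) :
    (MvPolynomial.aeval (crd ι) q) u = MvPolynomial.eval (u : ι → ℝ) q := by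
  induction q using MvPolynomial.induction_on with
  | C a =>
    rw [MvPolynomial.algHom_C, MvPolynomial.eval_C]
    rfl
  | add p q hp hq =>
    rw [map_add, map_add, ← hp, ← hq]
    rfl
  | mul_X p i hp =>
    rw [map_mul, map_mul, ← hp, MvPolynomial.aeval_X, MvPolynomial.eval_X]
    rfl

end SW

open SW in
theorem pSW : S_SW := by
  intro ι _ g hg ε hε
  classical
  have : CompactSpace (Set.Icc (0 : ι → ℝ) 1) := isCompact_iff_compactSpace.mp isCompact_Icc
  set B : Subalgebra ℝ C(Set.Icc (0 : ι → ℝ) 1, ℝ) := (MvPolynomial.aeval (crd ι)).range with hB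
  have hsep : B.SeparatesPoints := by
    intro u v huv
    have h1 : ∃ i, u.1 i ≠ v.1 i := by
      by_contra hcon
      push Not at hcon
      exact huv (Subtype.ext (funext hcon))
    obtain ⟨i, hi⟩ := h1
    refine ⟨fun w => crd ι i w, ⟨crd ι i, ?_, rfl⟩, hi⟩
    refine ⟨MvPolynomial.X i, ?_⟩
    exact MvPolynomial.aeval_X _ _
  have hc : Continuous (fun u : Set.Icc (0 : ι → ℝ) 1 => g u.1) := hg.domRestrict
  obtain ⟨⟨f, hf⟩, hfe⟩ := ContinuousMap.exists_mem_subalgebra_near_continuous_of_separatesPoints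
    B hsep _ hc ε hε
  obtain ⟨q, hq⟩ := hf
  refine ⟨q.support.image (fun d : ι →₀ ℕ => (⇑d : ι → ℕ)),
    fun n => q.coeff (Finsupp.equivFunOnFinite.symm n), ?_⟩
  intro u hu
  have h1 := hfe ⟨u, hu⟩
  simp only at h1
  have h2 : f ⟨u, hu⟩ = ∑ n ∈ q.support.image (fun d : ι →₀ ℕ => (⇑d : ι → ℕ)),
      q.coeff (Finsupp.equivFunOnFinite.symm n) * ∏ i, u i ^ n i := by
    rw [← hq]
    have h3 := aeval_crd ι q ⟨u, hu⟩
    refine (show _ = _ from h3).trans ?_
    rw [MvPolynomial.eval_eq', Finset.sum_image (fun (a : ι →₀ ℕ) _ (b : ι →₀ ℕ) _ h => DFunLike.coe_injective h)]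
    apply Finset.sum_congr rfl
    intro d _
    congr 2
    ext i
    rfl
  rw [← h2, abs_sub_comm]
  exact h1.le

end Pool.Agent.T2H98.RT
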