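import Pool.Agent.T2H98.RT.Stm

set_option autoImplicit false

open MeasureTheory Filter Topology Finset

namespace Pool.Agent.T2H98.RT

namespace VAR

/-- `QS` is monotone and homogeneous -/
theorem QS_le (c : ℕ → ℝ) (B : ℝ) (M : ℕ) (hc : ∀ m, 0 ≤ c m) (hB : 0 ≤ B)
    (hcB : ∀ m ∈ Icc 1 M, c m ≤ B * (1 / Real.sqrt m)) :
    QS c M ≤ B ^ 4 * QS (fun m => 1 / Real.sqrt m) M := by
  unfold QS
  rw [Finset.mul_sum]
  refine Finset.sum_le_sum fun q hq => ?_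
  unfold quads at hq
  rw [Finset.mem_filter, Finset.mem_product, Finset.mem_product, Finset.mem_product] at hq
  obtain ⟨⟨⟨h1, h2⟩, h3, h4⟩, _⟩ := hq
  have e1 := hcB _ h1
  have e2 := hcB _ h2
  have e3 := hcB _ h3
  have e4 := hcB _ h4
  have n : ∀ m : ℕ, 0 ≤ B * (1 / Real.sqrt m) := fun m => by positivity
  have f1 : c q.1.1 * c q.1.2 ≤ (B * (1 / Real.sqrt q.1.1)) * (B * (1 / Real.sqrt q.1.2)) :=
    mul_le_mul e1 e2 (hc _) (n _)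
  have f2 : c q.2.1 * c q.2.2 ≤ (B * (1 / Real.sqrt q.2.1)) * (B * (1 / Real.sqrt q.2.2)) :=
    mul_le_mul e3 e4 (hc _) (n _)
  have f3 : c q.1.1 * c q.1.2 * (c q.2.1 * c q.2.2) ≤
      (B * (1 / Real.sqrt q.1.1)) * (B * (1 / Real.sqrt q.1.2)) *
        ((B * (1 / Real.sqrt q.2.1)) * (B * (1 / Real.sqrt q.2.2))) :=
    mul_le_mul f1 f2 (mul_nonneg (hc _) (hc _)) (mul_nonneg (n _) (n _))
  calc c q.1.1 * c q.1.2 * (c q.2.1 * c q.2.2) / |Real.log q.1.1 - Real.log q.1.2|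
      ≤ (B * (1 / Real.sqrt q.1.1)) * (B * (1 / Real.sqrt q.1.2)) *
        ((B * (1 / Real.sqrt q.2.1)) * (B * (1 / Real.sqrt q.2.2))) / |Real.log q.1.1 - Real.log q.1.2| :=
        div_le_div_of_nonneg_right f3 (abs_nonneg _)
    _ = B ^ 4 * (1 / Real.sqrt q.1.1 * (1 / Real.sqrt q.1.2) * (1 / Real.sqrt q.2.1 * (1 / Real.sqrt q.2.2)) /
        |Real.log q.1.1 - Real.log q.1.2|) := by ring

/-- harmonic sums -/
theorem harm (M : ℕ) (_hM : 1 ≤ M) : 0 ≤ ∑ g ∈ Icc 1 M, 1 / (g : ℝ) ∧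
    ∑ g ∈ Icc 1 M, 1 / (g : ℝ) ≤ 1 + Real.log M := by
  refine ⟨Finset.sum_nonneg fun g _ => by positivity, ?_⟩
  have h := harmonic_le_one_add_log M
  have h2 : ((harmonic M : ℚ) : ℝ) = ∑ g ∈ Icc 1 M, 1 / (g : ℝ) := by
    rw [harmonic_eq_sum_Icc]
    push_cast
    simp
  rwa [h2] at h

/-- logarithms are small -/
theorem log_small (k : ℕ) (ε : ℝ) (hε : 0 < ε) : ∃ C : ℝ, 0 < C ∧ ∀ N : ℕ, 1 ≤ N →
    1 + (k : ℝ) * Real.log N ≤ C * (N : ℝ) ^ ε := by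
  refine ⟨1 + k / ε, by positivity, ?_⟩
  intro N hN
  have hN1 : (1 : ℝ) ≤ N := by exact_mod_cast hN
  have h1 : Real.log N ≤ (N : ℝ) ^ ε / ε := Real.log_le_rpow_div (by linarith) hε
  have h2 : 1 ≤ (N : ℝ) ^ ε := Real.one_le_rpow hN1 hε.le
  have h3 : (k : ℝ) * Real.log N ≤ k * ((N : ℝ) ^ ε / ε) := mul_le_mul_of_nonneg_left h1 (Nat.cast_nonneg _)
  calc 1 + (k : ℝ) * Real.log N ≤ (N : ℝ) ^ ε + k * ((N : ℝ) ^ ε / ε) := add_le_add h2 h3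
    _ = (1 + k / ε) * (N : ℝ) ^ ε := by ring

end VAR

open VAR in
theorem pVAR (hPW : S_PW) (hVAR1 : S_VAR1) (hQUAD : S_QUAD) (hRSB : S_RSB) (hDIV : S_DIV) : S_VAR := by
  intro k ε hk hε
  have hk0 : (0 : ℝ) < k := by exact_mod_cast hk
  set e1 : ℝ := ε / (8 * k) with he1
  have he1p : 0 < e1 := by positivity
  obtain ⟨C1, hC1, hC1b, _⟩ := hDIV k e1 he1p
  obtain ⟨C2, hC2, hC2b⟩ := log_small k (ε / 8) (by positivity)
  refine ⟨4 * C1 ^ 4 * C2 ^ 4, by positivity, ?_⟩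
  intro N T hN hT
  have hT0 : 0 < T := by linarith
  have hN1 : (1 : ℝ) ≤ N := by exact_mod_cast hN
  have hN0 : (0 : ℝ) < N := by linarith
  set c : ℕ → ℝ := fun m => (b k N m : ℝ) / Real.sqrt m with hc
  have hcnn : ∀ m, 0 ≤ c m := fun m => by
    simp only [hc]
    positivity
  have hJ : ∀ θ, J θ k N T = 1 / T * ∫ t in (0:ℝ)..T, ‖D θ c (N ^ k) t‖ ^ 2 := by
    intro θ
    unfold J
    congr 1
    refine intervalIntegral.integral_congr fun t _ => ?_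
    show ‖S θ N t‖ ^ (2 * k) = ‖D θ c (N ^ k) t‖ ^ 2
    rw [← hPW θ k N t hN, norm_pow, ← pow_mul, mul_comm k 2]
  have hA : A k N = ∑ m ∈ Icc 1 (N ^ k), c m ^ 2 := by
    unfold A
    refine Finset.sum_congr rfl fun m _ => ?_
    simp only [hc]
    rw [div_pow, Real.sq_sqrt (Nat.cast_nonneg _)]
  have h1 : ∫ θ, (J θ k N T - A k N) ^ 2 ∂P ≤ 2 / T * QS c (N ^ k) := by
    have := hVAR1 c (N ^ k) T hcnn hT0
    simp_rw [hJ, hA]
    exact this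
  have hM1 : 1 ≤ N ^ k := Nat.one_le_pow _ _ hN
  set B : ℝ := C1 * ((N : ℝ) ^ k) ^ e1 with hB
  have hBnn : 0 ≤ B := by positivity
  have hcB : ∀ m ∈ Icc 1 (N ^ k), c m ≤ B * (1 / Real.sqrt m) := by
    intro m hm
    rw [Finset.mem_Icc] at hm
    simp only [hc]
    rw [div_eq_mul_one_div]
    refine mul_le_mul_of_nonneg_right ?_ (by positivity)
    refine (hC1b N m hm.1).trans ?_
    refine mul_le_mul_of_nonneg_left ?_ hC1.le
    refine Real.rpow_le_rpow (Nat.cast_nonneg _) ?_ he1p.le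
    exact_mod_cast hm.2
  have h2 := QS_le c B (N ^ k) hcnn hBnn hcB
  obtain ⟨hH0, hH1⟩ := harm (N ^ k) hM1
  set H : ℝ := ∑ g ∈ Icc 1 (N ^ k), 1 / (g : ℝ) with hH
  have h3 : QS (fun m => 1 / Real.sqrt m) (N ^ k) ≤ 2 * H ^ 4 := by
    have e2 := hQUAD (N ^ k)
    have e3 := hRSB (N ^ k)
    calc QS (fun m => 1 / Real.sqrt m) (N ^ k) ≤ H ^ 2 * RS (N ^ k) := e2
      _ ≤ H ^ 2 * (2 * H ^ 2) := mul_le_mul_of_nonneg_left e3 (by positivity)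
      _ = 2 * H ^ 4 := by ring
  have h4 : H ≤ C2 * (N : ℝ) ^ (ε / 8) := by
    refine hH1.trans ?_
    rw [Nat.cast_pow, Real.log_pow]
    exact hC2b N hN
  have h5 : H ^ 4 ≤ C2 ^ 4 * (N : ℝ) ^ (ε / 2) := by
    calc H ^ 4 ≤ (C2 * (N : ℝ) ^ (ε / 8)) ^ 4 := pow_le_pow_left₀ hH0 h4 4
      _ = C2 ^ 4 * ((N : ℝ) ^ (ε / 8)) ^ 4 := by ring
      _ = C2 ^ 4 * (N : ℝ) ^ (ε / 2) := by
          rw [← Real.rpow_natCast ((N : ℝ) ^ (ε / 8)) 4, ← Real.rpow_mul hN0.le]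
          congr 2
          push_cast
          ring
  have h6 : B ^ 4 = C1 ^ 4 * (N : ℝ) ^ (ε / 2) := by
    rw [hB, mul_pow]
    congr 1
    rw [← Real.rpow_natCast (N : ℝ) k, ← Real.rpow_mul hN0.le, ← Real.rpow_natCast _ 4, ← Real.rpow_mul hN0.le]
    congr 1
    rw [he1]
    push_cast
    field_simp
    ring
  have h7 : (N : ℝ) ^ (ε / 2) * (N : ℝ) ^ (ε / 2) = (N : ℝ) ^ ε := by
    rw [← Real.rpow_add hN0]
    congr 1
    ring
  calc ∫ θ, (J θ k N T - A k N) ^ 2 ∂P ≤ 2 / T * QS c (N ^ k) := h1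
    _ ≤ 2 / T * (B ^ 4 * (2 * H ^ 4)) := by
        refine mul_le_mul_of_nonneg_left ?_ (by positivity)
        exact h2.trans (mul_le_mul_of_nonneg_left h3 (by positivity))
    _ ≤ 2 / T * ((C1 ^ 4 * (N : ℝ) ^ (ε / 2)) * (2 * (C2 ^ 4 * (N : ℝ) ^ (ε / 2)))) := by
        rw [h6]
        refine mul_le_mul_of_nonneg_left ?_ (by positivity)
        refine mul_le_mul_of_nonneg_left ?_ (by positivity)
        linarith
    _ = 4 * C1 ^ 4 * C2 ^ 4 * ((N : ℝ) ^ (ε / 2) * (N : ℝ) ^ (ε / 2)) / T := by ring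
    _ = 4 * C1 ^ 4 * C2 ^ 4 * (N : ℝ) ^ ε / T := by rw [h7]

end Pool.Agent.T2H98.RT
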