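import Pool.Agent.T2H98.RT.Stm

/-! package VAR1 -/

set_option autoImplicit false

open MeasureTheory Filter Topology Finset

namespace Pool.Agent.T2H98.RT

namespace VAR1

/-- the averaged exponential -/
noncomputable def kap (T : ℝ) (q : ℕ × ℕ) : ℂ :=
  1 / T * ∫ t in (0:ℝ)..T, Complex.exp (-(t * ((Real.log q.1 - Real.log q.2 : ℝ) : ℂ) * Complex.I))

lemma kap_le (hK : S_KAP) {T : ℝ} (hT : 0 < T) (q : ℕ × ℕ) : ‖kap T q‖ ≤ 1 := by
  unfold kap
  rw [norm_mul]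
  have h1 := (hK (Real.log q.1 - Real.log q.2) T hT).1
  have h2 : ‖(1 / (T : ℂ))‖ = 1 / T := by
    rw [norm_div, norm_one, Complex.norm_real, Real.norm_of_nonneg hT.le]
  rw [h2]
  calc 1 / T * _ ≤ 1 / T * T := by
        apply mul_le_mul_of_nonneg_left h1 (by positivity)
    _ = 1 := by field_simp

lemma kap_le' (hK : S_KAP) {T : ℝ} (hT : 0 < T) (q : ℕ × ℕ) (hq : Real.log q.1 - Real.log q.2 ≠ 0) :
    ‖kap T q‖ ≤ 2 / (T * |Real.log q.1 - Real.log q.2|) := by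
  unfold kap
  rw [norm_mul]
  have h1 := (hK (Real.log q.1 - Real.log q.2) T hT).2 hq
  have h2 : ‖(1 / (T : ℂ))‖ = 1 / T := by
    rw [norm_div, norm_one, Complex.norm_real, Real.norm_of_nonneg hT.le]
  rw [h2]
  calc 1 / T * _ ≤ 1 / T * (2 / |Real.log q.1 - Real.log q.2|) := by
        apply mul_le_mul_of_nonneg_left h1 (by positivity)
    _ = _ := by
        field_simp

lemma kap_diag {T : ℝ} (hT : 0 < T) (m : ℕ) : kap T (m, m) = 1 := by
  unfold kap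
  simp only [sub_self, Complex.ofReal_zero, mul_zero, zero_mul, neg_zero, Complex.exp_zero,
    intervalIntegral.integral_const, sub_zero, Complex.real_smul, mul_one]
  have : (T : ℂ) ≠ 0 := by exact_mod_cast hT.ne'
  field_simp

/-- the coefficient -/
noncomputable def co (c : ℕ → ℝ) (T : ℝ) (q : ℕ × ℕ) : ℂ := (c q.1 : ℂ) * c q.2 * kap T q

/-- the phase -/
noncomputable def ff (θ : ℕ → ℝ) (q : ℕ × ℕ) : ℂ := tw θ q.1 * (starRingEnd ℂ) (tw θ q.2)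

lemma sq_D (θ : ℕ → ℝ) (c : ℕ → ℝ) (M : ℕ) (t : ℝ) :
    ((‖D θ c M t‖ ^ 2 : ℝ) : ℂ) = ∑ q ∈ (Icc 1 M) ×ˢ (Icc 1 M), (c q.1 : ℂ) * c q.2 * ff θ q *
      Complex.exp (-(t * ((Real.log q.1 - Real.log q.2 : ℝ) : ℂ) * Complex.I)) := by
  have h1 : ((‖D θ c M t‖ ^ 2 : ℝ) : ℂ) = D θ c M t * (starRingEnd ℂ) (D θ c M t) := by
    rw [Complex.mul_conj, Complex.normSq_eq_norm_sq]
  rw [h1]
  unfold D
  rw [map_sum, sum_mul_sum, ← sum_product']
  refine sum_congr rfl fun q _ => ?_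
  unfold ff
  rw [map_mul, map_mul, ← Complex.exp_conj]
  simp only [map_neg, map_mul, Complex.conj_ofReal, Complex.conj_I]
  have h2 : Complex.exp (-(t * ((Real.log q.1 - Real.log q.2 : ℝ) : ℂ) * Complex.I)) =
      Complex.exp (-(t * (Real.log q.1 : ℂ) * Complex.I)) * Complex.exp (-(t * (Real.log q.2 : ℂ) * -Complex.I)) := by
    rw [← Complex.exp_add]
    congr 1
    push_cast
    ring
  rw [h2]
  ring

lemma avg (θ : ℕ → ℝ) (c : ℕ → ℝ) (M : ℕ) {T : ℝ} (_hT : 0 < T) :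
    ((1 / T * (∫ t in (0:ℝ)..T, ‖D θ c M t‖ ^ 2) : ℝ) : ℂ) = ∑ q ∈ (Icc 1 M) ×ˢ (Icc 1 M), co c T q * ff θ q := by
  rw [Complex.ofReal_mul, ← intervalIntegral.integral_ofReal]
  have h1 : (fun t : ℝ => ((‖D θ c M t‖ ^ 2 : ℝ) : ℂ)) = fun t : ℝ => ∑ q ∈ (Icc 1 M) ×ˢ (Icc 1 M),
      (c q.1 : ℂ) * c q.2 * ff θ q *
      Complex.exp (-(t * ((Real.log q.1 - Real.log q.2 : ℝ) : ℂ) * Complex.I)) := by
    funext t
    exact sq_D θ c M t
  rw [h1, intervalIntegral.integral_finsetSum]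
  · rw [mul_sum]
    refine sum_congr rfl fun q _ => ?_
    rw [intervalIntegral.integral_const_mul]
    unfold co kap
    push_cast
    ring
  · intro q _
    apply Continuous.intervalIntegrable
    fun_prop

/-- the off-diagonal pairs -/
def off (M : ℕ) : Finset (ℕ × ℕ) := ((Icc 1 M) ×ˢ (Icc 1 M)).filter (fun q => q.1 ≠ q.2)

lemma diff (hM : S_MUL) (θ : ℕ → ℝ) (c : ℕ → ℝ) (M : ℕ) {T : ℝ} (hT : 0 < T) :
    ((1 / T * (∫ t in (0:ℝ)..T, ‖D θ c M t‖ ^ 2) - ∑ m ∈ Icc 1 M, c m ^ 2 : ℝ) : ℂ) =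
      ∑ q ∈ off M, co c T q * ff θ q := by
  rw [Complex.ofReal_sub, avg θ c M hT]
  rw [← sum_filter_add_sum_filter_not ((Icc 1 M) ×ˢ (Icc 1 M)) (fun q : ℕ × ℕ => q.1 ≠ q.2)]
  have h1 : ∑ q ∈ ((Icc 1 M) ×ˢ (Icc 1 M)).filter (fun q : ℕ × ℕ => ¬ q.1 ≠ q.2), co c T q * ff θ q =
      ((∑ m ∈ Icc 1 M, c m ^ 2 : ℝ) : ℂ) := by
    push_cast
    refine sum_nbij' (fun q => q.1) (fun m => (m, m)) ?_ ?_ ?_ ?_ ?_
    · intro q hq
      rw [mem_filter, mem_product] at hq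
      exact hq.1.1
    · intro m hm
      rw [mem_filter, mem_product]
      exact ⟨⟨hm, hm⟩, by simp⟩
    · rintro ⟨a, b⟩ hq
      rw [mem_filter, mem_product] at hq
      simp only [ne_eq, not_not] at hq
      rw [hq.2]
    · intro m _; rfl
    · rintro ⟨a, b⟩ hq
      rw [mem_filter, mem_product] at hq
      simp only [ne_eq, not_not] at hq
      obtain ⟨-, rfl⟩ := hq
      unfold co ff
      rw [kap_diag hT]
      simp only
      rw [Complex.mul_conj, Complex.normSq_eq_norm_sq, hM.2.1 θ a]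
      push_cast
      ring
  rw [h1]
  unfold off
  ring

lemma ff_cont (hM : S_MUL) (q : ℕ × ℕ) : Continuous fun θ : ℕ → ℝ => ff θ q := by
  unfold ff
  exact (hM.2.2.2 q.1).mul (Complex.continuous_conj.comp (hM.2.2.2 q.2))

lemma ff_norm (hM : S_MUL) (θ : ℕ → ℝ) (q : ℕ × ℕ) : ‖ff θ q‖ = 1 := by
  unfold ff
  rw [norm_mul, RCLike.norm_conj, hM.2.1, hM.2.1, mul_one]

lemma ff_int (hM : S_MUL) (hO : S_OR) (q q' : ℕ × ℕ) (h1 : q.1 ≠ 0) (h2 : q.2 ≠ 0) (h3 : q'.1 ≠ 0) (h4 : q'.2 ≠ 0) :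
    ∫ θ, ff θ q * (starRingEnd ℂ) (ff θ q') ∂P = if q.1 * q'.2 = q'.1 * q.2 then 1 else 0 := by
  rw [← hO (q.1 * q'.2) (q'.1 * q.2) (Nat.mul_ne_zero h1 h4) (Nat.mul_ne_zero h3 h2)]
  congr 1
  funext θ
  rw [hM.1 θ _ _ h1 h4, hM.1 θ _ _ h3 h2]
  unfold ff
  simp only [map_mul, Complex.conj_conj]
  ring

lemma term_integrable (hM : S_MUL) (a : ℂ) (q q' : ℕ × ℕ) :
    Integrable (fun θ : ℕ → ℝ => a * (ff θ q * (starRingEnd ℂ) (ff θ q'))) P := by
  apply Integrable.const_mul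
  have hc : Continuous fun θ : ℕ → ℝ => ff θ q * (starRingEnd ℂ) (ff θ q') :=
    (ff_cont hM q).mul (Complex.continuous_conj.comp (ff_cont hM q'))
  refine Integrable.of_bound hc.aestronglyMeasurable 1 (Filter.Eventually.of_forall fun θ => ?_)
  rw [norm_mul, RCLike.norm_conj, ff_norm hM, ff_norm hM, mul_one]

lemma expand (hM : S_MUL) (c : ℕ → ℝ) (M : ℕ) {T : ℝ} (hT : 0 < T) :
    ((∫ θ, (1 / T * (∫ t in (0:ℝ)..T, ‖D θ c M t‖ ^ 2) - ∑ m ∈ Icc 1 M, c m ^ 2) ^ 2 ∂P : ℝ) : ℂ) =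
      ∑ w ∈ off M ×ˢ off M, co c T w.1 * (starRingEnd ℂ) (co c T w.2) *
        ∫ θ, ff θ w.1 * (starRingEnd ℂ) (ff θ w.2) ∂P := by
  rw [← integral_complex_ofReal]
  have h1 : (fun θ : ℕ → ℝ => ((((1 / T * (∫ t in (0:ℝ)..T, ‖D θ c M t‖ ^ 2) - ∑ m ∈ Icc 1 M, c m ^ 2) ^ 2 : ℝ)) : ℂ)) =
      fun θ => ∑ w ∈ off M ×ˢ off M, (co c T w.1 * (starRingEnd ℂ) (co c T w.2)) *
        (ff θ w.1 * (starRingEnd ℂ) (ff θ w.2)) := by
    funext θ
    have h2 := diff hM θ c M hT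
    have h3 : ((((1 / T * (∫ t in (0:ℝ)..T, ‖D θ c M t‖ ^ 2) - ∑ m ∈ Icc 1 M, c m ^ 2) ^ 2 : ℝ)) : ℂ) =
        ((1 / T * (∫ t in (0:ℝ)..T, ‖D θ c M t‖ ^ 2) - ∑ m ∈ Icc 1 M, c m ^ 2 : ℝ) : ℂ) *
        (starRingEnd ℂ) ((1 / T * (∫ t in (0:ℝ)..T, ‖D θ c M t‖ ^ 2) - ∑ m ∈ Icc 1 M, c m ^ 2 : ℝ) : ℂ) := by
      rw [Complex.conj_ofReal, Complex.ofReal_pow, sq]
    rw [h3, h2, map_sum, sum_mul_sum, ← sum_product']
    refine sum_congr rfl fun w _ => ?_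
    rw [map_mul]
    ring
  rw [h1, integral_finsetSum]
  · refine sum_congr rfl fun w _ => ?_
    exact integral_const_mul _ _
  · intro w _
    exact term_integrable hM _ _ _

lemma log_ne {a b : ℕ} (ha : 1 ≤ a) (hb : 1 ≤ b) (hab : a ≠ b) : Real.log a - Real.log b ≠ 0 := by
  intro h
  apply hab
  have h1 : Real.log a = Real.log b := sub_eq_zero.1 h
  have h2 := Real.log_injOn_pos (Set.mem_Ioi.2 (by exact_mod_cast ha)) (Set.mem_Ioi.2 (by exact_mod_cast hb)) h1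
  exact_mod_cast h2

end VAR1

open VAR1 in
theorem pVAR1 (hMUL : S_MUL) (hOR : S_OR) (hKAP : S_KAP) : S_VAR1 := by
  intro c M T hc hT
  set L := ∫ θ, (1 / T * (∫ t in (0:ℝ)..T, ‖D θ c M t‖ ^ 2) - ∑ m ∈ Icc 1 M, c m ^ 2) ^ 2 ∂P with hL
  have hL0 : 0 ≤ L := integral_nonneg fun θ => sq_nonneg _
  have h1 : L = ‖(L : ℂ)‖ := by
    rw [Complex.norm_real, Real.norm_of_nonneg hL0]
  rw [h1, hL, expand hMUL c M hT]
  refine (norm_sum_le _ _).trans ?_
  have hkey : ∀ w ∈ off M ×ˢ off M, ‖co c T w.1 * (starRingEnd ℂ) (co c T w.2) *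
        ∫ θ, ff θ w.1 * (starRingEnd ℂ) (ff θ w.2) ∂P‖ ≤
        if w.1.1 * w.2.2 = w.2.1 * w.1.2 then
          2 / T * (c w.1.1 * c w.1.2 * (c w.2.1 * c w.2.2) / |Real.log w.1.1 - Real.log w.1.2|) else 0 := by
    rintro ⟨⟨m, n⟩, ⟨m', n'⟩⟩ hw
    rw [mem_product] at hw
    unfold off at hw
    simp only [mem_filter, mem_product, mem_Icc] at hw
    obtain ⟨⟨⟨⟨a1, a2⟩, b1, b2⟩, hne⟩, ⟨⟨a3, a4⟩, b3, b4⟩, hne'⟩ := hw
    rw [ff_int hMUL hOR _ _ (by simp only; omega) (by simp only; omega) (by simp only; omega) (by simp only; omega)]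
    simp only
    split_ifs with h
    · rw [mul_one, norm_mul, RCLike.norm_conj]
      unfold co
      rw [norm_mul, norm_mul, norm_mul, norm_mul, Complex.norm_real, Complex.norm_real, Complex.norm_real,
        Complex.norm_real]
      simp only
      rw [Real.norm_of_nonneg (hc _), Real.norm_of_nonneg (hc _), Real.norm_of_nonneg (hc _),
        Real.norm_of_nonneg (hc _)]
      have k1 := kap_le' hKAP hT (m, n) (log_ne a1 b1 hne)
      have k2 := kap_le hKAP hT (m', n')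
      simp only at k1
      have hpos : 0 < |Real.log (m : ℝ) - Real.log n| := abs_pos.2 (log_ne a1 b1 hne)
      have c1 := hc m
      have c2 := hc n
      have c3 := hc m'
      have c4 := hc n'
      calc c m * c n * ‖kap T (m, n)‖ * (c m' * c n' * ‖kap T (m', n')‖) ≤
          c m * c n * (2 / (T * |Real.log (m : ℝ) - Real.log n|)) * (c m' * c n' * 1) := by
            apply mul_le_mul
            · exact mul_le_mul_of_nonneg_left k1 (by positivity)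
            · exact mul_le_mul_of_nonneg_left k2 (by positivity)
            · positivity
            · positivity
        _ = _ := by
            field_simp
    · simp
  refine (sum_le_sum hkey).trans ?_
  rw [← sum_filter, ← mul_sum]
  apply mul_le_mul_of_nonneg_left _ (by positivity)
  unfold QS
  apply sum_le_sum_of_subset_of_nonneg
  · rintro ⟨⟨m, n⟩, ⟨m', n'⟩⟩ hw
    unfold off at hw
    unfold quads
    simp only [mem_filter, mem_product, mem_Icc] at hw ⊢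
    exact ⟨⟨hw.1.1.1, hw.1.2.1⟩, hw.2, hw.1.1.2⟩
  · intro w _ _
    have c1 := hc w.1.1
    have c2 := hc w.1.2
    have c3 := hc w.2.1
    have c4 := hc w.2.2
    positivity

end Pool.Agent.T2H98.RT
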