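import Pool.Agent.T2H98.RT.Stm
import Pool.Agent.TH572.Saw4846
import Pool.Agent.TH547.FM.NS

set_option autoImplicit false

open MeasureTheory Filter Topology Finset

namespace Pool.Agent.T2H98.RT

namespace ZL

open Pool.Agent.TH158.FM (pt KK TT saw_all ns_all)
open Complex

theorem sq (M : ℕ) : ∑ m ∈ Finset.Icc 1 (M + 1), 1 / (m : ℝ) ^ 2 ≤ 2 - 1 / ((M : ℝ) + 1) := by
  induction M with
  | zero => norm_num
  | succ M ih =>
    rw [Finset.sum_Icc_succ_top (by omega)]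
    have h : 1 / (((M + 1 + 1 : ℕ) : ℝ)) ^ 2 ≤ 1 / ((M : ℝ) + 1) - 1 / (((M + 1 : ℕ) : ℝ) + 1) := by
      push_cast
      have h0 : (0 : ℝ) ≤ M := Nat.cast_nonneg M
      rw [div_sub_div _ _ (by positivity) (by positivity), div_le_div_iff₀ (by positivity)
        (by positivity)]
      nlinarith
    linarith

theorem sq' (M : ℕ) : ∑ m ∈ Finset.Icc 1 M, 1 / (m : ℝ) ^ 2 ≤ 2 := by
  rcases M with _ | M
  · simp
  · have h := sq M
    have h0 : (0 : ℝ) < (M : ℝ) + 1 := by positivity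
    have h1 : 0 < 1 / ((M : ℝ) + 1) := by positivity
    linarith

theorem term (u : ℝ) (X m : ℕ) (hX : 1 ≤ X) (hm : 1 ≤ m) (hu0 : 0 < u) (huX : u ≤ 4 * X) :
    ‖TT m X u‖ ≤ (2 / Real.sqrt X) * (1 / (m : ℝ) ^ 2) := by
  have hX0 : (0 : ℝ) < X := by exact_mod_cast hX
  have hX1 : (1 : ℝ) ≤ X := by exact_mod_cast hX
  have hm0 : (0 : ℝ) < m := by exact_mod_cast hm
  have hm1 : (1 : ℝ) ≤ m := by exact_mod_cast hm
  set q := Real.sqrt X with hq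
  have hq0 : 0 < q := Real.sqrt_pos.2 hX0
  have hpi : 3 < Real.pi := Real.pi_gt_three
  have hmX : (X : ℝ) ≤ m * X := by nlinarith
  have h6 : 6 * (m * X : ℝ) ≤ 2 * Real.pi * m * X := by
    have h2 : 0 < (m * X : ℝ) := by positivity
    nlinarith
  have hlow : 2 * (m * X : ℝ) ≤ 2 * Real.pi * m * X - u := by linarith
  have hlow2 : 2 * (m * X : ℝ) ≤ 2 * Real.pi * m * X + u := by linarith
  have hmX0 : 0 < (m * X : ℝ) := by positivity
  have hlt : u < 2 * Real.pi * m * X := by linarith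
  have k1 : ‖KK m X u‖ ≤ 2 / (q * (2 * (m * X))) := by
    refine (ns_all.1 u X m hX0 hm hu0 hlt).trans ?_
    rw [← hq]
    gcongr
  have k2 : ‖KK (-m) X u‖ ≤ 2 / (q * (2 * (m * X))) := by
    refine (ns_all.2 u X m hX0 hm hu0.le).trans ?_
    rw [← hq]
    gcongr
  have hs : ‖pt (1 / 2) u‖ ≤ 5 * X := by
    unfold pt
    refine (norm_add_le _ _).trans ?_
    rw [norm_mul, Complex.norm_I, mul_one, Complex.norm_real, Complex.norm_real, Real.norm_eq_abs,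
      Real.norm_eq_abs, abs_of_pos hu0, abs_of_pos (by norm_num : (0 : ℝ) < 1 / 2)]
    linarith
  have hd : ‖(2 * Real.pi * I * m : ℂ)‖ = 2 * Real.pi * m := by
    rw [norm_mul, norm_mul, norm_mul, Complex.norm_I, Complex.norm_real, Complex.norm_natCast,
      Real.norm_eq_abs, abs_of_pos Real.pi_pos]
    simp
  unfold TT
  rw [norm_mul, norm_div, hd]
  have k3 : ‖KK m X u - KK (-m) X u‖ ≤ 4 / (q * (2 * (m * X))) := by
    refine (norm_sub_le _ _).trans ?_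
    have : (4 : ℝ) / (q * (2 * (m * X))) = 2 / (q * (2 * (m * X))) + 2 / (q * (2 * (m * X))) := by
      ring
    rw [this]
    exact add_le_add k1 k2
  have k4 : ‖pt (1 / 2) u‖ / (2 * Real.pi * m) ≤ 5 * X / (6 * m) := by
    gcongr
    linarith
  calc ‖pt (1 / 2) u‖ / (2 * Real.pi * m) * ‖KK m X u - KK (-m) X u‖
      ≤ 5 * X / (6 * m) * (4 / (q * (2 * (m * X)))) := by gcongr
    _ = (5 / 3) * (1 / q * (1 / (m : ℝ) ^ 2)) := by field_simp; ring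
    _ ≤ 2 * (1 / q * (1 / (m : ℝ) ^ 2)) := by
        have : 0 ≤ 1 / q * (1 / (m : ℝ) ^ 2) := by positivity
        linarith
    _ = (2 / q) * (1 / (m : ℝ) ^ 2) := by field_simp

theorem pw (u : ℝ) (X : ℕ) (hX : 1 ≤ X) (hXu : (X : ℝ) ≤ u) (huX : u ≤ 4 * X) :
    ‖riemannZeta (1 / 2 + I * (u : ℂ)) - ∑ n ∈ Finset.Icc 1 X, (n : ℂ) ^ (-(1 / 2 + I * (u : ℂ)))‖ ≤ 8 := by
  have hX0 : (0 : ℝ) < X := by exact_mod_cast hX
  have hX1 : (1 : ℝ) ≤ X := by exact_mod_cast hX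
  have hu0 : 0 < u := by linarith
  have hXpos : 0 < X := hX
  set q := Real.sqrt X with hq
  have hq0 : 0 < q := Real.sqrt_pos.2 hX0
  have hq1 : 1 ≤ q := by
    rw [hq]
    exact Real.one_le_sqrt.2 hX1
  have hqX : q ^ 2 = X := Real.sq_sqrt hX0.le
  have hs : pt (1 / 2) u = 1 / 2 + I * (u : ℂ) := by
    unfold pt; push_cast; ring
  have hsaw := saw_all u X hX0
  rw [Nat.floor_natCast, Int.fract_natCast, hs] at hsaw
  rw [Complex.ofReal_natCast] at hsaw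
  set s : ℂ := 1 / 2 + I * (u : ℂ) with hsd
  have hre : s.re = 1 / 2 := by simp [hsd]
  have him : s.im = u := by simp [hsd]
  have hlim : ‖riemannZeta s - ∑ n ∈ Finset.Icc 1 X, (n : ℂ) ^ (-s) +
      (X : ℂ) ^ (1 - s) / (1 - s) - ((0 - 1 / 2 : ℝ) : ℂ) * (X : ℂ) ^ (-s)‖ ≤ 4 / q := by
    refine le_of_tendsto hsaw.norm (Eventually.of_forall fun M => ?_)
    refine (norm_sum_le _ _).trans ?_
    calc ∑ m ∈ Finset.Icc 1 M, ‖TT m X u‖
        ≤ ∑ m ∈ Finset.Icc 1 M, (2 / q) * (1 / (m : ℝ) ^ 2) :=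
          Finset.sum_le_sum fun m hm => term u X m hX (Finset.mem_Icc.1 hm).1 hu0 huX
      _ = (2 / q) * ∑ m ∈ Finset.Icc 1 M, 1 / (m : ℝ) ^ 2 := by rw [Finset.mul_sum]
      _ ≤ (2 / q) * 2 := by
          have := sq' M
          gcongr
      _ = 4 / q := by ring
  have n1 : ‖(X : ℂ) ^ (-s)‖ = 1 / q := by
    rw [Complex.norm_natCast_cpow_of_pos hXpos, Complex.neg_re, hre, Real.rpow_neg hX0.le, hq,
      Real.sqrt_eq_rpow]
    exact (one_div _).symm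
  have n2 : ‖(X : ℂ) ^ (1 - s)‖ = q := by
    rw [Complex.norm_natCast_cpow_of_pos hXpos, Complex.sub_re, hre, hq, Real.sqrt_eq_rpow]
    norm_num
  have hs1n : u ≤ ‖1 - s‖ := by
    have h1 := Complex.abs_im_le_norm (1 - s)
    have h2 : (1 - s).im = -u := by rw [Complex.sub_im, him]; simp
    rw [h2, abs_neg, abs_of_nonneg hu0.le] at h1
    exact h1
  have b2 : ‖(X : ℂ) ^ (1 - s) / (1 - s)‖ ≤ 1 := by
    rw [norm_div, n2, div_le_one (by linarith)]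
    refine le_trans ?_ hs1n
    nlinarith
  have b3 : ‖((0 - 1 / 2 : ℝ) : ℂ) * (X : ℂ) ^ (-s)‖ = 1 / (2 * q) := by
    rw [norm_mul, n1, Complex.norm_real, Real.norm_eq_abs]
    rw [show |(0 - 1 / 2 : ℝ)| = 1 / 2 by norm_num]
    field_simp
  have e0 : riemannZeta s - ∑ n ∈ Finset.Icc 1 X, (n : ℂ) ^ (-s) =
      (riemannZeta s - ∑ n ∈ Finset.Icc 1 X, (n : ℂ) ^ (-s) +
      (X : ℂ) ^ (1 - s) / (1 - s) - ((0 - 1 / 2 : ℝ) : ℂ) * (X : ℂ) ^ (-s)) -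
      (X : ℂ) ^ (1 - s) / (1 - s) + ((0 - 1 / 2 : ℝ) : ℂ) * (X : ℂ) ^ (-s) := by
    ring
  rw [e0]
  refine (norm_add_le _ _).trans ?_
  rw [b3]
  have t1 := norm_sub_le (riemannZeta s - ∑ n ∈ Finset.Icc 1 X, (n : ℂ) ^ (-s) +
      (X : ℂ) ^ (1 - s) / (1 - s) - ((0 - 1 / 2 : ℝ) : ℂ) * (X : ℂ) ^ (-s))
      ((X : ℂ) ^ (1 - s) / (1 - s))
  have c1 : 4 / q ≤ 4 := by
    rw [div_le_iff₀ hq0]
    linarith
  have c2 : 1 / (2 * q) ≤ 1 := by
    rw [div_le_one (by positivity)]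
    linarith
  linarith

end ZL

theorem pZL : S_ZL := by
  refine ⟨8, ?_⟩
  intro T t hT hTt ht2
  have hX : 1 ≤ ⌊T⌋₊ := Nat.le_floor (by exact_mod_cast hT)
  have h1 : ((⌊T⌋₊ : ℕ) : ℝ) ≤ T := Nat.floor_le (by linarith)
  have h2 : T < (⌊T⌋₊ : ℝ) + 1 := Nat.lt_floor_add_one T
  have hX1 : (1 : ℝ) ≤ (⌊T⌋₊ : ℝ) := by exact_mod_cast hX
  have h := ZL.pw t ⌊T⌋₊ hX (by linarith) (by linarith)
  have e1 : (1 / 2 + (t : ℂ) * Complex.I) = 1 / 2 + Complex.I * (t : ℂ) := by ring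
  have e2 : S 0 ⌊T⌋₊ t = ∑ n ∈ Finset.Icc 1 ⌊T⌋₊, (n : ℂ) ^ (-(1 / 2 + Complex.I * (t : ℂ))) := by
    unfold S
    apply Finset.sum_congr rfl
    intro n _
    have e3 : tw 0 n = 1 := by
      unfold tw ph
      simp
    rw [e3, one_mul]
    congr 1
    ring
  rw [e1, e2]
  exact h

end Pool.Agent.T2H98.RT
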