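import Pool.Agent.T2H98.RT.Stm

/-!
# Package ZP: the Euler product of the zeta function at `1 + x`
-/

set_option autoImplicit false

open MeasureTheory Filter Topology Finset

namespace Pool.Agent.T2H98.RT

namespace ZP

/-- `n ↦ n ^ (-1 - x)` -/
noncomputable def pw (x : ℝ) (hx : 0 < x) : ℕ →*₀ ℝ where
  toFun n := (n : ℝ) ^ (-1 - x)
  map_zero' := by
    rw [Nat.cast_zero, Real.zero_rpow (by linarith)]
  map_one' := by
    rw [Nat.cast_one, Real.one_rpow]
  map_mul' m n := by
    rw [Nat.cast_mul, Real.mul_rpow (Nat.cast_nonneg _) (Nat.cast_nonneg _)]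

theorem pw_apply (x : ℝ) (hx : 0 < x) (n : ℕ) : pw x hx n = (n : ℝ) ^ (-1 - x) := rfl

theorem summ (x : ℝ) (hx : 0 < x) : Summable (fun n : ℕ => (n : ℝ) ^ (-1 - x)) :=
  Real.summable_nat_rpow.mpr (by linarith)

end ZP

open ZP in
theorem pZP : S_ZP := by
  refine ⟨fun x => ∑' n : ℕ, (n : ℝ) ^ (-1 - x), ?_, ?_⟩
  · intro x hx
    constructor
    · apply (summ x hx).tsum_pos (fun n => Real.rpow_nonneg (Nat.cast_nonneg _) _) 1
      rw [Nat.cast_one, Real.one_rpow]
      exact one_pos
    · have hs : Summable (fun n : ℕ => ‖pw x hx n‖) := by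
        refine (summ x hx).congr ?_
        intro n
        rw [pw_apply, Real.norm_of_nonneg (Real.rpow_nonneg (Nat.cast_nonneg _) _)]
      exact EulerProduct.eulerProduct_completely_multiplicative_hasProd hs
  · have h1 : Tendsto (fun x : ℝ => 1 + x) (𝓝[>] 0) (𝓝[>] 1) := by
      apply tendsto_nhdsWithin_of_tendsto_nhds_of_eventually_within
      · have h2 : Tendsto (fun x : ℝ => 1 + x) (𝓝 0) (𝓝 (1 + 0)) :=
          (continuous_const.add continuous_id).tendsto 0
        rw [add_zero] at h2
        exact h2.mono_left nhdsWithin_le_nhds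
      · filter_upwards [self_mem_nhdsWithin] with x hx
        have hx' : 0 < x := hx
        show 1 < 1 + x
        linarith
    refine (tendsto_sub_mul_tsum_nat_rpow.comp h1).congr ?_
    intro x
    simp only [Function.comp_apply]
    rw [add_sub_cancel_left]
    congr 1
    apply tsum_congr
    intro n
    rw [one_div, ← Real.rpow_neg (Nat.cast_nonneg _)]
    congr 1
    ring

end Pool.Agent.T2H98.RT
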