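import Pool.Agent.T2H98.RT.EQV
import Pool.Agent.T2H98.RT.AE
import Pool.Agent.T2H98.RT.AKP
import Pool.Agent.T2H98.RT.AL
import Pool.Agent.T2H98.RT.CUT
import Pool.Agent.T2H98.RT.DIV
import Pool.Agent.T2H98.RT.DKP
import Pool.Agent.T2H98.RT.EL
import Pool.Agent.T2H98.RT.EUL
import Pool.Agent.T2H98.RT.FIN
import Pool.Agent.T2H98.RT.GRD
import Pool.Agent.T2H98.RT.INTN
import Pool.Agent.T2H98.RT.INTT
import Pool.Agent.T2H98.RT.JM
import Pool.Agent.T2H98.RT.KAP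
import Pool.Agent.T2H98.RT.KAR1
import Pool.Agent.T2H98.RT.KAR2
import Pool.Agent.T2H98.RT.LAP
import Pool.Agent.T2H98.RT.LIM
import Pool.Agent.T2H98.RT.LOC1
import Pool.Agent.T2H98.RT.LOC2
import Pool.Agent.T2H98.RT.MEA
import Pool.Agent.T2H98.RT.MEAN
import Pool.Agent.T2H98.RT.MU1
import Pool.Agent.T2H98.RT.MU2
import Pool.Agent.T2H98.RT.MUL
import Pool.Agent.T2H98.RT.NU
import Pool.Agent.T2H98.RT.NUL0
import Pool.Agent.T2H98.RT.OR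
import Pool.Agent.T2H98.RT.PLIM
import Pool.Agent.T2H98.RT.POS
import Pool.Agent.T2H98.RT.PW
import Pool.Agent.T2H98.RT.QUAD
import Pool.Agent.T2H98.RT.RSB
import Pool.Agent.T2H98.RT.SGM
import Pool.Agent.T2H98.RT.SH
import Pool.Agent.T2H98.RT.SW
import Pool.Agent.T2H98.RT.VAR
import Pool.Agent.T2H98.RT.VAR1
import Pool.Agent.T2H98.RT.ZL
import Pool.Agent.T2H98.RT.ZP

set_option autoImplicit false

namespace Pool.Agent.T2H98.RT

theorem vVAR : S_VAR := pVAR (pPW pMUL) (pVAR1 pMUL pOR pKAP) pQUAD pRSB pDIV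
theorem vJM : S_JM := pJM pMUL
theorem vGRD : S_GRD := pGRD pAE vVAR vJM
theorem vINTT : S_INTT := pINTT pAL vJM
theorem vINTN : S_INTN := pINTN (pPW pMUL) (pMEAN pMUL pOR) vJM pAL pEL (pSH pMUL)
theorem vEUL : S_EUL := pEUL (pSGM pDIV)
theorem vLOC1 : S_LOC1 := pLOC1 pDKP
theorem vPLIM : S_PLIM := pPLIM vLOC1 (pLOC2 pDKP)
theorem vLAP : S_LAP := pLAP vEUL vLOC1 vPLIM pZP
theorem vKAR2 : S_KAR2 := pKAR2 (pKAR1 pSW) pCUT
theorem vNU : S_NU := pNU pMEA pNUL pAKP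
theorem vLIM : S_LIM := pLIM vLAP vKAR2 (pMU1 vEUL) pMU2 vNU
theorem vFIN : S_FIN := pFIN vGRD vINTT vINTN vLIM pPOS pAKP pAL vJM
theorem vEQV : S_EQV := pEQV pZL

end Pool.Agent.T2H98.RT
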