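import Pool.Agent.T2H98.RT.Stm

set_option autoImplicit false

open MeasureTheory Filter Topology Finset

namespace Pool.Agent.T2H98.RT

theorem pKAP : S_KAP := by
  intro a T hT
  have hn : ∀ t : ℝ, ‖Complex.exp (-(t * a * Complex.I))‖ = 1 := by
    intro t
    have h1 : -((t : ℂ) * a * Complex.I) = ((-(t * a) : ℝ) : ℂ) * Complex.I := by
      push_cast
      ring
    rw [h1, Complex.norm_exp_ofReal_mul_I]
  refine ⟨?_, fun ha => ?_⟩
  · have h := intervalIntegral.norm_integral_le_of_norm_le_const (a := (0:ℝ)) (b := T) (C := 1)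
      (f := fun t : ℝ => Complex.exp (-(t * a * Complex.I))) (fun t _ => (hn t).le)
    rwa [one_mul, sub_zero, abs_of_pos hT] at h
  · have hc : (-(a * Complex.I) : ℂ) ≠ 0 := by
      simp [ha]
    have h1 : ∫ t in (0:ℝ)..T, Complex.exp (-(t * a * Complex.I)) =
        ∫ t in (0:ℝ)..T, Complex.exp ((-(a * Complex.I)) * t) := by
      congr 1
      funext t
      congr 1
      ring
    rw [h1, integral_exp_mul_complex hc, norm_div]
    have h2 : ‖(-(a * Complex.I) : ℂ)‖ = |a| := by
      rw [norm_neg, norm_mul, Complex.norm_I, mul_one, Complex.norm_real, Real.norm_eq_abs]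
    rw [h2]
    apply div_le_div_of_nonneg_right _ (abs_nonneg a)
    refine (norm_sub_le _ _).trans ?_
    have h3 : ∀ t : ℝ, ‖Complex.exp (-(a * Complex.I) * t)‖ = 1 := by
      intro t
      rw [← hn t]
      congr 2
      ring
    have h4 := h3 T
    have h5 := h3 0
    rw [h4, h5]
    norm_num

end Pool.Agent.T2H98.RT
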