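import Mathlib

/-!
Project RT: high moments of zeta for almost every random completely multiplicative twist (definitions).
-/

set_option autoImplicit false

open MeasureTheory Filter Topology

namespace Pool.Agent.T2H98.RT

/-- the uniform law on `[0, 1]` -/
noncomputable def uni : Measure ℝ := volume.restrict (Set.Icc (0 : ℝ) 1)

instance : IsProbabilityMeasure uni := ⟨by simp [uni]⟩

/-- the law of a sequence of independent angles `θ_n`, uniform in `[0, 1]` (only `θ_p`, `p` prime, is used) -/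
noncomputable def P : Measure (ℕ → ℝ) := Measure.infinitePi fun _ : ℕ => uni

instance : IsProbabilityMeasure P := by unfold P; infer_instance

/-- `∑_p v_p(n) θ_p` -/
noncomputable def ph (θ : ℕ → ℝ) (n : ℕ) : ℝ := ∑ p ∈ n.primeFactors, (n.factorization p : ℝ) * θ p

/-- the completely multiplicative function `f` with `f(p) = e^{2πiθ_p}` -/
noncomputable def tw (θ : ℕ → ℝ) (n : ℕ) : ℂ := Complex.exp (2 * Real.pi * ph θ n * Complex.I)

/-- the twisted zeta sum `∑_{n ≤ N} f(n) n^{-1/2-it}` -/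
noncomputable def S (θ : ℕ → ℝ) (N : ℕ) (t : ℝ) : ℂ :=
  ∑ n ∈ Finset.Icc 1 N, tw θ n * (n : ℂ) ^ (-(1 / 2 : ℂ) - t * Complex.I)

/-- the moment `(1/T) ∫_0^T |S|^{2k} dt` -/
noncomputable def J (θ : ℕ → ℝ) (k N : ℕ) (T : ℝ) : ℝ := 1 / T * ∫ t in (0:ℝ)..T, ‖S θ N t‖ ^ (2 * k)

/-- the number of `v ∈ [1,N]^k` with product `m` -/
noncomputable def b (k N m : ℕ) : ℕ :=
  ((Fintype.piFinset fun _ : Fin k => Finset.Icc 1 N).filter fun v => ∏ i, v i = m).card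

/-- `A_k(N) = ∑_m b(m)^2 / m`, the sum of `1 / ∏ v` over the `v, w ∈ [1,N]^k` with `∏ v = ∏ w` -/
noncomputable def A (k N : ℕ) : ℝ := ∑ m ∈ Finset.Icc 1 (N ^ k), (b k N m : ℝ) ^ 2 / m

/-- a twisted Dirichlet polynomial `∑_{m ≤ M} c_m f(m) m^{-it}` -/
noncomputable def D (θ : ℕ → ℝ) (c : ℕ → ℝ) (M : ℕ) (t : ℝ) : ℂ :=
  ∑ m ∈ Finset.Icc 1 M, (c m : ℂ) * tw θ m * Complex.exp (-(t * Real.log m * Complex.I))

/-- the quadruples `((m,n),(m',n'))` in `[1,M]` with `m n' = m' n`, `m ≠ n` -/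
def quads (M : ℕ) : Finset ((ℕ × ℕ) × (ℕ × ℕ)) :=
  (((Finset.Icc 1 M) ×ˢ (Finset.Icc 1 M)) ×ˢ ((Finset.Icc 1 M) ×ˢ (Finset.Icc 1 M))).filter
    fun q => q.1.1 * q.2.2 = q.2.1 * q.1.2 ∧ q.1.1 ≠ q.1.2

/-- `∑ c_m c_n c_{m'} c_{n'} / |log m - log n|` over the quadruples -/
noncomputable def QS (c : ℕ → ℝ) (M : ℕ) : ℝ :=
  ∑ q ∈ quads M, c q.1.1 * c q.1.2 * (c q.2.1 * c q.2.2) / |Real.log q.1.1 - Real.log q.1.2|

/-- `∑ 1 / (r s |log r - log s|)` over `r ≠ s` in `[1, M]` -/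
noncomputable def RS (M : ℕ) : ℝ :=
  ∑ q ∈ ((Finset.Icc 1 M) ×ˢ (Finset.Icc 1 M)).filter (fun q => q.1 ≠ q.2),
    1 / ((q.1 : ℝ) * q.2 * |Real.log q.1 - Real.log q.2|)

/-- the arithmetic factor `a(k)` of the moment conjecture; `(m+k-1).choose m = d_k(p^m)` -/
noncomputable def aK (k : ℕ) : ℝ :=
  ∏' p : Nat.Primes, ((1 - 1 / (p : ℝ)) ^ (k ^ 2) *
    ∑' m : ℕ, ((m + k - 1).choose m : ℝ) ^ 2 * (1 / (p : ℝ)) ^ m)

/-- the polytope of the substochastic `k × k` matrices -/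
def polyt (k : ℕ) : Set (Fin k → Fin k → ℝ) :=
  {x | (∀ i j, 0 ≤ x i j) ∧ (∀ i, ∑ j, x i j ≤ 1) ∧ ∀ j, ∑ i, x i j ≤ 1}

/-- the constant `γ_k = a(k) vol(P_k)` -/
noncomputable def gam (k : ℕ) : ℝ := aK k * (volume (polyt k)).toReal

/-- `σ_s(m) = ∑_{v_1 ... v_k = m} ∏ v_i^{-s_i}` -/
noncomputable def sg (k : ℕ) (s : Fin k → ℝ) (m : ℕ) : ℝ :=
  ∑ v ∈ Nat.finMulAntidiag k m, ∏ i, (v i : ℝ) ^ (-s i)

/-- the local factor `∑_m σ_s(p^m) σ_z(p^m) p^{-m}` -/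
noncomputable def Lp (k : ℕ) (s z : Fin k → ℝ) (p : ℕ) : ℝ :=
  ∑' m : ℕ, sg k s (p ^ m) * sg k z (p ^ m) * (1 / (p : ℝ)) ^ m

/-- the regularised local factor -/
noncomputable def Rp (k : ℕ) (s z : Fin k → ℝ) (p : ℕ) : ℝ :=
  (∏ i, ∏ j, (1 - (p : ℝ) ^ (-1 - s i - z j))) * Lp k s z p

end Pool.Agent.T2H98.RT

namespace Pool.Agent.T2H98.RT

open MeasureTheory

/-- the measure `∑ (1/∏v) δ_(log v, log w)` over the positive `v, w` with `∏ v = ∏ w` -/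
noncomputable def mu (k : ℕ) : Measure (Fin k ⊕ Fin k → ℝ) :=
  Measure.sum fun q : (Fin k → ℕ) × (Fin k → ℕ) =>
    (if (∀ i, q.1 i ≠ 0) ∧ (∀ i, q.2 i ≠ 0) ∧ ∏ i, q.1 i = ∏ i, q.2 i then
      ENNReal.ofReal (1 / ∏ i, (q.1 i : ℝ)) else 0) •
    Measure.dirac (fun a : Fin k ⊕ Fin k => Real.log (Sum.elim q.1 q.2 a : ℕ))

/-- row sums and column sums of a matrix -/
def rc (k : ℕ) (x : Fin k → Fin k → ℝ) : Fin k ⊕ Fin k → ℝ :=
  Sum.elim (fun i => ∑ j, x i j) (fun j => ∑ i, x i j)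

/-- the nonnegative matrices -/
def orth (k : ℕ) : Set (Fin k → Fin k → ℝ) := {x | ∀ i j, 0 ≤ x i j}

/-- `a(k)` times the image of Lebesgue measure on the nonnegative matrices under `rc` -/
noncomputable def nu (k : ℕ) : Measure (Fin k ⊕ Fin k → ℝ) :=
  ENNReal.ofReal (aK k) • (volume.restrict (orth k)).map (rc k)

end Pool.Agent.T2H98.RT
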