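import Pool.Agent.T2H98.RT.Stm

set_option autoImplicit false

open MeasureTheory Filter Topology

namespace Pool.Agent.T2H98.RT

/-- the open problem is the statement at `θ = 0` -/
def S_EQV : Prop := ∀ (k : ℕ) (γ : ℝ), 1 ≤ k →
  (Tendsto (fun T : ℝ => 1 / T * (∫ t in (0:ℝ)..T, ‖riemannZeta (1 / 2 + t * Complex.I)‖ ^ (2 * k)) /
      Real.log T ^ (k ^ 2)) atTop (𝓝 γ) ↔
   Tendsto (fun T : ℝ => 1 / T * (∫ t in T..(2 * T), ‖S 0 ⌊T⌋₊ t‖ ^ (2 * k)) /
      Real.log T ^ (k ^ 2)) atTop (𝓝 γ))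

namespace EQV

/-- elementary inequality, any constant -/
lemma el (k : ℕ) (c ε : ℝ) (hc : 0 ≤ c) (hε : 0 < ε) : ∃ C : ℝ, 0 ≤ C ∧
    ∀ x y : ℝ, 0 ≤ x → 0 ≤ y → |x - y| ≤ c → x ^ (2 * k) ≤ (1 + ε) * y ^ (2 * k) + C := by
  -- choose δ with (1+δ)^{2k} ≤ 1+ε; if y ≥ c/δ then x ≤ y + c ≤ (1+δ) y; else x ≤ c/δ + c
  obtain ⟨δ, hδ, hδ2⟩ : ∃ δ : ℝ, 0 < δ ∧ (1 + δ) ^ (2 * k) ≤ 1 + ε := by
    have hcont : Continuous fun δ : ℝ => (1 + δ) ^ (2 * k) := by fun_prop
    have h0 : Tendsto (fun δ : ℝ => (1 + δ) ^ (2 * k)) (𝓝[>] 0) (𝓝 1) := by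
      have := hcont.tendsto 0
      simp only [add_zero, one_pow] at this
      exact this.mono_left nhdsWithin_le_nhds
    have h1 : ∀ᶠ δ : ℝ in 𝓝[>] 0, (1 + δ) ^ (2 * k) < 1 + ε := h0.eventually_lt_const (by linarith)
    obtain ⟨δ, h2, h3⟩ := (h1.and self_mem_nhdsWithin).exists
    exact ⟨δ, h3, h2.le⟩
  refine ⟨(c / δ + c) ^ (2 * k), by positivity, fun x y hx hy hxy => ?_⟩
  have hxy1 : x ≤ y + c := by linarith [(abs_le.1 hxy).2]
  by_cases h : c / δ ≤ y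
  · have h1 : c ≤ δ * y := by rw [div_le_iff₀ hδ] at h; linarith
    have h2 : x ≤ (1 + δ) * y := by linarith
    calc x ^ (2 * k) ≤ ((1 + δ) * y) ^ (2 * k) := pow_le_pow_left₀ hx h2 _
      _ = (1 + δ) ^ (2 * k) * y ^ (2 * k) := mul_pow _ _ _
      _ ≤ (1 + ε) * y ^ (2 * k) := mul_le_mul_of_nonneg_right hδ2 (by positivity)
      _ ≤ _ := le_add_of_nonneg_right (by positivity)
  · push Not at h
    have h2 : x ≤ c / δ + c := by linarith
    calc x ^ (2 * k) ≤ (c / δ + c) ^ (2 * k) := pow_le_pow_left₀ hx h2 _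
      _ ≤ _ := le_add_of_nonneg_left (by positivity)

/-- two quantities that are comparable up to `1+ε` and `O(1)` have the same limit after division by `L → ∞` -/
lemma same_lim (a b L : ℝ → ℝ) (γ : ℝ) (hL : Tendsto L atTop atTop)
    (h1 : ∀ ε : ℝ, 0 < ε → ∃ C : ℝ, 0 ≤ C ∧ ∀ᶠ T in atTop, a T ≤ (1 + ε) * b T + C)
    (h2 : ∀ ε : ℝ, 0 < ε → ∃ C : ℝ, 0 ≤ C ∧ ∀ᶠ T in atTop, b T ≤ (1 + ε) * a T + C)
    (h0 : ∀ᶠ T in atTop, 0 ≤ a T) (h0' : ∀ᶠ T in atTop, 0 ≤ b T)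
    (h : Tendsto (fun T => a T / L T) atTop (𝓝 γ)) : Tendsto (fun T => b T / L T) atTop (𝓝 γ) := by
  have hγ : 0 ≤ γ := by
    refine ge_of_tendsto h ?_
    filter_upwards [h0, hL.eventually_gt_atTop 0] with T hT hT2
    positivity
  rw [Metric.tendsto_atTop] at *
  intro e he
  -- choose ε
  set ε : ℝ := min 1 (e / (8 * (γ + 1))) with hεd
  have hε : 0 < ε := lt_min one_pos (by positivity)
  have hε1 : ε ≤ 1 := min_le_left _ _
  have hε2 : ε * (8 * (γ + 1)) ≤ e := by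
    have := min_le_right 1 (e / (8 * (γ + 1)))
    rw [← hεd] at this
    rwa [le_div_iff₀ (by positivity)] at this
  obtain ⟨C1, hC1, H1⟩ := h1 ε hε
  obtain ⟨C2, hC2, H2⟩ := h2 ε hε
  obtain ⟨T1, hT1⟩ := h (e / 8) (by positivity)
  have hLb : ∀ᶠ T in atTop, (8 * (C1 + C2) + 8) / e + 1 ≤ L T := hL.eventually_ge_atTop _
  obtain ⟨T2, hT2⟩ := Filter.eventually_atTop.1 (H1.and (H2.and (h0.and (h0'.and hLb))))
  refine ⟨max T1 T2, fun T hT => ?_⟩
  obtain ⟨g1, g2, g3, g4, g5⟩ := hT2 T (le_trans (le_max_right _ _) hT)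
  have g6 := hT1 T (le_trans (le_max_left _ _) hT)
  rw [Real.dist_eq, abs_lt] at g6 ⊢
  have hLp : 0 < L T := lt_of_lt_of_le (by positivity) g5
  have hCL : (C1 + C2) / L T ≤ e / 8 := by
    rw [div_le_iff₀ hLp]
    have : (8 * (C1 + C2) + 8) / e ≤ L T := by linarith
    rw [div_le_iff₀ he] at this
    nlinarith
  have hC1L : C1 / L T ≤ e / 8 := le_trans (div_le_div_of_nonneg_right (by linarith) hLp.le) hCL
  have hC2L : C2 / L T ≤ e / 8 := le_trans (div_le_div_of_nonneg_right (by linarith) hLp.le) hCL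
  have u : b T / L T ≤ (1 + ε) * (a T / L T) + C2 / L T := by
    rw [← mul_div_assoc, ← add_div]; exact div_le_div_of_nonneg_right g2 hLp.le
  have v : a T / L T ≤ (1 + ε) * (b T / L T) + C1 / L T := by
    rw [← mul_div_assoc, ← add_div]; exact div_le_div_of_nonneg_right g1 hLp.le
  have hb0 : 0 ≤ b T / L T := by positivity
  have ha0 : 0 ≤ a T / L T := by positivity
  set A := a T / L T
  set B := b T / L T
  have he8 : ε * (γ + 1) ≤ e / 8 := by nlinarith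
  constructor
  · -- γ - e < B
    by_contra hcon
    push Not at hcon
    have hB : B ≤ γ := by linarith
    have : ε * B ≤ ε * γ := mul_le_mul_of_nonneg_left hB hε.le
    nlinarith
  · have hεe : ε * (e / 8) ≤ e / 8 := by nlinarith
    have : ε * A ≤ ε * (γ + e / 8) := mul_le_mul_of_nonneg_left (by linarith) hε.le
    nlinarith

lemma ratio (K : ℕ) : Tendsto (fun T : ℝ => Real.log T ^ K / Real.log (2 * T) ^ K) atTop (𝓝 1) := by
  have h1 : Tendsto (fun T : ℝ => Real.log T / Real.log (2 * T)) atTop (𝓝 1) := by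
    have h2 : Tendsto (fun T : ℝ => 1 / (1 + Real.log 2 / Real.log T)) atTop (𝓝 (1 / (1 + 0))) := by
      refine Tendsto.div tendsto_const_nhds (tendsto_const_nhds.add ?_) (by norm_num)
      exact tendsto_const_nhds.div_atTop Real.tendsto_log_atTop
    rw [add_zero, div_one] at h2
    refine h2.congr' ?_
    filter_upwards [eventually_gt_atTop 1] with T hT
    have hl : 0 < Real.log T := Real.log_pos hT
    have hl2 : 0 < Real.log 2 := Real.log_pos (by norm_num)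
    rw [Real.log_mul (by norm_num) (by linarith)]
    field_simp
    ring
  have := h1.pow K
  rw [one_pow] at this
  refine this.congr fun T => ?_
  rw [div_pow]

lemma dy_fwd (F : ℝ → ℝ) (K : ℕ) (γ : ℝ)
    (h : Tendsto (fun T : ℝ => 1 / T * F T / Real.log T ^ K) atTop (𝓝 γ)) :
    Tendsto (fun T : ℝ => 1 / T * (F (2 * T) - F T) / Real.log T ^ K) atTop (𝓝 γ) := by
  have h2 : Tendsto (fun T : ℝ => 1 / (2 * T) * F (2 * T) / Real.log (2 * T) ^ K) atTop (𝓝 γ) :=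
    h.comp (tendsto_id.const_mul_atTop (by norm_num : (0:ℝ) < 2))
  have h3 := (ratio K).inv₀ (by norm_num)
  have h4 := ((h2.const_mul 2).mul h3).sub h
  have e : 2 * γ * (1:ℝ)⁻¹ - γ = γ := by ring
  rw [e] at h4
  refine h4.congr' ?_
  filter_upwards [eventually_gt_atTop 1] with T hT
  have hl : 0 < Real.log T := Real.log_pos hT
  have hl2 : 0 < Real.log (2 * T) := Real.log_pos (by linarith)
  have hT0 : 0 < T := by linarith
  field_simp

lemma dy_bwd (F : ℝ → ℝ) (hF0 : ∀ T, 0 ≤ T → 0 ≤ F T) (hFm : ∀ S T, 0 ≤ S → S ≤ T → F S ≤ F T)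
    (K : ℕ) (γ : ℝ)
    (h : Tendsto (fun T : ℝ => 1 / T * (F (2 * T) - F T) / Real.log T ^ K) atTop (𝓝 γ)) :
    Tendsto (fun T : ℝ => 1 / T * F T / Real.log T ^ K) atTop (𝓝 γ) := by
  set g : ℝ → ℝ := fun T => 1 / T * F T / Real.log T ^ K with hg
  set hh : ℝ → ℝ := fun T => 1 / T * (F (2 * T) - F T) / Real.log T ^ K with hhd
  set ρ : ℝ → ℝ := fun T => Real.log T ^ K / Real.log (2 * T) ^ K with hρ
  have hrec : ∀ T : ℝ, 2 ≤ T → g (2 * T) = ρ T / 2 * (g T + hh T) := by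
    intro T hT
    have hl : 0 < Real.log T := Real.log_pos (by linarith)
    have hl2 : 0 < Real.log (2 * T) := Real.log_pos (by linarith)
    have hT0 : 0 < T := by linarith
    simp only [hg, hhd, hρ]
    field_simp
    ring
  have hlim : Tendsto (fun T => ρ T / 2 * (γ + hh T) - γ) atTop (𝓝 0) := by
    have := (((ratio K).div_const 2).mul (h.const_add γ)).sub_const γ
    have e : (1:ℝ) / 2 * (γ + γ) - γ = 0 := by ring
    rw [e] at this
    exact this
  have hρ1 : ∀ T : ℝ, 2 ≤ T → 0 ≤ ρ T ∧ ρ T ≤ 1 := by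
    intro T hT
    have hl : 0 < Real.log T := Real.log_pos (by linarith)
    have hl2 : Real.log T ≤ Real.log (2 * T) := Real.log_le_log (by linarith) (by linarith)
    have hl3 : 0 < Real.log (2 * T) := by linarith
    refine ⟨by positivity, ?_⟩
    rw [hρ]
    simp only
    rw [div_le_one (by positivity)]
    exact pow_le_pow_left₀ hl.le hl2 K
  rw [Metric.tendsto_atTop]
  intro e he
  obtain ⟨T1, hT1⟩ := (Metric.tendsto_atTop.1 hlim) (e / 6) (by positivity)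
  set T0 : ℝ := max 2 T1 with hT0
  have hT02 : 2 ≤ T0 := le_max_left _ _
  have hstep : ∀ T : ℝ, T0 ≤ T → |g (2 * T) - γ| ≤ |g T - γ| / 2 + e / 6 := by
    intro T hT
    have hT2 : 2 ≤ T := hT02.trans hT
    have h1 := hT1 T ((le_max_right _ _).trans hT)
    rw [Real.dist_eq, sub_zero] at h1
    rw [hrec T hT2]
    have e1 : ρ T / 2 * (g T + hh T) - γ = ρ T / 2 * (g T - γ) + (ρ T / 2 * (γ + hh T) - γ) := by ring
    rw [e1]
    refine (abs_add_le _ _).trans ?_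
    obtain ⟨r0, r1⟩ := hρ1 T hT2
    rw [abs_mul, abs_of_nonneg (by linarith : 0 ≤ ρ T / 2)]
    nlinarith [abs_nonneg (g T - γ)]
  -- bound on [T0, 2 T0]
  obtain ⟨B, hB0, hB⟩ : ∃ B : ℝ, 0 ≤ B ∧ ∀ T : ℝ, T0 ≤ T → T ≤ 2 * T0 → |g T - γ| ≤ B := by
    refine ⟨1 / T0 * F (2 * T0) / Real.log T0 ^ K + |γ|, ?_, fun T h1 h2 => ?_⟩
    · have := hF0 (2 * T0) (by linarith)
      have hl : 0 < Real.log T0 := Real.log_pos (by linarith)
      positivity
    · have hl : 0 < Real.log T0 := Real.log_pos (by linarith)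
      have hl1 : Real.log T0 ≤ Real.log T := Real.log_le_log (by linarith) h1
      have hF1 : F T ≤ F (2 * T0) := hFm T (2 * T0) (by linarith) h2
      have hF2 : 0 ≤ F T := hF0 T (by linarith)
      have hg0 : 0 ≤ g T := by
        have : 0 < Real.log T := by linarith
        have : 0 < T := by linarith
        simp only [hg]
        positivity
      have hg1 : g T ≤ 1 / T0 * F (2 * T0) / Real.log T0 ^ K := by
        simp only [hg]
        have hT0' : 0 < T0 := by linarith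
        have i1 : 1 / T * F T ≤ 1 / T0 * F (2 * T0) :=
          mul_le_mul (one_div_le_one_div_of_le hT0' h1) hF1 hF2 (by positivity)
        exact div_le_div₀ (by have := hF0 (2 * T0) (by linarith); positivity) i1 (by positivity)
          (pow_le_pow_left₀ hl.le hl1 K)
      calc |g T - γ| ≤ |g T| + |γ| := abs_sub _ _
        _ ≤ _ := by rw [abs_of_nonneg hg0]; linarith
  have hind : ∀ n : ℕ, ∀ T : ℝ, 2 ^ n * T0 ≤ T → T ≤ 2 ^ (n + 1) * T0 → |g T - γ| ≤ B / 2 ^ n + e / 3 := by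
    intro n
    induction n with
    | zero =>
      intro T h1 h2
      have h1' : T0 ≤ T := by simpa using h1
      have h2' : T ≤ 2 * T0 := by simpa using h2
      have := hB T h1' h2'
      simp only [pow_zero, div_one]
      linarith
    | succ n ih =>
      intro T h1 h2
      have h3 := ih (T / 2) (by rw [pow_succ] at h1; linarith) (by rw [pow_succ] at h2; linarith)
      have h4 : T0 ≤ T / 2 := by
        have : (1:ℝ) ≤ 2 ^ n := one_le_pow₀ (by norm_num)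
        have h5 : 2 ^ n * T0 ≤ T / 2 := by rw [pow_succ] at h1; linarith
        nlinarith
      have h5 := hstep (T / 2) h4
      rw [mul_div_cancel₀ T (by norm_num : (2:ℝ) ≠ 0)] at h5
      have e2 : B / 2 ^ (n + 1) = B / 2 ^ n / 2 := by rw [pow_succ]; field_simp
      rw [e2]
      linarith
  obtain ⟨n0, hn0⟩ : ∃ n0 : ℕ, B / 2 ^ n0 < e / 3 := by
    obtain ⟨n, hn⟩ := pow_unbounded_of_one_lt (B / (e / 3)) (by norm_num : (1:ℝ) < 2)
    refine ⟨n, ?_⟩
    rw [div_lt_iff₀ (by positivity)] at hn ⊢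
    linarith
  refine ⟨2 ^ n0 * T0, fun T hT => ?_⟩
  have hT00 : 0 < T0 := by linarith
  have h1 : 1 ≤ T / T0 := by
    rw [le_div_iff₀ hT00]
    have : (1:ℝ) ≤ 2 ^ n0 := one_le_pow₀ (by norm_num)
    nlinarith
  obtain ⟨n, hn1, hn2⟩ := exists_nat_pow_near h1 (by norm_num : (1:ℝ) < 2)
  rw [le_div_iff₀ hT00] at hn1
  rw [div_lt_iff₀ hT00] at hn2
  have hnn : n0 ≤ n := by
    by_contra hcon
    push Not at hcon
    have : (2:ℝ) ^ (n + 1) ≤ 2 ^ n0 := pow_le_pow_right₀ (by norm_num) hcon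
    nlinarith
  have h2 := hind n T hn1 hn2.le
  have h3 : B / 2 ^ n ≤ B / 2 ^ n0 :=
    div_le_div_of_nonneg_left hB0 (by positivity) (pow_le_pow_right₀ (by norm_num) hnn)
  rw [Real.dist_eq]
  linarith

/-- continuity of `t ↦ ζ(1/2 + it)` -/
lemma cz : Continuous fun t : ℝ => riemannZeta (1 / 2 + t * Complex.I) := by
  rw [continuous_iff_continuousAt]
  intro t
  have h1 : (1 / 2 + (t : ℂ) * Complex.I) ≠ 1 := by
    intro h
    have := congrArg Complex.re h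
    norm_num at this
  have h2 := (differentiableAt_riemannZeta h1).continuousAt
  have h3 : ContinuousAt (fun t : ℝ => 1 / 2 + (t : ℂ) * Complex.I) t := by fun_prop
  exact ContinuousAt.comp (f := fun t : ℝ => 1 / 2 + (t : ℂ) * Complex.I) h2 h3

lemma cS (N : ℕ) : Continuous fun t : ℝ => S 0 N t := by
  unfold S
  refine continuous_finset_sum _ fun n hn => ?_
  have hn0 : (n : ℂ) ≠ 0 := by
    have := (Finset.mem_Icc.1 hn).1
    exact_mod_cast (by omega : n ≠ 0)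
  refine continuous_const.mul ?_
  refine Continuous.const_cpow (by fun_prop) (Or.inl hn0)

/-- comparison of the means over `[T, 2T]` -/
lemma cmp (u v : ℝ → ℂ) (hu : Continuous u) (hv : Continuous v) (k : ℕ) (c ε C T : ℝ) (hT : 0 < T)
    (hC : ∀ x y : ℝ, 0 ≤ x → 0 ≤ y → |x - y| ≤ c → x ^ (2 * k) ≤ (1 + ε) * y ^ (2 * k) + C)
    (huv : ∀ t, T ≤ t → t ≤ 2 * T → ‖u t - v t‖ ≤ c) :
    1 / T * (∫ t in T..(2 * T), ‖u t‖ ^ (2 * k)) ≤ (1 + ε) * (1 / T * ∫ t in T..(2 * T), ‖v t‖ ^ (2 * k)) + C := by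
  have h1 : (∫ t in T..(2 * T), ‖u t‖ ^ (2 * k)) ≤ ∫ t in T..(2 * T), ((1 + ε) * ‖v t‖ ^ (2 * k) + C) := by
    refine intervalIntegral.integral_mono_on (by linarith) ?_ ?_ fun t ht => ?_
    · exact (by fun_prop : Continuous fun t => ‖u t‖ ^ (2 * k)).intervalIntegrable _ _
    · exact (by fun_prop : Continuous fun t => (1 + ε) * ‖v t‖ ^ (2 * k) + C).intervalIntegrable _ _
    · refine hC _ _ (norm_nonneg _) (norm_nonneg _) ?_
      exact (abs_norm_sub_norm_le _ _).trans (huv t ht.1 ht.2)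
  rw [intervalIntegral.integral_add
    ((by fun_prop : Continuous fun t => (1 + ε) * ‖v t‖ ^ (2 * k)).intervalIntegrable _ _)
    (by simp), intervalIntegral.integral_const_mul, intervalIntegral.integral_const, smul_eq_mul] at h1
  have h2 := mul_le_mul_of_nonneg_left h1 (by positivity : (0:ℝ) ≤ 1 / T)
  refine h2.trans (le_of_eq ?_)
  field_simp
  ring

end EQV

open EQV in
theorem pEQV (hZL : S_ZL) : S_EQV := by
  obtain ⟨C0, hC0⟩ := hZL
  intro k γ hk
  set c : ℝ := max C0 0 with hc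
  have hc0 : 0 ≤ c := le_max_right _ _
  have hL : Tendsto (fun T : ℝ => Real.log T ^ (k ^ 2)) atTop atTop :=
    (tendsto_pow_atTop (by positivity)).comp Real.tendsto_log_atTop
  set F : ℝ → ℝ := fun T => ∫ t in (0:ℝ)..T, ‖riemannZeta (1 / 2 + t * Complex.I)‖ ^ (2 * k) with hF
  have hint : ∀ a b : ℝ, IntervalIntegrable (fun t : ℝ => ‖riemannZeta (1 / 2 + t * Complex.I)‖ ^ (2 * k))
      volume a b := fun a b => ((cz.norm).pow _).intervalIntegrable _ _
  have hF0 : ∀ T, 0 ≤ T → 0 ≤ F T := fun T hT =>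
    intervalIntegral.integral_nonneg hT fun t _ => by positivity
  have hFsub : ∀ a b, F b - F a = ∫ t in a..b, ‖riemannZeta (1 / 2 + t * Complex.I)‖ ^ (2 * k) := by
    intro a b
    exact intervalIntegral.integral_interval_sub_left (hint _ _) (hint _ _)
  have hFm : ∀ S T, 0 ≤ S → S ≤ T → F S ≤ F T := by
    intro S T _ hST
    have : 0 ≤ F T - F S := by
      rw [hFsub]
      exact intervalIntegral.integral_nonneg hST fun t _ => by positivity
    linarith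
  have step1 : Tendsto (fun T : ℝ => 1 / T * F T / Real.log T ^ (k ^ 2)) atTop (𝓝 γ) ↔
      Tendsto (fun T : ℝ => 1 / T * (F (2 * T) - F T) / Real.log T ^ (k ^ 2)) atTop (𝓝 γ) :=
    ⟨dy_fwd F _ γ, dy_bwd F hF0 hFm _ γ⟩
  rw [step1]
  have hz : ∀ᶠ T : ℝ in atTop, 0 ≤ 1 / T * (F (2 * T) - F T) := by
    filter_upwards [eventually_gt_atTop 0] with T hT
    have := hFm T (2 * T) hT.le (by linarith)
    have h2 : 0 ≤ F (2 * T) - F T := by linarith
    positivity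
  have hs : ∀ᶠ T : ℝ in atTop, 0 ≤ 1 / T * (∫ t in T..(2 * T), ‖S 0 ⌊T⌋₊ t‖ ^ (2 * k)) := by
    filter_upwards [eventually_gt_atTop 0] with T hT
    have : 0 ≤ ∫ t in T..(2 * T), ‖S 0 ⌊T⌋₊ t‖ ^ (2 * k) :=
      intervalIntegral.integral_nonneg (by linarith) fun t _ => by positivity
    positivity
  have hd : ∀ T t : ℝ, 1 ≤ T → T ≤ t → t ≤ 2 * T → ‖riemannZeta (1 / 2 + t * Complex.I) - S 0 ⌊T⌋₊ t‖ ≤ c :=
    fun T t h1 h2 h3 => (hC0 T t h1 h2 h3).trans (le_max_left _ _)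
  have a1 : ∀ ε : ℝ, 0 < ε → ∃ C : ℝ, 0 ≤ C ∧ ∀ᶠ T : ℝ in atTop,
      1 / T * (F (2 * T) - F T) ≤ (1 + ε) * (1 / T * ∫ t in T..(2 * T), ‖S 0 ⌊T⌋₊ t‖ ^ (2 * k)) + C := by
    intro ε hε
    obtain ⟨C, hC, h⟩ := el k c ε hc0 hε
    refine ⟨C, hC, ?_⟩
    filter_upwards [eventually_ge_atTop 1] with T hT
    rw [hFsub]
    exact cmp _ _ cz (cS _) k c ε C T (by linarith) h fun t h1 h2 => hd T t hT h1 h2
  have a2 : ∀ ε : ℝ, 0 < ε → ∃ C : ℝ, 0 ≤ C ∧ ∀ᶠ T : ℝ in atTop,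
      1 / T * (∫ t in T..(2 * T), ‖S 0 ⌊T⌋₊ t‖ ^ (2 * k)) ≤ (1 + ε) * (1 / T * (F (2 * T) - F T)) + C := by
    intro ε hε
    obtain ⟨C, hC, h⟩ := el k c ε hc0 hε
    refine ⟨C, hC, ?_⟩
    filter_upwards [eventually_ge_atTop 1] with T hT
    rw [hFsub]
    exact cmp _ _ (cS _) cz k c ε C T (by linarith) h fun t h1 h2 => by
      rw [norm_sub_rev]; exact hd T t hT h1 h2
  exact ⟨same_lim _ _ _ γ hL a1 a2 hz hs, same_lim _ _ _ γ hL a2 a1 hs hz⟩

end Pool.Agent.T2H98.RT
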