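import Pool.Agent.T2H98.RT.All
import Pool.Agent.T2H58.ST.All
import Pool.Agent.T2H58.ST.MOM

/-! Project RT: the unshifted moments with a square-root error term, for all polynomial lengths. The chaining (FIN1) is
due to helper58 and team (project ST). -/

set_option autoImplicit false

open MeasureTheory Filter Topology

namespace Pool.Agent.T2H98.RT

open Pool.Agent.T2H58.ST (EE S_FIN1 S_MEAS vFIN1 vMEAS)

theorem sqr (k : ℕ) (hk : 1 ≤ k) : ∀ᵐ θ ∂P, ∀ (B : ℕ) (ε : ℝ), 0 < ε → ∃ K : ℝ, 0 < K ∧ ∀ (T : ℝ) (N : ℕ),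
    1 ≤ T → (N : ℝ) ≤ T ^ B →
    |1 / T * (∫ t in (0:ℝ)..T, ‖S θ N t‖ ^ (2 * k)) - A k N| ≤ K * T ^ (ε - 1 / 2) := by
  have hae : ∀ᵐ θ ∂P, ∀ B n : ℕ, ∃ K : ℝ, 0 < K ∧ ∀ (T : ℝ) (N : ℕ), 1 ≤ T → (N : ℝ) ≤ T ^ B →
      ‖∫ t in (0:ℝ)..T, EE (0 : Fin k → ℝ) 0 θ N t‖ ≤ K * T ^ ((1 / 2 : ℝ) + 1 / ((n : ℝ) + 1)) := by
    rw [ae_all_iff]
    intro B
    rw [ae_all_iff]
    intro n
    exact vFIN1 k 0 0 hk B (1 / ((n : ℝ) + 1)) (by positivity)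
  filter_upwards [hae] with θ hθ
  intro B ε hε
  obtain ⟨n, hn⟩ := exists_nat_one_div_lt hε
  obtain ⟨K, hK, hKT⟩ := hθ B n
  refine ⟨K, hK, fun T N hT hNT => ?_⟩
  have hT0 : 0 < T := by linarith
  have hcont : Continuous (fun t : ℝ => EE (0 : Fin k → ℝ) 0 θ N t) :=
    Pool.Agent.T2H58.ST.MOM.cont_of (fun θ t => EE (0 : Fin k → ℝ) 0 θ N t) (vMEAS k 0 0 N N).1 θ
  have hcont2 : Continuous (fun t : ℝ => ‖S θ N t‖ ^ (2 * k)) := by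
    have h5 : Continuous (fun t : ℝ => (EE (0 : Fin k → ℝ) 0 θ N t).re + A k N) :=
      (Complex.continuous_re.comp hcont).add continuous_const
    have h6 : (fun t : ℝ => (EE (0 : Fin k → ℝ) 0 θ N t).re + A k N) = fun t => ‖S θ N t‖ ^ (2 * k) := by
      funext t
      rw [Pool.Agent.T2H58.ST.MOM.EE_zero, Complex.ofReal_re]
      ring
    rwa [h6] at h5
  have hint : (∫ t in (0:ℝ)..T, EE (0 : Fin k → ℝ) 0 θ N t) =
      (((∫ t in (0:ℝ)..T, ‖S θ N t‖ ^ (2 * k)) - T * A k N : ℝ) : ℂ) := by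
    have h5 : (fun t : ℝ => EE (0 : Fin k → ℝ) 0 θ N t) =
        fun t => ((‖S θ N t‖ ^ (2 * k) - A k N : ℝ) : ℂ) := by
      funext t
      exact Pool.Agent.T2H58.ST.MOM.EE_zero k θ N t
    rw [h5, intervalIntegral.integral_ofReal]
    congr 1
    rw [intervalIntegral.integral_sub (hcont2.intervalIntegrable _ _) intervalIntegrable_const,
      intervalIntegral.integral_const, smul_eq_mul, sub_zero]
  have hb := hKT T N hT hNT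
  rw [hint, Complex.norm_real, Real.norm_eq_abs] at hb
  have e1 : 1 / T * (∫ t in (0:ℝ)..T, ‖S θ N t‖ ^ (2 * k)) - A k N =
      1 / T * ((∫ t in (0:ℝ)..T, ‖S θ N t‖ ^ (2 * k)) - T * A k N) := by
    field_simp
  rw [e1, abs_mul, abs_of_pos (by positivity : 0 < 1 / T)]
  have h2 : T ^ ((1 / 2 : ℝ) + 1 / ((n : ℝ) + 1)) ≤ T ^ ((1 / 2 : ℝ) + ε) :=
    Real.rpow_le_rpow_of_exponent_le hT (by linarith)
  have h3 : T ^ ((1 / 2 : ℝ) + ε) = T * T ^ (ε - 1 / 2) := by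
    rw [← Real.rpow_one_add' hT0.le (by linarith)]
    congr 1
    ring
  calc 1 / T * |(∫ t in (0:ℝ)..T, ‖S θ N t‖ ^ (2 * k)) - T * A k N|
      ≤ 1 / T * (K * T ^ ((1 / 2 : ℝ) + ε)) := by
        refine mul_le_mul_of_nonneg_left (hb.trans ?_) (by positivity)
        exact mul_le_mul_of_nonneg_left h2 hK.le
    _ = K * T ^ (ε - 1 / 2) := by
        rw [h3]
        field_simp

/-- the same for the mean values over `[T, 2T]` -/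
theorem sqr2 (k : ℕ) (hk : 1 ≤ k) : ∀ᵐ θ ∂P, ∀ (B : ℕ) (ε : ℝ), 0 < ε → ∃ K : ℝ, 0 < K ∧ ∀ (T : ℝ) (N : ℕ),
    1 ≤ T → (N : ℝ) ≤ T ^ B →
    |1 / T * (∫ t in T..(2 * T), ‖S θ N t‖ ^ (2 * k)) - A k N| ≤ K * T ^ (ε - 1 / 2) := by
  filter_upwards [sqr k hk] with θ hθ
  intro B ε hε
  obtain ⟨K, hK, h⟩ := hθ B ε hε
  refine ⟨(2 * 2 ^ (ε - 1 / 2) + 1) * K, by positivity, fun T N hT hNT => ?_⟩
  have hT0 : 0 < T := by linarith
  have a1 := h T N hT hNT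
  have a2 := h (2 * T) N (by linarith) (hNT.trans (pow_le_pow_left₀ (by linarith) (by linarith) _))
  have hcont : Continuous fun t : ℝ => S θ N t := (vJM k N 1 one_pos).2.1 θ
  have hi : ∀ x y : ℝ, IntervalIntegrable (fun t : ℝ => ‖S θ N t‖ ^ (2 * k)) volume x y :=
    fun x y => (hcont.norm.pow _).intervalIntegrable _ _
  have hsplit : (∫ t in T..(2 * T), ‖S θ N t‖ ^ (2 * k)) =
      (∫ t in (0:ℝ)..(2 * T), ‖S θ N t‖ ^ (2 * k)) - ∫ t in (0:ℝ)..T, ‖S θ N t‖ ^ (2 * k) :=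
    (intervalIntegral.integral_interval_sub_left (hi _ _) (hi _ _)).symm
  have hm : 1 / T * (∫ t in T..(2 * T), ‖S θ N t‖ ^ (2 * k)) - A k N =
      2 * (1 / (2 * T) * (∫ t in (0:ℝ)..(2 * T), ‖S θ N t‖ ^ (2 * k)) - A k N) -
        (1 / T * (∫ t in (0:ℝ)..T, ‖S θ N t‖ ^ (2 * k)) - A k N) := by
    rw [hsplit]
    field_simp
    ring
  have h2 : (2 * T) ^ (ε - 1 / 2) = 2 ^ (ε - 1 / 2) * T ^ (ε - 1 / 2) :=
    Real.mul_rpow (by norm_num) hT0.le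
  rw [h2] at a2
  rw [hm]
  have hp : 0 ≤ T ^ (ε - 1 / 2) := by positivity
  calc |2 * (1 / (2 * T) * (∫ t in (0:ℝ)..(2 * T), ‖S θ N t‖ ^ (2 * k)) - A k N) -
        (1 / T * (∫ t in (0:ℝ)..T, ‖S θ N t‖ ^ (2 * k)) - A k N)|
      ≤ |2 * (1 / (2 * T) * (∫ t in (0:ℝ)..(2 * T), ‖S θ N t‖ ^ (2 * k)) - A k N)| +
        |1 / T * (∫ t in (0:ℝ)..T, ‖S θ N t‖ ^ (2 * k)) - A k N| := abs_sub _ _
    _ ≤ 2 * (K * (2 ^ (ε - 1 / 2) * T ^ (ε - 1 / 2))) + K * T ^ (ε - 1 / 2) := by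
        rw [abs_mul, abs_of_pos (by norm_num : (0:ℝ) < 2)]
        linarith
    _ = (2 * 2 ^ (ε - 1 / 2) + 1) * K * T ^ (ε - 1 / 2) := by ring

end Pool.Agent.T2H98.RT
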