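import Pool.Agent.T2H98.RT.Defs

/-!
# Project RT (helper98): MP_80d0cf_nt, high moments of zeta for almost every random twist

For `θ` in `[0,1]^ℕ` let `f` be the completely multiplicative function with `f(p) = e^{2πiθ_p}`
and `S(θ,N,t) = ∑_{n ≤ N} f(n) n^{-1/2-it}`. TARGET: for almost all `θ`, all `k ≥ 1`, `0 < η ≤ 1`,
`(1/T) ∫_T^{2T} |S(θ,N,t)|^{2k} dt = (1 + o(1)) a(k) vol(P_k) (log N)^{k²}` uniformly for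
`N → ∞`, `N ≤ T^{2-η}` (for `f = 1`, `N = T` this is the open problem itself).

Every package is INDEPENDENT: what it needs from others are hypotheses, as listed (Deps).
File `Pool/Agent/T2H98/RT/<ID>.lean`: `import Pool.Agent.T2H98.RT.Stm`, `namespace Pool.Agent.T2H98.RT`,
`theorem p<ID> (h : S_dep) .. : S_<ID>`; put your own lemmas in a namespace `<ID>`.
-/

set_option autoImplicit false

open MeasureTheory Filter Topology Finset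

namespace Pool.Agent.T2H98.RT

/-- MUL (15 min, no Deps). `v_p(mn) = v_p(m) + v_p(n)`, so `ph θ (mn) = ph θ m + ph θ n` (extend the
sums over `primeFactors` to the union); `|exp(ix)| = 1`; `ph θ n` is a finite sum of coordinates. -/
def S_MUL : Prop :=
  (∀ (θ : ℕ → ℝ) (m n : ℕ), m ≠ 0 → n ≠ 0 → tw θ (m * n) = tw θ m * tw θ n) ∧
  (∀ (θ : ℕ → ℝ) (n : ℕ), ‖tw θ n‖ = 1) ∧ (∀ θ : ℕ → ℝ, tw θ 1 = 1) ∧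
  (∀ n : ℕ, Continuous fun θ : ℕ → ℝ => tw θ n)

/-- OR (35 min, no Deps). Orthogonality. With `I` = primes dividing `mn` and `e_p = v_p(m) - v_p(n)`
the integrand is `∏_{p ∈ I} exp(2πi e_p θ_p)`; `integral_restrict_infinitePi` /
`integral_infinitePi_of_piFinset` (Mathlib.Probability.ProductMeasure) and
`integral_fintype_prod_eq_prod` give `∏_p ∫_0^1 exp(2πi e_p x) dx`, which is `1` if all `e_p = 0`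
(that is `m = n`) and `0` otherwise. -/
def S_OR : Prop := ∀ m n : ℕ, m ≠ 0 → n ≠ 0 →
  ∫ θ, tw θ m * (starRingEnd ℂ) (tw θ n) ∂P = if m = n then 1 else 0

/-- KAP (10 min, no Deps). Trivial bound, and `∫_0^T e^{-iat} dt = (1 - e^{-iaT})/(ia)`. -/
def S_KAP : Prop := ∀ a T : ℝ, 0 < T →
  ‖∫ t in (0:ℝ)..T, Complex.exp (-(t * a * Complex.I))‖ ≤ T ∧
  (a ≠ 0 → ‖∫ t in (0:ℝ)..T, Complex.exp (-(t * a * Complex.I))‖ ≤ 2 / |a|)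

/-- PW (30 min, Deps: MUL). Expand the power: `S^k = ∑_{v ∈ [1,N]^k} ∏_i f(v_i) v_i^{-1/2-it}`
(`Finset.prod_univ_sum` / `Finset.sum_pow'`), the summand depends only on `m = ∏ v ∈ [1, N^k]` and is
`f(m) m^{-1/2} e^{-it log m}`; group by `m` (`Finset.card_eq_sum_card_fiberwise`, `sum_fiberwise_of_maps_to`). -/
def S_PW : Prop := ∀ (θ : ℕ → ℝ) (k N : ℕ) (t : ℝ), 1 ≤ N →
  S θ N t ^ k = D θ (fun m => (b k N m : ℝ) / Real.sqrt m) (N ^ k) t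

/-- MEAN (25 min, Deps: MUL, OR). `|D|² = ∑∑ c_m c_n f(m) conj f(n) (m/n)^{-it}`; integrate. -/
def S_MEAN : Prop := ∀ (c : ℕ → ℝ) (M : ℕ) (t : ℝ),
  ∫ θ, ‖D θ c M t‖ ^ 2 ∂P = ∑ m ∈ Icc 1 M, c m ^ 2

/-- JM (25 min, Deps: MUL). `S` is continuous in `(θ,t)` and `|S| ≤ N`; so `J` is continuous in `θ`
and `0 ≤ J ≤ N^{2k}`. -/
def S_JM : Prop := ∀ (k N : ℕ) (T : ℝ), 0 < T →
  Continuous (fun θ : ℕ → ℝ => J θ k N T) ∧ (∀ θ : ℕ → ℝ, Continuous (fun t : ℝ => S θ N t)) ∧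
  (∀ t : ℝ, Continuous (fun θ : ℕ → ℝ => S θ N t)) ∧ (∀ (θ : ℕ → ℝ) (t : ℝ), ‖S θ N t‖ ≤ N) ∧
  ∀ θ : ℕ → ℝ, 0 ≤ J θ k N T ∧ J θ k N T ≤ (N : ℝ) ^ (2 * k)

/-- VAR1 (50 min, Deps: MUL, OR, KAP). Put `κ(m,n) = (1/T) ∫_0^T e^{-it(log m - log n)} dt`, so `|κ| ≤ 1` and
`|κ(m,n)| ≤ 2/(T |log m - log n|)` for `m ≠ n`. Then
`(1/T) ∫_0^T |D|² - ∑ c_m² = Z := ∑_{m ≠ n} c_m c_n f(m) conj f(n) κ(m,n)` (a real number), and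
`E |Z|² = ∑ c_m c_n c_{m'} c_{n'} κ(m,n) conj κ(m',n') E[f(m n') conj f(m' n)]`
`≤ ∑_{m n' = m' n, m ≠ n} c c c c · |κ(m,n)| · 1`. -/
def S_VAR1 : Prop := ∀ (c : ℕ → ℝ) (M : ℕ) (T : ℝ), (∀ m, 0 ≤ c m) → 0 < T →
  ∫ θ, (1 / T * (∫ t in (0:ℝ)..T, ‖D θ c M t‖ ^ 2) - ∑ m ∈ Icc 1 M, c m ^ 2) ^ 2 ∂P ≤ 2 / T * QS c M

/-- QUAD (30 min, no Deps). `(m,n,m',n') ↦ (g, g', (r,s))` with `g = gcd(m,n)`, `g' = gcd(m',n')`,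
`m = g r`, `n = g s`, `m' = g' r`, `n' = g' s` is injective on the quadruples, and the summand is
`1/(g g' r s |log r - log s|)`. -/
def S_QUAD : Prop := ∀ M : ℕ,
  QS (fun m => 1 / Real.sqrt m) M ≤ (∑ g ∈ Icc 1 M, 1 / (g : ℝ)) ^ 2 * RS M

/-- RSB (20 min, no Deps). For `s < r`: `log r - log s ≥ (r - s)/r`, so the summand is at most
`1/(s (r - s))`; symmetry gives the factor `2`; `(s, r) ↦ (s, r - s)` is injective. -/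
def S_RSB : Prop := ∀ M : ℕ, RS M ≤ 2 * (∑ g ∈ Icc 1 M, 1 / (g : ℝ)) ^ 2

/-- DIV (25 min, no Deps). `b k N m ≤ d(m)^k` (every coordinate divides `m`) and `d(m) ≤ C m^δ`
(divisor bound; there are proofs in the pool library, grep divisors). -/
def S_DIV : Prop := ∀ (k : ℕ) (ε : ℝ), 0 < ε → ∃ C : ℝ, 0 < C ∧
  (∀ N m : ℕ, 1 ≤ m → (b k N m : ℝ) ≤ C * (m : ℝ) ^ ε) ∧
  (∀ m : ℕ, 1 ≤ m → ((Nat.finMulAntidiag k m).card : ℝ) ≤ C * (m : ℝ) ^ ε)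

/-- VAR (35 min, Deps: PW, VAR1, QUAD, RSB, DIV). `|S|^{2k} = |S^k|² = |D|²` with `c_m = b(m)/√m`,
`∑ c_m² = A_k(N)`, `c_m ≤ C (N^k)^{ε'} /√m` for `m ≤ N^k`; `QS` is monotone in `c ≥ 0` and homogeneous of
degree 4; `∑_{g ≤ N^k} 1/g ≤ 1 + k log N ≤ C N^{ε''}`. -/
def S_VAR : Prop := ∀ (k : ℕ) (ε : ℝ), 1 ≤ k → 0 < ε → ∃ C : ℝ, 0 < C ∧ ∀ (N : ℕ) (T : ℝ), 1 ≤ N → 1 ≤ T →
  ∫ θ, (J θ k N T - A k N) ^ 2 ∂P ≤ C * (N : ℝ) ^ ε / T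

/-- AE (20 min, no Deps). `∑_j ∑_{i ∈ F j} E X_{ji}² < ∞`, so `∑_j ∑_{i ∈ F j} X_{ji}² < ∞` almost surely
(`lintegral_tsum`, `ae_lt_top`), and the terms tend to `0`. -/
def S_AE : Prop := ∀ (Ω : Type) [MeasurableSpace Ω] (μ : Measure Ω) [IsProbabilityMeasure μ]
  (X : ℕ → ℕ → Ω → ℝ) (v : ℕ → ℕ → ℝ) (F : ℕ → Finset ℕ),
  (∀ j i, Measurable (X j i)) → (∀ j i, Integrable (fun ω => X j i ω ^ 2) μ) →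
  (∀ j, ∀ i ∈ F j, ∫ ω, X j i ω ^ 2 ∂μ ≤ v j i) → Summable (fun j => ∑ i ∈ F j, v j i) →
  ∀ᵐ ω ∂μ, ∀ ε : ℝ, 0 < ε → ∀ᶠ j in atTop, ∀ i ∈ F j, |X j i ω| ≤ ε

/-- GRD (35 min, Deps: AE, VAR, JM). Take `a = ⌈8/η⌉`, `X_{ji} = J(i², j^a) - A(i²)`, `F j` = the `i` in the
range (finite), `ε' = η/8` in VAR: `∑_{i ≤ R} C i^{2ε'} / j^a ≤ C R^{1+η/4} / j^a` with
`R = ((j+1)^a)^{1-η/2}`, and `(1 - η/2)(1 + η/4) ≤ 1 - η/4`, so the sum is `≤ C' j^{-aη/4} ≤ C' j^{-2}`. -/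
def S_GRD : Prop := ∀ (k : ℕ) (η : ℝ), 1 ≤ k → 0 < η → η ≤ 1 → ∃ a : ℕ, 1 ≤ a ∧ ∀ᵐ θ ∂P,
  ∀ ε : ℝ, 0 < ε → ∀ᶠ j : ℕ in atTop, ∀ i : ℕ, 1 ≤ i → (i : ℝ) ^ 2 ≤ (((j : ℝ) + 1) ^ a) ^ (2 - η) →
    |J θ k (i ^ 2) ((j : ℝ) ^ a) - A k (i ^ 2)| ≤ ε

/-- AL (25 min, no Deps). `b k N 1 = 1` gives `A ≥ 1`; `b² ≥ b` gives
`A ≥ ∑_m b(m)/m = ∑_{v ∈ [1,N]^k} 1/∏v = (∑_{n≤N} 1/n)^k → ∞`; `b` is nondecreasing in `N`. -/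
def S_AL : Prop := (∀ k N : ℕ, 1 ≤ N → 1 ≤ A k N) ∧ (∀ k : ℕ, 1 ≤ k → Tendsto (A k) atTop atTop) ∧
  ∀ k : ℕ, Monotone (A k)

/-- EL (15 min, no Deps). `(y+2)^{2k} - (1+ε) y^{2k}` is continuous and tends to `-∞` (`k ≥ 1`), so it is
bounded above on `[0, ∞)`. -/
def S_EL : Prop := ∀ (k : ℕ) (ε : ℝ), 0 < ε → ∃ C : ℝ, 0 ≤ C ∧
  ∀ x y : ℝ, 0 ≤ x → 0 ≤ y → |x - y| ≤ 2 → x ^ (2 * k) ≤ (1 + ε) * y ^ (2 * k) + C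

/-- SH (15 min, Deps: MUL). At most `2i` terms, each of absolute value `n^{-1/2} ≤ 1/i`. -/
def S_SH : Prop := ∀ (θ : ℕ → ℝ) (i N : ℕ) (t : ℝ), 1 ≤ i → i ^ 2 ≤ N → N < (i + 1) ^ 2 →
  ‖S θ N t - S θ (i ^ 2) t‖ ≤ 2

/-- INTT (30 min, Deps: AL, JM). From the grid `T = j^a` to all `T`: `T J(T)` is nondecreasing in `T`; with
`j^a ≤ T ≤ (j+1)^a`, `(j/(j+1))^a J(j^a) ≤ J(T) ≤ ((j+1)/j)^a J((j+1)^a)`, `((j+1)/j)^a → 1`, `A ≥ 1`. -/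
def S_INTT : Prop := ∀ (θ : ℕ → ℝ) (k a : ℕ) (η : ℝ), 1 ≤ k → 1 ≤ a → 0 < η → η ≤ 1 →
  (∀ ε : ℝ, 0 < ε → ∀ᶠ j : ℕ in atTop, ∀ i : ℕ, 1 ≤ i → (i : ℝ) ^ 2 ≤ (((j : ℝ) + 1) ^ a) ^ (2 - η) →
    |J θ k (i ^ 2) ((j : ℝ) ^ a) - A k (i ^ 2)| ≤ ε) →
  ∀ ε : ℝ, 0 < ε → ∃ T₀ : ℝ, 1 ≤ T₀ ∧ ∀ T : ℝ, T₀ ≤ T → ∀ i : ℕ, 1 ≤ i → (i : ℝ) ^ 2 ≤ T ^ (2 - η) →
    |J θ k (i ^ 2) T - A k (i ^ 2)| ≤ ε * A k (i ^ 2)

/-- INTN (35 min, Deps: PW, MEAN, JM, AL, EL, SH). From squares to all `N`: let `i² ≤ N < (i+1)²`. By SH and EL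
(pointwise, then integrated) `J(N) ≤ (1+δ) J(i²) + C`, `J(i²) ≤ (1+δ) J(N) + C`; by MEAN and PW
`A(N) = E |S_N(0)|^{2k} ≤ (1+δ) A(i²) + C`; `A(i²) ≤ A(N)`; and `A(N) → ∞` absorbs `C`. -/
def S_INTN : Prop := ∀ (θ : ℕ → ℝ) (k : ℕ) (η : ℝ), 1 ≤ k → 0 < η → η ≤ 1 →
  (∀ ε : ℝ, 0 < ε → ∃ T₀ : ℝ, 1 ≤ T₀ ∧ ∀ T : ℝ, T₀ ≤ T → ∀ i : ℕ, 1 ≤ i → (i : ℝ) ^ 2 ≤ T ^ (2 - η) →
    |J θ k (i ^ 2) T - A k (i ^ 2)| ≤ ε * A k (i ^ 2)) →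
  ∀ ε : ℝ, 0 < ε → ∃ (N₀ : ℕ) (T₀ : ℝ), 1 ≤ T₀ ∧ ∀ (T : ℝ) (N : ℕ), T₀ ≤ T → N₀ ≤ N → (N : ℝ) ≤ T ^ (2 - η) →
    |J θ k N T - A k N| ≤ ε * A k N

/-! ## The size of `A_k(N)` -/

/-- SGM (30 min, Deps: DIV). `σ_s` is multiplicative (`Nat.finMulAntidiag`; or by induction on `k`, as a Dirichlet
convolution), nonnegative, `σ_s(1) = 1`, and if all `s_i ≥ δ ≥ 0`, then every term is at most `m^{-δ}`, so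
`σ_s(m) ≤ d_k(m) m^{-δ} ≤ C m^{ε-δ}`. -/
def S_SGM : Prop := ∀ k : ℕ, 1 ≤ k →
  (∀ (s : Fin k → ℝ) (m n : ℕ), m.Coprime n → sg k s (m * n) = sg k s m * sg k s n) ∧
  (∀ s : Fin k → ℝ, sg k s 1 = 1 ∧ ∀ m, 0 ≤ sg k s m) ∧
  (∀ ε : ℝ, 0 < ε → ∃ C : ℝ, 0 < C ∧ ∀ (s : Fin k → ℝ) (δ : ℝ) (m : ℕ), 0 ≤ δ → (∀ i, δ ≤ s i) → 1 ≤ m →
    sg k s m ≤ C * (m : ℝ) ^ (ε - δ))

/-- EUL (25 min, Deps: SGM). Summable by SGM with `ε = δ/2`... (`m^{-1-2δ+2ε}`), then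
`EulerProduct.eulerProduct_hasProd` (multiplicative version) for `m ↦ σ_s(m) σ_z(m)/m`. -/
def S_EUL : Prop := ∀ (k : ℕ) (s z : Fin k → ℝ), 1 ≤ k → (∀ i, 0 < s i) → (∀ i, 0 < z i) →
  Summable (fun m : ℕ => sg k s m * sg k z m / m) ∧
  HasProd (fun p : Nat.Primes => Lp k s z p) (∑' m : ℕ, sg k s m * sg k z m / m)

/-- DKP (25 min, no Deps). The tuples are `(p^{e_1},…,p^{e_k})` with `∑ e_i = m`; their number is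
`choose (m+k-1) m` (stars and bars), all `s_i = 0` gives `σ_0(p^m)` = this number, and for `s ≥ 0` each term is `≤ 1`.
`∑_m choose(m+k-1,m)² 2^{-m} < ∞` (polynomial growth). `σ_s(p) = ∑_i p^{-s_i}`. -/
def S_DKP : Prop := ∀ k : ℕ, 1 ≤ k →
  (∀ p m : ℕ, p.Prime → sg k 0 (p ^ m) = ((m + k - 1).choose m : ℝ)) ∧
  (∀ (s : Fin k → ℝ) (p m : ℕ), p.Prime → (∀ i, 0 ≤ s i) → 0 ≤ sg k s (p ^ m) ∧
    sg k s (p ^ m) ≤ ((m + k - 1).choose m : ℝ)) ∧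
  (∀ (s : Fin k → ℝ) (p : ℕ), p.Prime → sg k s p = ∑ i, (p : ℝ) ^ (-s i)) ∧
  (∀ (s : Fin k → ℝ) (p m : ℕ), p.Prime → Continuous fun l : ℝ => sg k (fun i => l * s i) (p ^ m)) ∧
  Summable (fun m : ℕ => ((m + k - 1).choose m : ℝ) ^ 2 * (1 / 2 : ℝ) ^ m)

/-- LOC1 (35 min, Deps: DKP). With `h = σ_s(p) σ_z(p)/p = ∑_{i,j} p^{-1-s_i-z_j}`: `|L_p - 1 - h| ≤ C/p²`
(`m ≥ 2`: `d² p^{-m} ≤ p^{-2} d² 2^{-(m-2)}`), `|∏(1 - y_ij) - 1 + h| ≤ C/p²` (`0 ≤ y_ij ≤ 1/p`), `0 ≤ h ≤ k²/p`;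
multiply. -/
def S_LOC1 : Prop := ∀ k : ℕ, 1 ≤ k → ∃ C : ℝ, 0 < C ∧ ∀ (s z : Fin k → ℝ) (p : ℕ), p.Prime →
  (∀ i, 0 ≤ s i) → (∀ i, 0 ≤ z i) → |Rp k s z p - 1| ≤ C / (p : ℝ) ^ 2

/-- LOC2 (25 min, Deps: DKP). Each term of `L_p(λs, λz)` is continuous in `λ ≥ 0`, dominated by
`choose(m+k-1,m)² p^{-m}` (`tendsto_tsum_of_dominated_convergence`); at `0` use DKP. -/
def S_LOC2 : Prop := ∀ (k : ℕ) (s z : Fin k → ℝ) (p : ℕ), 1 ≤ k → p.Prime → (∀ i, 0 < s i) → (∀ i, 0 < z i) →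
  Tendsto (fun l : ℝ => Rp k (fun i => l * s i) (fun i => l * z i) p) (𝓝[>] 0)
    (𝓝 ((1 - 1 / (p : ℝ)) ^ (k ^ 2) * ∑' m : ℕ, ((m + k - 1).choose m : ℝ) ^ 2 * (1 / (p : ℝ)) ^ m))

/-- PLIM (20 min, Deps: LOC1, LOC2). Dominated convergence for products:
`tendsto_tprod_one_add_of_dominated_convergence` (Mathlib.Analysis.Normed.Ring.InfiniteProd), bound `C/p²`. -/
def S_PLIM : Prop := ∀ (k : ℕ) (s z : Fin k → ℝ), 1 ≤ k → (∀ i, 0 < s i) → (∀ i, 0 < z i) →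
  Tendsto (fun l : ℝ => ∏' p : Nat.Primes, Rp k (fun i => l * s i) (fun i => l * z i) p) (𝓝[>] 0) (𝓝 (aK k))

/-- ZP (25 min, no Deps). `Z(x) = ζ(1+x)`: `riemannZeta_eulerProduct_hasProd`, `riemannZeta_residue_one`
(or `tendsto_sub_mul_tsum_nat_rpow`: `(s-1) ∑ 1/n^s → 1`). -/
def S_ZP : Prop := ∃ Z : ℝ → ℝ,
  (∀ x : ℝ, 0 < x → 0 < Z x ∧ HasProd (fun p : Nat.Primes => (1 - (p : ℝ) ^ (-1 - x))⁻¹) (Z x)) ∧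
  Tendsto (fun x : ℝ => x * Z x) (𝓝[>] 0) (𝓝 1)

/-- LAP (30 min, Deps: EUL, LOC1, PLIM, ZP). For `λ > 0`: `∑_m σ σ/m = ∏_p L_p` and
`L_p = R_p ∏_{i,j} (1 - p^{-1-λs_i-λz_j})⁻¹`, so it is `∏_p R_p · ∏_{i,j} Z(λ(s_i + z_j))`
(`HasProd.mul`; `R_p` is multipliable by LOC1). Now PLIM, ZP. -/
def S_LAP : Prop := ∀ (k : ℕ) (s z : Fin k → ℝ), 1 ≤ k → (∀ i, 0 < s i) → (∀ i, 0 < z i) →
  Tendsto (fun l : ℝ => l ^ (k ^ 2) *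
      ∑' m : ℕ, sg k (fun i => l * s i) m * sg k (fun i => l * z i) m / m) (𝓝[>] 0)
    (𝓝 (aK k * ∏ i, ∏ j, 1 / (s i + z j)))

/-- SW (25 min, no Deps). Stone–Weierstrass on the cube (`Icc 0 1` in `ι → ℝ`): the span of the monomials is a
subalgebra that separates points. (`ContinuousMap.continuousMap_mem_subalgebra_closure_of_separatesPoints`;
e.g. the subalgebra of the maps `u ↦ MvPolynomial.eval u q`.) -/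
def S_SW : Prop := ∀ (ι : Type) [Fintype ι] (g : (ι → ℝ) → ℝ), ContinuousOn g (Set.Icc 0 1) → ∀ ε : ℝ, 0 < ε →
  ∃ (I : Finset (ι → ℕ)) (c : (ι → ℕ) → ℝ), ∀ u ∈ Set.Icc (0 : ι → ℝ) 1,
    |g u - ∑ n ∈ I, c n * ∏ i, u i ^ n i| ≤ ε

/-- Hypotheses of the Tauberian theorem. -/
structure Kh (ι : Type) [Fintype ι] (κ : ℕ) (μ ν : Measure (ι → ℝ)) : Prop where
  mu_nn : ∀ᵐ x ∂μ, ∀ i, 0 ≤ x i
  nu_nn : ∀ᵐ x ∂ν, ∀ i, 0 ≤ x i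
  mu_int : ∀ s : ι → ℝ, (∀ i, 0 < s i) → Integrable (fun x => Real.exp (-∑ i, s i * x i)) μ
  nu_int : ∀ s : ι → ℝ, (∀ i, 0 < s i) → Integrable (fun x => Real.exp (-∑ i, s i * x i)) ν
  lim : ∀ s : ι → ℝ, (∀ i, 0 < s i) →
    Tendsto (fun l : ℝ => l ^ κ * ∫ x, Real.exp (-∑ i, l * s i * x i) ∂μ) (𝓝[>] 0)
      (𝓝 (∫ x, Real.exp (-∑ i, s i * x i) ∂ν))

/-- KAR1 (30 min, Deps: SW). For `g` a monomial `∏ u_i^{n_i}` this is the hypothesis `lim` with `s_i = n_i + 1`; by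
linearity for polynomials; for continuous `g` approximate within `ε` (SW): the error on the left is at most
`ε λ^κ ∫ e^{-λ∑x_i} dμ`, which converges to `ε ∫ e^{-∑x_i} dν`. -/
def S_KAR1 : Prop := ∀ (ι : Type) [Fintype ι] (κ : ℕ) (μ ν : Measure (ι → ℝ)), Kh ι κ μ ν →
  ∀ g : (ι → ℝ) → ℝ, Continuous g →
  Tendsto (fun l : ℝ => l ^ κ * ∫ x, g (fun i => Real.exp (-(l * x i))) * Real.exp (-∑ i, l * x i) ∂μ) (𝓝[>] 0)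
    (𝓝 (∫ x, g (fun i => Real.exp (-x i)) * Real.exp (-∑ i, x i) ∂ν))

/-- CUT (30 min, no Deps). Continuous functions of `u = e^{-x}` between which the indicator of the box is squeezed.
For `0 < δ < 1` let `c⁻(x) = clamp((1-x)/δ)`, `c⁺(x) = clamp((1+δ-x)/δ)` (`clamp y = max 0 (min 1 y)`), and
`g^±(u) = ∏_i c^±(-log u_i)/u_i` for `u_i > 0`, factor `0` for `u_i ≤ 0` (it vanishes for `0 < u_i < e^{-2}`, so it is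
continuous). Then `g^±(e^{-x}) e^{-∑x_i} = ∏_i c^±(x_i)`. -/
def S_CUT : Prop := ∀ (ι : Type) [Fintype ι] (δ : ℝ), 0 < δ → δ < 1 → ∃ g₁ g₂ : (ι → ℝ) → ℝ, Continuous g₁ ∧ Continuous g₂ ∧
  (∀ x : ι → ℝ, g₁ (fun i => Real.exp (-x i)) * Real.exp (-∑ i, x i) = ∏ i, max 0 (min 1 ((1 - x i) / δ))) ∧
  (∀ x : ι → ℝ, g₂ (fun i => Real.exp (-x i)) * Real.exp (-∑ i, x i) = ∏ i, max 0 (min 1 ((1 + δ - x i) / δ)))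

/-- KAR2 (40 min, Deps: KAR1, CUT). Apply KAR1 to `g₁, g₂` of CUT:
`λ^κ ∫ ∏ c^±(λ x_i) dμ → ∫ ∏ c^±(x_i) dν`, and `∏c⁻(λx_i) ≤ 1[∀ i, x_i ≤ 1/λ] ≤ ∏c⁺(λx_i)` . As `δ → 0` both limits
tend to `ν(box)`, because `ν{x_i = 1} = 0` (dominated by `e^{2d} e^{-∑x_i}`). The box has finite `μ`- and
`ν`-measure for the same reason. -/
def S_KAR2 : Prop := ∀ (ι : Type) [Fintype ι] (κ : ℕ) (μ ν : Measure (ι → ℝ)), Kh ι κ μ ν →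
  (∀ i, ν {x | x i = 1} = 0) →
  Tendsto (fun l : ℝ => l ^ κ * (μ {x | ∀ i, x i ≤ 1 / l}).toReal) (𝓝[>] 0) (𝓝 ((ν {x | ∀ i, x i ≤ 1}).toReal))

/-- MEA (25 min, no Deps). The exponent is `-∑_{i,j} (s_i + z_j) x_ij`, so the integral is
`∏_{i,j} ∫_0^∞ e^{-(s_i+z_j)x} dx` (`integral_fintype_prod_eq_prod` twice, `volume_pi`, `Measure.restrict_pi_pi`). -/
def S_MEA : Prop := ∀ (k : ℕ) (s z : Fin k → ℝ), (∀ i, 0 < s i) → (∀ i, 0 < z i) →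
  Integrable (fun x : Fin k → Fin k → ℝ => Real.exp (-(∑ i, s i * ∑ j, x i j + ∑ j, z j * ∑ i, x i j)))
    (volume.restrict (orth k)) ∧
  ∫ x in orth k, Real.exp (-(∑ i, s i * ∑ j, x i j + ∑ j, z j * ∑ i, x i j)) = ∏ i, ∏ j, 1 / (s i + z j)

/-- NUL (20 min, no Deps). Hyperplanes are null sets (`Measure.addHaar_affineSubspace`, or Fubini). -/
def S_NUL : Prop := ∀ (k : ℕ) (a : Fin k ⊕ Fin k), volume {x : Fin k → Fin k → ℝ | rc k x a = 1} = 0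

/-- POS (15 min, no Deps). The polytope lies in `[0,1]^{k×k}` and contains `[0,1/k]^{k×k}`. -/
def S_POS : Prop := ∀ k : ℕ, 1 ≤ k → volume (polyt k) ≠ ⊤ ∧ 0 < (volume (polyt k)).toReal

/-- AKP (15 min, no Deps). In the library: `Pool.Agent.H306R2.aF_nat`, `aF_pos`
(import Pool.Agent.H306R2.EvenConst; see Pool/Agent/Results/MP_80d0cf_nt/ExplicitAllK.lean). -/
def S_AKP : Prop := ∀ k : ℕ, 1 ≤ k → 0 < aK k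

/-- MU1 (35 min, Deps: EUL). `∫ F dμ = ∑' q, w_q F(x_q)` (`integral_sum_measure`, `integral_smul_measure`,
`integral_dirac`) and group the pairs `q = (v,w)` by `m = ∏v = ∏w` (`σ_s(m) σ_z(m)/m` is the sum over the pairs with
product `m`, since `e^{-s_i log v_i} = v_i^{-s_i}`). -/
def S_MU1 : Prop := ∀ (k : ℕ) (s : Fin k ⊕ Fin k → ℝ), 1 ≤ k → (∀ a, 0 < s a) →
  (∀ᵐ x ∂(mu k), ∀ a, 0 ≤ x a) ∧
  Integrable (fun x => Real.exp (-∑ a, s a * x a)) (mu k) ∧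
  ∫ x, Real.exp (-∑ a, s a * x a) ∂(mu k) =
    ∑' m : ℕ, sg k (fun i => s (Sum.inl i)) m * sg k (fun i => s (Sum.inr i)) m / m

/-- MU2 (30 min, no Deps). The points of the box are the `(log v, log w)` with `v, w ∈ [1,N]^k`. -/
def S_MU2 : Prop := ∀ k N : ℕ, 1 ≤ k → 1 ≤ N →
  (mu k {x | ∀ a, x a ≤ Real.log N}).toReal = A k N

/-- NU (25 min, Deps: MEA, NUL, AKP). Image measure (`integral_map`, `Measure.map_apply`; `rc k` is continuous). -/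
def S_NU : Prop := ∀ k : ℕ, 1 ≤ k →
  (∀ᵐ x ∂(nu k), ∀ a, 0 ≤ x a) ∧
  (∀ s : Fin k ⊕ Fin k → ℝ, (∀ a, 0 < s a) → Integrable (fun x => Real.exp (-∑ a, s a * x a)) (nu k) ∧
    ∫ x, Real.exp (-∑ a, s a * x a) ∂(nu k) =
      aK k * ∏ i, ∏ j, 1 / (s (Sum.inl i) + s (Sum.inr j))) ∧
  (∀ a, nu k {x | x a = 1} = 0) ∧ (nu k {x | ∀ a, x a ≤ 1}).toReal = gam k

/-- LIM (20 min, Deps: LAP, KAR2, MU1, MU2, NU). KAR2 with `ι = Fin k ⊕ Fin k`, `κ = k²`, `μ = mu k`, `ν = nu k`,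
along `λ = 1/log N → 0+`. -/
def S_LIM : Prop := ∀ k : ℕ, 1 ≤ k →
  Tendsto (fun N : ℕ => A k N / Real.log N ^ (k ^ 2)) atTop (𝓝 (gam k))

/-- FIN (35 min, Deps: GRD, INTT, INTN, LIM, POS, AKP, AL, JM). `(1/T) ∫_T^{2T} = 2 J(2T) - J(T)`. Almost surely for all
`k ≥ 1` and all `η = 1/n` (countable), hence for all `η`. -/
def S_FIN : Prop := ∀ᵐ θ ∂P, ∀ (k : ℕ) (η : ℝ), 1 ≤ k → 0 < η → ∀ ε : ℝ, 0 < ε →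
  ∃ (N₀ : ℕ) (T₀ : ℝ), ∀ (T : ℝ) (N : ℕ), T₀ ≤ T → N₀ ≤ N → (N : ℝ) ≤ T ^ (2 - η) →
    |1 / T * (∫ t in T..(2 * T), ‖S θ N t‖ ^ (2 * k)) - gam k * Real.log N ^ (k ^ 2)| ≤
      ε * Real.log N ^ (k ^ 2)

/-- ZL (35 min, no Deps; optional). For `f = 1` the sum is zeta: `ζ(s) = ∑_{n ≤ x} n^{-s} + x^{1-s}/(s-1) + O(1)` on
`T ≤ t ≤ 2T`, `x = T` (van der Corput / Euler-Maclaurin with exponential sums; the library has approximations of zeta by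
partial sums: grep riemannZeta). -/
def S_ZL : Prop := ∃ C : ℝ, ∀ T t : ℝ, 1 ≤ T → T ≤ t → t ≤ 2 * T →
  ‖riemannZeta (1 / 2 + t * Complex.I) - S 0 ⌊T⌋₊ (t)‖ ≤ C

end Pool.Agent.T2H98.RT
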